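import Pool.Agent.H59.UO.Df
import Pool.Agent.H61.Rh.D1
import Pool.Agent.H61.Rh.E6

/-! # AcF: parametrisation by area, with values in a given set; the differential system -/

set_option autoImplicit false

namespace Pool.H59.UO

open Complex Finset Pool.H61.Rh

/-- copy of `exists_AC` of `Pool/Agent/H61/Rh/D1.lean` -/
theorem exists_AC' {A : ℝ} {γ : ℝ → ℂ} {S : ℝ → ℝ} {F : Set ℂ} (h : PC A γ S)
    (hF : ∀ u, γ u ∈ F) :
    ∃ (T : ℝ) (γ' : ℝ → ℂ), AC T γ' ∧ 3 * T ≤ A ∧ ∀ τ, γ' τ ∈ F := by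
  obtain ⟨U, hSU, hUS, hmono, hlip⟩ := D1_inverse h.S0 h.Slow h.Sup
  have hT : 1 / 2 ≤ S 1 := by
    have h1 := h.Slow 0 1 zero_le_one
    rw [h.S0] at h1
    linarith
  have hU1 : ∀ τ, U (τ + S 1) = U τ + 1 := by
    intro τ
    rw [← hUS (U τ + 1), h.Sper, hSU]
  have hU2 : ∀ τ, U (τ + 2 * S 1) = U τ + 2 := by
    intro τ
    rw [two_mul, ← add_assoc, hU1, hU1]
    ring
  have hU3 : ∀ τ, U (τ + 3 * S 1) = U τ + 3 := by
    intro τ
    have e : τ + 3 * S 1 = τ + 2 * S 1 + S 1 := by ring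
    rw [e, hU1, hU2]
    ring
  have hU0 : U 0 = 0 := by
    have h1 := hUS 0
    rwa [h.S0] at h1
  have habs : ∀ s t, |U s - U t| ≤ 2 * |s - t| := by
    intro s t
    rcases le_total s t with hst | hst
    · have h1 := hmono s t hst
      have h2 := hlip s t hst
      rw [abs_sub_comm, abs_sub_comm s, abs_of_nonneg (by linarith), abs_of_nonneg (by linarith)]
      exact h2
    · have h1 := hmono t s hst
      have h2 := hlip t s hst
      rw [abs_of_nonneg (by linarith), abs_of_nonneg (by linarith)]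
      exact h2
  refine ⟨S 1, fun τ => γ (U τ), ⟨by linarith, ?_, ?_, ?_, ?_, ⟨12, ?_⟩, ?_, ?_, ?_, ⟨432, ?_⟩⟩,
    h.SA, fun τ => hF _⟩
  · intro τ
    show γ (U (τ + 2 * S 1)) = γ (U (τ + S 1)) - γ (U τ)
    rw [hU2, hU1]
    exact h.hex _
  · show γ (U 0) = 1
    rw [hU0]
    exact h.g0
  · show γ (U (S 1)) = ze
    rw [hUS]
    exact h.g1
  · intro τ
    show cr (γ (U τ)) (γ (U (τ + S 1))) = s3 / 2
    rw [hU1]
    exact h.det _
  · refine LipschitzWith.of_dist_le_mul fun x y => ?_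
    rw [dist_eq_norm, Real.dist_eq]
    have h12 : ((12 : NNReal) : ℝ) = 12 := rfl
    rw [h12]
    have h1 := h.lip (U x) (U y)
    have h2 := habs x y
    calc ‖γ (U x) - γ (U y)‖ ≤ 6 * |U x - U y| := h1
      _ ≤ 6 * (2 * |x - y|) := by linarith
      _ = 12 * |x - y| := by ring
  · intro s t u v hst htu huv hvs
    refine h.conv (U s) (U t) (U u) (U v) (hmono _ _ hst) (hmono _ _ htu) (hmono _ _ huv) ?_
    have h1 := hmono _ _ hvs
    rwa [hU3] at h1
  · intro τ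
    obtain ⟨n, -, h1, h2⟩ := h.supp (U τ)
    exact ⟨n, h1, fun x => h2 (U x)⟩
  · intro n t ht hn
    refine h.poly n (fun i => U (t i)) (fun i j hij => hmono _ _ (ht hij)) ?_
    show U (t n) = U (t 0) + 3
    rw [hn, hU3]
  · intro s t hst
    have h1 := h.area (U s) (U t) (hmono s t hst)
    show |cr (γ (U s)) (γ (U t)) + cr (γ (U (s + S 1))) (γ (U (t + S 1)))
      + cr (γ (U (s + 2 * S 1))) (γ (U (t + 2 * S 1))) - 3 * (t - s)| ≤ 432 * (t - s) ^ 2
    rw [hU1, hU1, hU2, hU2]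
    rw [hSU, hSU] at h1
    refine h1.trans ?_
    have h2 := hmono s t hst
    have h3 := hlip s t hst
    nlinarith

/-- copy of `AC.rs` of `Pool/Agent/H61/Rh/E6.lean` -/
theorem AC.rs' {T : ℝ} {γ : ℝ → ℂ} (h : AC T γ) (hT : 3 * T < 2 * s3 * (9025 / 10000)) :
    ∃ a b y : ℝ → ℂ, RS T a b y ∧ b 0 = 0 ∧ ∀ τ, a τ + b τ = γ τ := by
  obtain ⟨y, hlip, hdom, ha, hb, hy⟩ := h.exists_y hT
  refine ⟨av T γ, bv T γ, y, ⟨h.Tpos, h.Tlow, ha, hb, h.ab_norm, fun τ => (h.ab_qp τ).1,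
    fun τ => (h.ab_qp τ).2, hy, hlip, hdom, ?_⟩, h.ab_init.2, fun τ => ?_⟩
  · obtain ⟨C, hC⟩ := hlip
    filter_upwards [hC.ae_differentiableAt_real] with τ hτ
    exact h.kap y ha hb τ _ hτ.hasDerivAt
  · have h1 := (h.g_eq τ).1
    unfold hx at h1
    rw [map_one, mul_one, mul_one] at h1
    exact h1.symm

end Pool.H59.UO
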