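import Pool.Agent.H59.UO.NmB
import Pool.Agent.H61.Rh.Gen

/-! # Exs: every norm has an inscribed hexagon of small determinant

For `k : ℕ` let `ν_k z = ν z + ‖z‖ / (k+1)` (`Nm.sn`); `SN.density_gen` gives `p_k, q_k` with
`ν_k p_k = ν_k q_k = ν_k (q_k - p_k) = 1`, `0 < cr p_k q_k`,
`c (4 cr p_k q_k) ≤ vol {ν_k ≤ 1} ≤ vol {ν ≤ 1}` (`Nm.vol_mono`).  All points are in the compact
set `{ν ≤ 1}`; take a convergent subsequence, limit `p, q`: `ν p = ν q = ν (q - p) = 1` since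
`0 ≤ ν_k z - ν z ≤ ‖z‖/(k+1)`, `cr p q ≥ 0`, and `cr p q ≠ 0` (`Nm.crp`). -/

set_option autoImplicit false

namespace Pool.H59.UO

open Complex MeasureTheory Pool.H61.Rh

private theorem Exs_step {c : ℝ} (hc : c ≤ 9025 / 10000) (H : RSBound c) {ν : ℂ → ℝ} (h : Nm ν)
    (k : ℕ) : ∃ p q : ℂ, ν p + 1 / ((k : ℝ) + 1) * ‖p‖ = 1 ∧ ν q + 1 / ((k : ℝ) + 1) * ‖q‖ = 1 ∧
      ν (q - p) + 1 / ((k : ℝ) + 1) * ‖q - p‖ = 1 ∧ 0 < cr p q ∧ c * (4 * cr p q) ≤ Vol ν := by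
  have hε : (0 : ℝ) < 1 / ((k : ℝ) + 1) := by positivity
  obtain ⟨p, q, hp, hq, hr, hcr, hV⟩ := (h.sn hε).density_gen hc H
  refine ⟨p, q, hp, hq, hr, hcr, hV.trans ?_⟩
  refine h.vol_mono (ν' := fun z => ν z + 1 / ((k : ℝ) + 1) * ‖z‖) fun x => ?_
  have h1 : 0 ≤ 1 / ((k : ℝ) + 1) * ‖x‖ := mul_nonneg hε.le (norm_nonneg x)
  show ν x ≤ ν x + 1 / ((k : ℝ) + 1) * ‖x‖
  linarith

private theorem Exs_lim {ν : ℂ → ℝ} (h : Nm ν) {φ : ℕ → ℕ} (hφ : StrictMono φ) {x : ℕ → ℂ} {y : ℂ}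
    (hx : Filter.Tendsto (fun k => x (φ k)) Filter.atTop (nhds y))
    (he : ∀ k, ν (x k) + 1 / ((k : ℝ) + 1) * ‖x k‖ = 1) : ν y = 1 := by
  have h1 : Filter.Tendsto (fun k => ν (x (φ k))) Filter.atTop (nhds (ν y)) :=
    (h.continuous.tendsto y).comp hx
  have h2 : Filter.Tendsto (fun k => 1 / (((φ k : ℕ) : ℝ) + 1)) Filter.atTop (nhds 0) :=
    (tendsto_one_div_add_atTop_nhds_zero_nat (𝕜 := ℝ)).comp hφ.tendsto_atTop
  have h3 : Filter.Tendsto (fun k => ν (x (φ k)) + 1 / (((φ k : ℕ) : ℝ) + 1) * ‖x (φ k)‖)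
      Filter.atTop (nhds (ν y + 0 * ‖y‖)) := h1.add (h2.mul hx.norm)
  have h4 : (fun k => ν (x (φ k)) + 1 / (((φ k : ℕ) : ℝ) + 1) * ‖x (φ k)‖) = fun _ => (1 : ℝ) :=
    funext fun k => he (φ k)
  rw [h4, zero_mul, add_zero] at h3
  exact tendsto_nhds_unique h3 tendsto_const_nhds

theorem Nm.exists_ins {c : ℝ} (hc : c ≤ 9025 / 10000) (H : RSBound c) {ν : ℂ → ℝ} (h : Nm ν) :
    ∃ p q : ℂ, Ins ν p q ∧ c * (4 * cr p q) ≤ Vol ν := by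
  choose P Q hP hQ hR hcr hV using Exs_step hc H h
  have hle : ∀ (k : ℕ) (x : ℂ), ν x + 1 / ((k : ℝ) + 1) * ‖x‖ = 1 → ν x ≤ 1 := by
    intro k x hx
    have h1 : 0 ≤ 1 / ((k : ℝ) + 1) * ‖x‖ := by positivity
    linarith
  have hK : IsCompact ({z : ℂ | ν z ≤ 1} ×ˢ {z : ℂ | ν z ≤ 1}) := h.compact.prod h.compact
  obtain ⟨⟨p, q⟩, -, φ, hφ, hlim⟩ := hK.tendsto_subseq (x := fun k => (P k, Q k))
    (fun k => ⟨hle k _ (hP k), hle k _ (hQ k)⟩)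
  have hp : Filter.Tendsto (fun k => P (φ k)) Filter.atTop (nhds p) :=
    (continuous_fst.tendsto (p, q)).comp hlim
  have hq : Filter.Tendsto (fun k => Q (φ k)) Filter.atTop (nhds q) :=
    (continuous_snd.tendsto (p, q)).comp hlim
  have hp1 : ν p = 1 := Exs_lim h hφ hp hP
  have hq1 : ν q = 1 := Exs_lim h hφ hq hQ
  have hr1 : ν (q - p) = 1 := Exs_lim h hφ (x := fun k => Q k - P k) (hq.sub hp) hR
  have hc1 : Filter.Tendsto (fun k => cr (P (φ k)) (Q (φ k))) Filter.atTop (nhds (cr p q)) := by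
    unfold cr
    have a1 := (Complex.continuous_re.tendsto p).comp hp
    have a2 := (Complex.continuous_im.tendsto p).comp hp
    have a3 := (Complex.continuous_re.tendsto q).comp hq
    have a4 := (Complex.continuous_im.tendsto q).comp hq
    exact (a1.mul a4).sub (a2.mul a3)
  have hc0 : 0 ≤ cr p q := ge_of_tendsto' hc1 fun k => (hcr (φ k)).le
  refine ⟨p, q, ⟨hp1, hq1, hr1, lt_of_le_of_ne hc0 (h.crp hp1 hq1 hr1).symm⟩, ?_⟩
  have hc2 : Filter.Tendsto (fun k => c * (4 * cr (P (φ k)) (Q (φ k)))) Filter.atTop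
      (nhds (c * (4 * cr p q))) := (hc1.const_mul 4).const_mul c
  exact le_of_tendsto' hc2 fun k => hV (φ k)

end Pool.H59.UO
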