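import Pool.Agent.H59.UO.Unq
import Pool.Agent.H59.UO.Exs

/-! # Stb: stability of the minimal norm

Suppose the statement fails: for every `n` there is a norm `ν_n` with `Vol ν_n ≤ (cR + 1/(n+1)) (4 cr p q)`
for all its inscribed hexagons, which is far from all `νS ∘ hx`.  Composing with a linear map, the
hexagon `1, ze` is inscribed (`Nm.exists_ins`); then `‖z‖/4 ≤ ν_n z ≤ 4 ‖z‖` (`Stb_bd`), and along a
nonprincipal ultrafilter `ν_n` converges to a norm `L`, uniformly in the sense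
`|ν_n - L| ≤ δ L` (`Stb_lim`).  `Stb_cmp` : if `ν z ≤ 1 + η`, `ν (z - p) ≤ 1 + η` and `(p, q)` is
inscribed then `cr p z ≤ (1 + 2 η) cr p q` (three cases as in `CrU`).  Hence `L` is minimal
(`Stb_key`), and `unique` gives a linear map from `νS` to `L`. -/

set_option autoImplicit false

namespace Pool.H59.UO

open Complex MeasureTheory Pool.H61.Rh

/-! ### linear maps -/

private lemma Stb_comp (a b c d z : ℂ) :
    hx a b (hx c d z) = hx (a * c + b * (starRingEnd ℂ) d) (a * d + b * (starRingEnd ℂ) c) z := by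
  unfold hx
  simp only [map_add, map_mul, Complex.conj_conj]
  ring

private lemma Stb_det (a b c d : ℂ) :
    normSq (a * c + b * (starRingEnd ℂ) d) - normSq (a * d + b * (starRingEnd ℂ) c) =
      (normSq a - normSq b) * (normSq c - normSq d) := by
  simp only [Complex.normSq_apply, Complex.add_re, Complex.add_im, Complex.mul_re,
    Complex.mul_im, Complex.conj_re, Complex.conj_im]
  ring

private lemma Stb_ex (a b c d : ℂ) (h : 0 < normSq a - normSq b) (h2 : 0 < normSq c - normSq d) :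
    ∃ α β : ℂ, 0 < normSq α - normSq β ∧ ∀ z, hx α β z = hx a b (hx c d z) :=
  ⟨a * c + b * (starRingEnd ℂ) d, a * d + b * (starRingEnd ℂ) c,
    by rw [Stb_det]; exact mul_pos h h2, fun z => (Stb_comp a b c d z).symm⟩

private lemma Stb_smul (a b z : ℂ) (t : ℝ) : hx a b (t * z) = t * hx a b z := by
  unfold hx
  simp only [map_mul, Complex.conj_ofReal]
  ring

private lemma Stb_add (a b z w : ℂ) : hx a b (z + w) = hx a b z + hx a b w := by
  unfold hx
  simp only [map_add]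
  ring

private lemma Stb_nm {ν : ℂ → ℝ} (h : Nm ν) {a b : ℂ} (hD : 0 < normSq a - normSq b) :
    Nm (fun z => ν (hx a b z)) where
  pos x hx0 := by
    refine h.pos _ fun h0 => ?_
    have h1 := cr_hx a b x (Complex.I * x)
    rw [h0, cr_zero_left] at h1
    have h2 : cr x (Complex.I * x) = normSq x := by
      unfold cr
      simp [Complex.normSq_apply]
    rw [h2] at h1
    have h3 := mul_pos hD (Complex.normSq_pos.2 hx0)
    linarith
  hom t x := by
    show ν (hx a b (t * x)) = |t| * ν (hx a b x)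
    rw [Stb_smul, h.hom]
  tri x y := by
    show ν (hx a b (x + y)) ≤ ν (hx a b x) + ν (hx a b y)
    rw [Stb_add]
    exact h.tri _ _

private noncomputable def Stb_L (a b : ℂ) : ℂ →ₗ[ℝ] ℂ :=
  Matrix.toLin Complex.basisOneI Complex.basisOneI
    !![a.re + b.re, b.im - a.im; a.im + b.im, a.re - b.re]

private lemma Stb_L_det (a b : ℂ) : LinearMap.det (Stb_L a b) = normSq a - normSq b := by
  unfold Stb_L
  rw [LinearMap.det_toLin, Matrix.det_fin_two_of, Complex.normSq_apply, Complex.normSq_apply]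
  ring

private lemma Stb_L_apply (a b z : ℂ) : Stb_L a b z = hx a b z := by
  unfold Stb_L hx
  rw [Matrix.toLin_apply]
  apply Complex.ext
  · simp [Matrix.mulVec, Fin.sum_univ_two, dotProduct, Complex.coe_basisOneI_repr]
    ring
  · simp [Matrix.mulVec, Fin.sum_univ_two, dotProduct, Complex.coe_basisOneI_repr]
    ring

private lemma Stb_vol {ν : ℂ → ℝ} {a b : ℂ} (hD : 0 < normSq a - normSq b) :
    Vol (fun z => ν (hx a b z)) = Vol ν / (normSq a - normSq b) := by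
  unfold Vol
  have h1 : {z : ℂ | ν (hx a b z) ≤ 1} = (Stb_L a b) ⁻¹' {z : ℂ | ν z ≤ 1} := by
    ext z
    simp only [Set.mem_preimage, Set.mem_ofPred_eq, Stb_L_apply]
  have h2 : LinearMap.det (Stb_L a b) ≠ 0 := by rw [Stb_L_det]; exact hD.ne'
  rw [h1, Measure.addHaar_preimage_linearMap _ h2, Stb_L_det, ENNReal.toReal_mul,
    ENNReal.toReal_ofReal (abs_nonneg _), abs_of_pos (inv_pos.2 hD)]
  ring

/-! ### the standard hexagon -/

private lemma Stb_two {μ : ℂ → ℝ} (h : Nm μ) {a b : ℂ} (ha : μ a = 1) (hb : μ b = 1)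
    (hab : μ (b - a) = 1) {s t : ℝ} (hs : 0 ≤ s) (ht : 0 ≤ t) :
    s ≤ μ (s * a + t * b) ∧ t ≤ μ (s * a + t * b) := by
  constructor
  · have h1 := h.tri ((t : ℂ) * (-(b - a))) (s * a + t * b)
    have e : (t : ℂ) * (-(b - a)) + (s * a + t * b) = ((s + t : ℝ) : ℂ) * a := by
      push_cast; ring
    rw [e, h.hom, h.hom, h.neg, hab, ha, abs_of_nonneg ht, abs_of_nonneg (add_nonneg hs ht)] at h1
    linarith
  · have h1 := h.tri ((s : ℂ) * (b - a)) (s * a + t * b)
    have e : (s : ℂ) * (b - a) + (s * a + t * b) = ((s + t : ℝ) : ℂ) * b := by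
      push_cast; ring
    rw [e, h.hom, h.hom, hab, hb, abs_of_nonneg hs, abs_of_nonneg (add_nonneg hs ht)] at h1
    linarith

private lemma Stb_low {μ : ℂ → ℝ} (h : Nm μ) (hi : Ins μ 1 ze) (x : ℝ) {y : ℝ} (hy : 0 ≤ y) :
    |x| + |y| ≤ 4 * μ (x * 1 + y * ze) := by
  rw [abs_of_nonneg hy]
  rcases le_total 0 x with hx | hx
  · obtain ⟨h1, h2⟩ := Stb_two h hi.p1 hi.q1 hi.r1 hx hy
    rw [abs_of_nonneg hx]
    linarith
  · rw [abs_of_nonpos hx]
    rcases le_total 0 (x + y) with h3 | h3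
    · have hr : μ (ze - 1 - ze) = 1 := by
        rw [show ze - 1 - ze = -1 by ring, h.neg, hi.p1]
      obtain ⟨h1, h2⟩ := Stb_two h hi.q1 hi.r1 hr h3 (neg_nonneg.2 hx)
      have e : ((x + y : ℝ) : ℂ) * ze + ((-x : ℝ) : ℂ) * (ze - 1) = x * 1 + y * ze := by
        push_cast; ring
      rw [e] at h1 h2
      linarith
    · have hp : μ (-1) = 1 := by rw [h.neg, hi.p1]
      have hr : μ (-1 - (ze - 1)) = 1 := by
        rw [show (-1 : ℂ) - (ze - 1) = -ze by ring, h.neg, hi.q1]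
      obtain ⟨h1, h2⟩ := Stb_two h hi.r1 hp hr hy (by linarith : 0 ≤ -x - y)
      have e : (y : ℂ) * (ze - 1) + ((-x - y : ℝ) : ℂ) * (-1) = x * 1 + y * ze := by
        push_cast; ring
      rw [e] at h1 h2
      linarith

private lemma Stb_low' {μ : ℂ → ℝ} (h : Nm μ) (hi : Ins μ 1 ze) (x y : ℝ) :
    |x| + |y| ≤ 4 * μ (x * 1 + y * ze) := by
  rcases le_total 0 y with hy | hy
  · exact Stb_low h hi x hy
  · have h1 := Stb_low h hi (-x) (neg_nonneg.2 hy)
    rw [abs_neg, abs_neg] at h1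
    have e : ((-x : ℝ) : ℂ) * 1 + ((-y : ℝ) : ℂ) * ze = -(x * 1 + y * ze) := by
      push_cast; ring
    rwa [e, h.neg] at h1

private lemma Stb_bd {μ : ℂ → ℝ} (h : Nm μ) (hi : Ins μ 1 ze) (z : ℂ) :
    ‖z‖ ≤ 4 * μ z ∧ μ z ≤ 4 * ‖z‖ := by
  have s0 := s3_pos
  have s1 : 1 ≤ s3 := by
    have := s3_sq
    nlinarith
  obtain ⟨x, y, hz, hx, hy⟩ : ∃ x y : ℝ, z = x * 1 + y * ze ∧ |x| ≤ 2 * ‖z‖ ∧ |y| ≤ 2 * ‖z‖ := by
    have h4 := Complex.abs_re_le_norm z
    have h5 := Complex.abs_im_le_norm z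
    have hn := norm_nonneg z
    have h6 : |z.im / s3| ≤ ‖z‖ := by
      rw [abs_div, abs_of_pos s0, div_le_iff₀ s0]
      nlinarith
    refine ⟨z.re - z.im / s3, 2 * (z.im / s3), ?_, ?_, ?_⟩
    · apply Complex.ext
      · simp [ze]
        ring
      · simp [ze]
        field_simp
    · have := abs_sub z.re (z.im / s3)
      linarith
    · rw [abs_mul, abs_two]
      linarith
  constructor
  · have h1 := Stb_low' h hi x y
    rw [← hz] at h1
    refine le_trans ?_ h1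
    calc ‖z‖ = ‖(x : ℂ) * 1 + y * ze‖ := by rw [← hz]
      _ ≤ ‖(x : ℂ) * 1‖ + ‖(y : ℂ) * ze‖ := norm_add_le _ _
      _ = |x| + |y| := by
        rw [mul_one, norm_mul, norm_ze, mul_one, Complex.norm_real, Complex.norm_real,
          Real.norm_eq_abs, Real.norm_eq_abs]
  · have h1 := h.tri ((x : ℂ) * 1) (y * ze)
    rw [← hz, h.hom, h.hom, hi.p1, hi.q1] at h1
    linarith

/-! ### hexagons with a given vertex -/

private lemma Stb_hex {ν : ℂ → ℝ} (h : Nm ν) {p : ℂ} (hp : ν p = 1) : ∃ q, Ins ν p q := by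
  have hp0 : p ≠ 0 := by
    intro h1
    rw [h1, h.zero] at hp
    exact zero_ne_one hp
  have hE : ∀ θ : ℝ, Complex.exp (θ * I) * p ≠ 0 := fun θ => mul_ne_zero (Complex.exp_ne_zero _) hp0
  have hP : ∀ θ : ℝ, 0 < ν (Complex.exp (θ * I) * p) := fun θ => h.pos _ (hE θ)
  have hcE : Continuous fun θ : ℝ => Complex.exp (θ * I) * p := by fun_prop
  have hcq : Continuous fun θ : ℝ =>
      (((ν (Complex.exp (θ * I) * p))⁻¹ : ℝ) : ℂ) * (Complex.exp (θ * I) * p) := by
    refine Continuous.mul ?_ hcE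
    exact Complex.continuous_ofReal.comp ((h.continuous.comp hcE).inv₀ fun θ => (hP θ).ne')
  have hcg : Continuous fun θ : ℝ =>
      ν ((((ν (Complex.exp (θ * I) * p))⁻¹ : ℝ) : ℂ) * (Complex.exp (θ * I) * p) - p) :=
    h.continuous.comp (hcq.sub continuous_const)
  have g0 : ν ((((ν (Complex.exp ((0 : ℝ) * I) * p))⁻¹ : ℝ) : ℂ) *
      (Complex.exp ((0 : ℝ) * I) * p) - p) = 0 := by
    simp [hp, h.zero]
  have gpi : ν ((((ν (Complex.exp ((Real.pi : ℝ) * I) * p))⁻¹ : ℝ) : ℂ) *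
      (Complex.exp ((Real.pi : ℝ) * I) * p) - p) = 2 := by
    rw [Complex.exp_pi_mul_I, neg_one_mul, h.neg, hp, inv_one, Complex.ofReal_one, one_mul]
    have e : -p - p = ((-2 : ℝ) : ℂ) * p := by push_cast; ring
    rw [e, h.hom, hp]
    norm_num
  obtain ⟨θ, ⟨t0, t1⟩, ht⟩ := intermediate_value_Icc Real.pi_pos.le hcg.continuousOn
    (show (1 : ℝ) ∈ Set.Icc _ _ from by
      rw [g0, gpi]
      constructor <;> norm_num)
  simp only at ht
  have t0' : 0 < θ := by
    rcases t0.lt_or_eq with h1 | h1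
    · exact h1
    · rw [← h1] at ht
      rw [g0] at ht
      norm_num at ht
  have t1' : θ < Real.pi := by
    rcases t1.lt_or_eq with h1 | h1
    · exact h1
    · rw [h1] at ht
      rw [gpi] at ht
      norm_num at ht
  refine ⟨_, hp, ?_, ht, ?_⟩
  · rw [h.hom, abs_of_pos (inv_pos.2 (hP θ)), inv_mul_cancel₀ (hP θ).ne']
  · rw [cr_smul_right]
    refine mul_pos (inv_pos.2 (hP θ)) ?_
    have e : cr p (Complex.exp (θ * I) * p) = Real.sin θ * normSq p := by
      unfold cr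
      rw [Complex.exp_mul_I]
      simp [Complex.normSq_apply, Complex.sin_ofReal_re, Complex.cos_ofReal_re,
        Complex.sin_ofReal_im, Complex.cos_ofReal_im]
      ring
    rw [e]
    exact mul_pos (Real.sin_pos_of_pos_of_lt_pi t0' t1') (Complex.normSq_pos.2 hp0)

/-! ### the determinant of almost inscribed hexagons -/

private lemma Stb_cmp {ν : ℂ → ℝ} (h : Nm ν) {p q z : ℂ} (hi : Ins ν p q) {η : ℝ} (hη : 0 ≤ η)
    (h1 : ν z ≤ 1 + η) (h2 : ν (z - p) ≤ 1 + η) : cr p z ≤ (1 + 2 * η) * cr p q := by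
  have hc : 0 < cr p q := hi.cr0
  obtain ⟨t, ht⟩ : ∃ t : ℝ, t = cr p z / cr p q := ⟨_, rfl⟩
  obtain ⟨s, hs⟩ : ∃ s : ℝ, s = cr z q / cr p q := ⟨_, rfl⟩
  have hz : z = (s : ℂ) * p + (t : ℂ) * q := by
    have e1 : s * cr p q = cr z q := by rw [hs]; field_simp
    have e2 : t * cr p q = cr p z := by rw [ht]; field_simp
    have hne : cr p q ≠ 0 := ne_of_gt hc
    apply Complex.ext
    · apply mul_left_cancel₀ hne
      simp only [Complex.add_re, Complex.mul_re, Complex.ofReal_re, Complex.ofReal_im, zero_mul,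
        sub_zero]
      have : cr p q * (s * p.re + t * q.re) = cr z q * p.re + cr p z * q.re := by
        rw [← e1, ← e2]; ring
      rw [this]
      simp only [cr]
      ring
    · apply mul_left_cancel₀ hne
      simp only [Complex.add_im, Complex.mul_im, Complex.ofReal_re, Complex.ofReal_im, zero_mul,
        add_zero]
      have : cr p q * (s * p.im + t * q.im) = cr z q * p.im + cr p z * q.im := by
        rw [← e1, ← e2]; ring
      rw [this]
      simp only [cr]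
      ring
  suffices ht1 : t ≤ 1 + 2 * η by
    rw [ht, div_le_iff₀ hc] at ht1
    exact ht1
  rcases le_total t 0 with ht0 | ht0
  · linarith
  rcases le_total 0 s with hs0 | hs0
  · have h3 := h.tri ((s : ℂ) * (q - p)) z
    have e : (s : ℂ) * (q - p) + z = ((t + s : ℝ) : ℂ) * q := by
      rw [hz]; push_cast; ring
    rw [e, h.hom, h.hom, hi.q1, hi.r1, abs_of_nonneg hs0, abs_of_nonneg (add_nonneg ht0 hs0)] at h3
    linarith
  · rcases le_total (1 - t - s) 0 with hs1 | hs1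
    · have h3 := h.tri z ((-s : ℝ) * p)
      have e : z + ((-s : ℝ) : ℂ) * p = (t : ℂ) * q := by
        rw [hz]; push_cast; ring
      rw [e, h.hom, h.hom, hi.q1, hi.p1, abs_of_nonneg ht0, abs_of_nonneg (neg_nonneg.2 hs0)] at h3
      have h4 := h.tri (z - p) ((1 - t - s : ℝ) * p)
      have e' : (z - p) + ((1 - t - s : ℝ) : ℂ) * p = (t : ℂ) * (q - p) := by
        rw [hz]; push_cast; ring
      rw [e', h.hom, h.hom, hi.r1, hi.p1, abs_of_nonneg ht0, abs_of_nonpos hs1] at h4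
      linarith
    · have h3 := h.tri ((1 - t - s : ℝ) * q) (z - p)
      have e : ((1 - t - s : ℝ) : ℂ) * q + (z - p) = ((1 - s : ℝ) : ℂ) * (q - p) := by
        rw [hz]; push_cast; ring
      rw [e, h.hom, h.hom, hi.q1, hi.r1, abs_of_nonneg hs1,
        abs_of_nonneg (by linarith : (0 : ℝ) ≤ 1 - s)] at h3
      linarith

/-! ### comparison of two norms -/

private lemma Stb_vol_le {L μ : ℂ → ℝ} (hμ : Nm μ) {r : ℝ} (hr : 0 < r)
    (hle : ∀ z, μ z ≤ r * L z) (hL : Nm L) : Vol L ≤ r ^ 2 * Vol μ := by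
  have hD : 0 < normSq (r : ℂ) - normSq (0 : ℂ) := by
    rw [Complex.normSq_ofReal, Complex.normSq_zero, sub_zero]
    positivity
  have h1 := Stb_vol (ν := L) hD
  have h2 : (fun z => L (hx (r : ℂ) 0 z)) = fun z => r * L z := by
    funext z
    unfold hx
    rw [zero_mul, add_zero, hL.hom, abs_of_pos hr]
  have h3 := hμ.vol_mono (ν' := fun z => r * L z) hle
  rw [h2] at h1
  rw [h1, div_le_iff₀ hD, Complex.normSq_ofReal, Complex.normSq_zero, sub_zero] at h3
  calc Vol L ≤ Vol μ * (r * r) := h3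
    _ = r ^ 2 * Vol μ := by ring

private lemma Stb_key {L μ : ℂ → ℝ} (hL : Nm L) (hμ : Nm μ) {δ c : ℝ} (hδ : 0 < δ) (hδ1 : δ < 1)
    (hle : ∀ z, |μ z - L z| ≤ δ * L z) (hv : ∀ p q, Ins μ p q → Vol μ ≤ c * (4 * cr p q))
    {p q : ℂ} (hi : Ins L p q) :
    Vol L ≤ (1 + δ) ^ 2 * (c * (4 * (1 / (1 - δ) * (1 + 4 * (δ / (1 - δ))) * cr p q))) := by
  have h1δ : 0 < 1 - δ := by linarith
  have hlo : ∀ z, (1 - δ) * L z ≤ μ z := by
    intro z
    have := (abs_le.1 (hle z)).1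
    linarith
  have hup : ∀ z, μ z ≤ (1 + δ) * L z := by
    intro z
    have := (abs_le.1 (hle z)).2
    linarith
  obtain ⟨m, hm⟩ : ∃ m, m = μ p := ⟨_, rfl⟩
  have hm0 : 1 - δ ≤ m := by
    have := hlo p
    rw [hi.p1] at this
    linarith
  have hm1 : m ≤ 1 + δ := by
    have := hup p
    rw [hi.p1] at this
    linarith
  have hmp : 0 < m := by linarith
  have hp' : μ (((m⁻¹ : ℝ) : ℂ) * p) = 1 := by
    rw [hμ.hom, abs_of_pos (inv_pos.2 hmp), ← hm, inv_mul_cancel₀ hmp.ne']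
  obtain ⟨q', hi'⟩ := Stb_hex hμ hp'
  have a1 : L q' ≤ 1 / (1 - δ) := by
    rw [le_div_iff₀ h1δ]
    have := hlo q'
    rw [hi'.q1] at this
    linarith
  have a2 : L (q' - ((m⁻¹ : ℝ) : ℂ) * p) ≤ 1 / (1 - δ) := by
    rw [le_div_iff₀ h1δ]
    have := hlo (q' - ((m⁻¹ : ℝ) : ℂ) * p)
    rw [hi'.r1] at this
    linarith
  have a3 : L (((m⁻¹ : ℝ) : ℂ) * p - p) ≤ δ / (1 - δ) := by
    have e : ((m⁻¹ : ℝ) : ℂ) * p - p = ((m⁻¹ - 1 : ℝ) : ℂ) * p := by push_cast; ring
    rw [e, hL.hom, hi.p1, mul_one]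
    have e2 : m⁻¹ - 1 = (1 - m) / m := by field_simp
    rw [e2, abs_div, abs_of_pos hmp, div_le_div_iff₀ hmp h1δ]
    have e3 : |1 - m| ≤ δ := by rw [abs_le]; constructor <;> linarith
    exact mul_le_mul e3 hm0 h1δ.le hδ.le
  have a4 : L (q' - p) ≤ 1 / (1 - δ) + δ / (1 - δ) := by
    have h3 := hL.tri (q' - ((m⁻¹ : ℝ) : ℂ) * p) (((m⁻¹ : ℝ) : ℂ) * p - p)
    rw [sub_add_sub_cancel] at h3
    linarith
  have hE : 0 < δ / (1 - δ) := div_pos hδ h1δ
  have e1 : 1 / (1 - δ) = 1 + δ / (1 - δ) := by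
    field_simp
    ring
  have h5 := Stb_cmp hL hi (η := 2 * (δ / (1 - δ))) (by positivity) (z := q') (by linarith)
    (by linarith)
  have h6 : cr (((m⁻¹ : ℝ) : ℂ) * p) q' = m⁻¹ * cr p q' := cr_smul_left _ _ _
  have h7 : 0 < cr p q' := by
    have := hi'.cr0
    rw [h6] at this
    exact (mul_pos_iff_of_pos_left (inv_pos.2 hmp)).1 this
  have h8 : m⁻¹ ≤ 1 / (1 - δ) := by
    rw [← one_div]
    exact one_div_le_one_div_of_le h1δ hm0
  have h9 : cr (((m⁻¹ : ℝ) : ℂ) * p) q' ≤ 1 / (1 - δ) * (1 + 4 * (δ / (1 - δ))) * cr p q := by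
    rw [h6, mul_assoc]
    have : (1 + 2 * (2 * (δ / (1 - δ)))) = 1 + 4 * (δ / (1 - δ)) := by ring
    rw [this] at h5
    exact mul_le_mul h8 h5 h7.le (by positivity)
  have h10 := hv _ _ hi'
  have hc : 0 ≤ c := by
    have h11 := hμ.vol_pos
    have h12 := hi'.cr0
    by_contra hn
    push Not at hn
    nlinarith
  have h13 := Stb_vol_le hμ (by linarith : 0 < 1 + δ) hup hL
  refine h13.trans (mul_le_mul_of_nonneg_left (h10.trans ?_) (by positivity))
  exact mul_le_mul_of_nonneg_left (mul_le_mul_of_nonneg_left h9 (by norm_num)) hc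

/-! ### compactness -/

private lemma Stb_lipB {μ : ℂ → ℝ} (h : Nm μ) (hb : ∀ z, μ z ≤ 4 * ‖z‖) (x y : ℂ) :
    |μ x - μ y| ≤ 4 * ‖x - y‖ := by
  have h1 := h.tri (x - y) y
  have h2 := h.tri (y - x) x
  rw [sub_add_cancel] at h1 h2
  have h3 : μ (y - x) = μ (x - y) := by rw [← h.neg (x - y), neg_sub]
  have h4 := hb (x - y)
  rw [abs_le]
  constructor <;> linarith

private lemma Stb_lim (μ : ℕ → ℂ → ℝ) (h : ∀ n, Nm (μ n)) (hi : ∀ n, Ins (μ n) 1 ze) :
    ∃ L : ℂ → ℝ, Nm L ∧ ∀ δ : ℝ, 0 < δ → ∀ N : ℕ, ∃ n, N ≤ n ∧ ∀ z, |μ n z - L z| ≤ δ * L z := by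
  have hlim : ∀ z, ∃ x, Filter.Tendsto (fun n => μ n z) (Filter.hyperfilter ℕ : Filter ℕ) (nhds x) := by
    intro z
    obtain ⟨x, -, hx⟩ := (isCompact_closedBall (0 : ℝ) (4 * ‖z‖)).ultrafilter_le_nhds
      ((Filter.hyperfilter ℕ).map (fun n => μ n z)) (by
        rw [Filter.le_principal_iff]
        show (fun n => μ n z) ⁻¹' Metric.closedBall (0 : ℝ) (4 * ‖z‖) ∈
          (Filter.hyperfilter ℕ : Filter ℕ)
        refine Filter.mem_of_superset Filter.univ_mem ?_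
        intro n _
        rw [Set.mem_preimage, mem_closedBall_zero_iff, Real.norm_eq_abs,
          abs_of_nonneg ((h n).nonneg z)]
        exact (Stb_bd (h n) (hi n) z).2)
    exact ⟨x, hx⟩
  choose L hL using hlim
  have b1 : ∀ z, ‖z‖ ≤ 4 * L z := fun z =>
    ge_of_tendsto' ((hL z).const_mul 4) fun n => (Stb_bd (h n) (hi n) z).1
  have b2 : ∀ z, L z ≤ 4 * ‖z‖ := fun z =>
    le_of_tendsto' (hL z) fun n => (Stb_bd (h n) (hi n) z).2
  have hLn : Nm L := by
    refine ⟨fun x hx => ?_, fun t x => ?_, fun x y => ?_⟩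
    · have := b1 x
      have := norm_pos_iff.2 hx
      linarith
    · refine tendsto_nhds_unique (hL (t * x)) (((hL x).const_mul |t|).congr fun n => ?_)
      rw [(h n).hom]
    · exact le_of_tendsto_of_tendsto' (hL (x + y)) ((hL x).add (hL y)) fun n => (h n).tri x y
  refine ⟨L, hLn, fun δ hδ N => ?_⟩
  have hr : (0 : ℝ) < δ / 36 := by positivity
  obtain ⟨t, -, htf, htc⟩ := (isCompact_sphere (0 : ℂ) 1).finite_cover_balls hr
  have ev1 : ∀ᶠ n in (Filter.hyperfilter ℕ : Filter ℕ), ∀ x ∈ t, |μ n x - L x| < δ / 36 := by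
    rw [Filter.eventually_all_finite htf]
    intro x _
    have := (Metric.tendsto_nhds.1 (hL x)) (δ / 36) hr
    simpa only [Real.dist_eq] using this
  have ev2 : ∀ᶠ n in (Filter.hyperfilter ℕ : Filter ℕ), N ≤ n :=
    (Nat.hyperfilter_le_atTop) (Filter.eventually_ge_atTop N)
  obtain ⟨n, hn1, hn2⟩ := (ev1.and ev2).exists
  refine ⟨n, hn2, fun z => ?_⟩
  have key : ∀ w : ℂ, ‖w‖ = 1 → |μ n w - L w| ≤ δ * L w := by
    intro w hw
    have hw1 := htc (by rw [mem_sphere_zero_iff_norm]; exact hw : w ∈ Metric.sphere (0 : ℂ) 1)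
    simp only [Set.mem_iUnion, Metric.mem_ball, dist_eq_norm, exists_prop] at hw1
    obtain ⟨x, hx, hxw⟩ := hw1
    have c1 := Stb_lipB (h n) (fun z => (Stb_bd (h n) (hi n) z).2) w x
    have c2 := Stb_lipB hLn b2 x w
    have c3 := (hn1 x hx).le
    rw [norm_sub_rev] at c2
    have c4 := b1 w
    rw [hw] at c4
    have c5 : |μ n w - L w| ≤ |μ n w - μ n x| + |μ n x - L x| + |L x - L w| := by
      have e : μ n w - L w = (μ n w - μ n x) + (μ n x - L x) + (L x - L w) := by ring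
      rw [e]
      exact abs_add_three _ _ _
    have c6 : δ * (1 / 4) ≤ δ * L w := mul_le_mul_of_nonneg_left (by linarith) hδ.le
    linarith
  by_cases hz : z = 0
  · rw [hz, (h n).zero, hLn.zero]
    simp
  · have hn : 0 < ‖z‖ := norm_pos_iff.2 hz
    have h1 := key (((‖z‖⁻¹ : ℝ) : ℂ) * z) (by
      rw [norm_mul, Complex.norm_real, norm_inv, norm_norm, inv_mul_cancel₀ hn.ne'])
    rw [(h n).hom, hLn.hom, abs_of_pos (inv_pos.2 hn), ← mul_sub, abs_mul,
      abs_of_pos (inv_pos.2 hn), mul_left_comm] at h1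
    exact le_of_mul_le_mul_left h1 (inv_pos.2 hn)

/-! ### the theorem -/

private lemma Stb_map {p q : ℂ} (h : 0 < cr p q) :
    ∃ a b : ℂ, 0 < normSq a - normSq b ∧ hx a b 1 = p ∧ hx a b ze = q := by
  have s0 := s3_pos
  have hne : (2 * ze - 1 : ℂ) ≠ 0 := by
    intro h0
    have h1 := congrArg Complex.im h0
    simp [ze] at h1
    linarith
  have hconj : (starRingEnd ℂ) ze = 1 - ze := by
    apply Complex.ext
    · simp [ze]
      norm_num
    · simp [ze]
  obtain ⟨a, ha⟩ : ∃ a : ℂ, a = (q - p * (1 - ze)) / (2 * ze - 1) := ⟨_, rfl⟩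
  have h1 : hx a (p - a) 1 = p := by
    unfold hx
    rw [map_one]
    ring
  have h2 : hx a (p - a) ze = q := by
    unfold hx
    rw [hconj]
    have : a * (2 * ze - 1) = q - p * (1 - ze) := by rw [ha, div_mul_cancel₀ _ hne]
    linear_combination this
  refine ⟨a, p - a, ?_, h1, h2⟩
  have h3 := cr_hx a (p - a) 1 ze
  rw [h1, h2, cr_one_ze] at h3
  have h4 : 0 < (normSq a - normSq (p - a)) * (s3 / 2) := by rw [← h3]; exact h
  exact (mul_pos_iff_of_pos_right (by positivity)).1 h4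

private lemma Stb_F (c : ℝ) (x : ℝ) : Filter.Tendsto
    (fun δ : ℝ => (1 + δ) ^ 2 * ((c + δ) * (4 * (1 / (1 - δ) * (1 + 4 * (δ / (1 - δ))) * x))))
    (nhdsWithin 0 (Set.Ioi 0)) (nhds (c * (4 * x))) := by
  have h1 : ContinuousAt
      (fun δ : ℝ => (1 + δ) ^ 2 * ((c + δ) * (4 * (1 / (1 - δ) * (1 + 4 * (δ / (1 - δ))) * x)))) 0 := by
    have h2 : (1 : ℝ) - 0 ≠ 0 := by norm_num
    fun_prop (disch := norm_num)
  have h3 := h1.tendsto.mono_left (nhdsWithin_le_nhds (s := Set.Ioi (0 : ℝ)))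
  simpa using h3

/-- stability of the minimal norm -/
theorem stab {ρ : ℝ} (hC : Cals ρ) (hc : cR < 9025 / 10000) (H : RSBound cR) {νS : ℂ → ℝ}
    (hS : Mnl νS) {ε : ℝ} (he : 0 < ε) :
    ∃ d > 0, ∀ ν : ℂ → ℝ, Nm ν → (∀ p q, Ins ν p q → Vol ν ≤ (cR + d) * (4 * cr p q)) →
      ∃ α β : ℂ, 0 < normSq α - normSq β ∧
        ∀ z, νS z ≤ ν (hx α β z) ∧ ν (hx α β z) ≤ (1 + ε) * νS z := by
  by_contra hcon
  have hcon' : ∀ d : ℝ, 0 < d → ∃ ν : ℂ → ℝ, Nm ν ∧
      (∀ p q, Ins ν p q → Vol ν ≤ (cR + d) * (4 * cr p q)) ∧ ¬ ∃ α β : ℂ, 0 < normSq α - normSq β ∧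
        ∀ z, νS z ≤ ν (hx α β z) ∧ ν (hx α β z) ≤ (1 + ε) * νS z := by
    intro d hd
    by_contra h
    apply hcon
    refine ⟨d, hd, fun ν hν hv => ?_⟩
    by_contra h'
    exact h ⟨ν, hν, hv, h'⟩
  choose ν hν hv hf using fun n : ℕ => hcon' (1 / ((n : ℝ) + 1)) (by positivity)
  have hmap : ∀ n, ∃ a b : ℂ, 0 < normSq a - normSq b ∧ Ins (fun z => ν n (hx a b z)) 1 ze := by
    intro n
    obtain ⟨p, q, hi, -⟩ := (hν n).exists_ins hc.le H
    obtain ⟨a, b, hD, h1, h2⟩ := Stb_map hi.cr0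
    refine ⟨a, b, hD, ?_, ?_, ?_, ?_⟩
    · show ν n (hx a b 1) = 1
      rw [h1, hi.p1]
    · show ν n (hx a b ze) = 1
      rw [h2, hi.q1]
    · show ν n (hx a b (ze - 1)) = 1
      have e : hx a b (ze - 1) = q - p := by
        have e1 : hx a b (ze - 1) = hx a b ze - hx a b 1 := by
          unfold hx
          simp only [map_sub, map_one]
          ring
        rw [e1, h1, h2]
      rw [e, hi.r1]
    · rw [cr_one_ze]
      have := s3_pos
      positivity
  choose a b hD hI using hmap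
  obtain ⟨μ, hμ⟩ : ∃ μ : ℕ → ℂ → ℝ, μ = fun n z => ν n (hx (a n) (b n) z) := ⟨_, rfl⟩
  have hμn : ∀ n, Nm (μ n) := by
    intro n
    rw [hμ]
    exact Stb_nm (hν n) (hD n)
  have hμi : ∀ n, Ins (μ n) 1 ze := by
    intro n
    rw [hμ]
    exact hI n
  have hμv : ∀ n p q, Ins (μ n) p q → Vol (μ n) ≤ (cR + 1 / ((n : ℝ) + 1)) * (4 * cr p q) := by
    intro n p q hi
    have h1 : Vol (μ n) = Vol (ν n) / (normSq (a n) - normSq (b n)) := by
      rw [hμ]
      exact Stb_vol (hD n)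
    rw [hμ] at hi
    have hi1 : Ins (ν n) (hx (a n) (b n) p) (hx (a n) (b n) q) := by
      refine ⟨hi.p1, hi.q1, ?_, ?_⟩
      · have e1 : hx (a n) (b n) q - hx (a n) (b n) p = hx (a n) (b n) (q - p) := by
          unfold hx
          simp only [map_sub]
          ring
        rw [e1]
        exact hi.r1
      · rw [cr_hx]
        exact mul_pos (hD n) hi.cr0
    have h2 := hv n _ _ hi1
    rw [cr_hx] at h2
    rw [h1, div_le_iff₀ (hD n)]
    calc Vol (ν n) ≤ _ := h2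
      _ = _ := by ring
  have hμf : ∀ n, ¬ ∃ α β : ℂ, 0 < normSq α - normSq β ∧
        ∀ z, νS z ≤ μ n (hx α β z) ∧ μ n (hx α β z) ≤ (1 + ε) * νS z := by
    rintro n ⟨α, β, h1, h2⟩
    obtain ⟨α', β', h3, h4⟩ := Stb_ex (a n) (b n) α β (hD n) h1
    refine hf n ⟨α', β', h3, fun z => ?_⟩
    rw [h4 z]
    have := h2 z
    rw [hμ] at this
    exact this
  obtain ⟨L, hL, hlim⟩ := Stb_lim μ hμn hμi
  have hM : Mnl L := by
    refine ⟨hL, fun p q hi => ?_⟩
    refine ge_of_tendsto (Stb_F cR (cr p q)) ?_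
    filter_upwards [Ioo_mem_nhdsGT (show (0 : ℝ) < 1 by norm_num)] with δ hδ
    obtain ⟨N, hN⟩ := exists_nat_one_div_lt hδ.1
    obtain ⟨n, hn, hn'⟩ := hlim δ hδ.1 N
    refine Stb_key hL (hμn n) hδ.1 hδ.2 hn' (fun p q hi => (hμv n p q hi).trans ?_) hi
    refine mul_le_mul_of_nonneg_right ?_ (by have := hi.cr0; positivity)
    have h1 : 1 / ((n : ℝ) + 1) ≤ 1 / ((N : ℝ) + 1) := by
      apply one_div_le_one_div_of_le (by positivity)
      have : (N : ℝ) ≤ n := by exact_mod_cast hn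
      linarith
    linarith
  obtain ⟨α, β, hαβ, hu⟩ := unique hC hc H hS hM
  have hδ0 : 0 < ε / (2 + ε) := by positivity
  have h1δ : 1 - ε / (2 + ε) = 2 / (2 + ε) := by
    field_simp
    ring
  obtain ⟨n, -, hn⟩ := hlim (ε / (2 + ε)) hδ0 0
  obtain ⟨r, hr⟩ : ∃ r : ℝ, r = (2 + ε) / 2 := ⟨_, rfl⟩
  have hr0 : 0 < r := by rw [hr]; positivity
  refine hμf n ⟨r * α, r * β, ?_, fun z => ?_⟩
  · rw [Complex.normSq_mul, Complex.normSq_mul, ← mul_sub, Complex.normSq_ofReal]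
    positivity
  · have e : hx (r * α) (r * β) z = r * hx α β z := by
      unfold hx
      ring
    rw [e, (hμn n).hom, abs_of_pos hr0]
    have h1 := abs_le.1 (hn (hx α β z))
    rw [hu z] at h1
    have hz : 0 ≤ νS z := hS.nm.nonneg z
    have h2 : (1 - ε / (2 + ε)) * νS z ≤ μ n (hx α β z) := by linarith [h1.1]
    have h3 : μ n (hx α β z) ≤ (1 + ε / (2 + ε)) * νS z := by linarith [h1.2]
    have e1 : r * (1 - ε / (2 + ε)) = 1 := by rw [h1δ, hr]; field_simp
    have e2 : r * (1 + ε / (2 + ε)) = 1 + ε := by rw [hr]; field_simp; ring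
    constructor
    · calc νS z = r * ((1 - ε / (2 + ε)) * νS z) := by rw [← mul_assoc, e1, one_mul]
        _ ≤ _ := mul_le_mul_of_nonneg_left h2 hr0.le
    · calc r * μ n (hx α β z) ≤ r * ((1 + ε / (2 + ε)) * νS z) := mul_le_mul_of_nonneg_left h3 hr0.le
        _ = (1 + ε) * νS z := by rw [← mul_assoc, e2]

end Pool.H59.UO
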