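import Pool.Agent.H59.UO.Fin
import Pool.Agent.H59.UO.Stb

/-! # AfS: bodies of nearly least lattice packing density are near affine images of the smoothed
octagon -/

set_option autoImplicit false

namespace Pool.H59.UO

open Complex MeasureTheory Pool.H61.Rh Pool.H94.DL
open scoped Pointwise

/-- the stability for bodies of `ℝ × ℝ` with centre `0` -/
theorem stab_pack {ε : ℝ} (he : 0 < ε) : ∃ d : ℝ, 0 < d ∧ ∀ K : Set (ℝ × ℝ), Convex ℝ K →
    IsCompact K → (interior K).Nonempty → (∀ x ∈ K, -x ∈ K) →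
    (∀ v w, Pool.H61.Sm.Pack K v w →
      (volume K).toReal / |v.1 * w.2 - v.2 * w.1| ≤ cR + d) →
    ∃ f : (ℝ × ℝ) ≃ₗ[ℝ] (ℝ × ℝ), f '' Pool.H61.Sm.K0 ⊆ K ∧
      K ⊆ f '' ((1 + ε) • Pool.H61.Sm.K0) := by
  obtain ⟨νS, hS, hS2⟩ := mnl_of_pack Pool.H61.Sm.K0 Pool.H61.Sm.K0_convex Pool.H61.Sm.K0_compact
    Pool.H61.Sm.octagon_interior (fun x hx => Pool.H61.Sm.K0_neg hx)
    (fun v w h => Pool.H61.Sm.octagon_density h)
  obtain ⟨d, hd, hst⟩ := stab cals cR_lt rsB hS he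
  refine ⟨d, hd, fun K hcv hk hi hs hden => ?_⟩
  obtain ⟨ν, h1, h2, h3⟩ := nm_of_pack (cR + d) K hcv hk hi hs hden
  obtain ⟨α, β, h4, h5⟩ := hst ν h1 h2
  obtain ⟨L, hL⟩ := hx_equiv h4
  set e := Complex.equivRealProdCLM with he'
  have hpos : (0 : ℝ) < 1 + ε := by linarith
  have hm : ∀ x, x ∈ Pool.H61.Sm.K0 ↔ νS (e.symm x) ≤ 1 := by
    intro x
    have : e.symm x ∈ e ⁻¹' Pool.H61.Sm.K0 ↔ e.symm x ∈ {z | νS z ≤ 1} := by rw [hS2]
    simpa using this
  have hm' : ∀ x, x ∈ K ↔ ν (e.symm x) ≤ 1 := by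
    intro x
    have : e.symm x ∈ e ⁻¹' K ↔ e.symm x ∈ {z | ν z ≤ 1} := by rw [h3]
    simpa using this
  refine ⟨((LinearEquiv.smulOfNeZero ℝ (ℝ × ℝ) (1 + ε)⁻¹ (inv_ne_zero hpos.ne')).trans
    ((e.symm.toLinearEquiv.trans L).trans e.toLinearEquiv)), ?_, ?_⟩
  · rintro _ ⟨x, hxm, rfl⟩
    rw [hm']
    rw [hm] at hxm
    have e1 : e.symm (((LinearEquiv.smulOfNeZero ℝ (ℝ × ℝ) (1 + ε)⁻¹ (inv_ne_zero hpos.ne')).trans
        ((e.symm.toLinearEquiv.trans L).trans e.toLinearEquiv)) x) =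
        hx α β (((1 + ε)⁻¹ : ℝ) * e.symm x) := by
      rw [← hL, ← Complex.real_smul, map_smul]
      simp
    rw [e1]
    refine (h5 _).2.trans ?_
    rw [hS.nm.hom, abs_of_pos (inv_pos.2 hpos), ← mul_assoc, mul_inv_cancel₀ hpos.ne', one_mul]
    exact hxm
  · intro x hxm
    rw [hm'] at hxm
    refine ⟨(1 + ε) • e (L.symm (e.symm x)), Set.smul_mem_smul_set ?_, ?_⟩
    · rw [hm]
      have e2 := (h5 (L.symm (e.symm x))).1
      rw [← hL, LinearEquiv.apply_symm_apply] at e2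
      simpa using e2.trans hxm
    · simp [smul_smul, mul_inv_cancel₀ hpos.ne']

/-- the stability in the Euclidean plane -/
theorem stab_plane {ε : ℝ} (he : 0 < ε) : ∃ d : ℝ, 0 < d ∧ ∀ K : Set E2, IsCompact K →
    Convex ℝ K → (interior K).Nonempty → (∃ c : E2, ∀ z ∈ K, c + c - z ∈ K) →
    (∀ v w, Pool.H61.Sm.Pack (TT '' K) v w →
      (volume (TT '' K)).toReal / |v.1 * w.2 - v.2 * w.1| ≤ cR + d) →
    ∃ f : E2 ≃ᵃ[ℝ] E2, f '' Octa.octP ⊆ K ∧ K ⊆ f '' ((1 + ε) • Octa.octP) := by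
  obtain ⟨d, hd, hst⟩ := stab_pack he
  refine ⟨d, hd, ?_⟩
  rintro K hk hc hi ⟨c, hs⟩ hden
  -- the body with centre `0`
  set K' : Set (ℝ × ℝ) := (fun x => x + TT c) ⁻¹' (TT '' K) with hK'
  let g : (ℝ × ℝ) ≃ₜ (ℝ × ℝ) := Homeomorph.addRight (TT c)
  have hg : ∀ x, g x = x + TT c := fun x => rfl
  have hgK : K' = g ⁻¹' (TT '' K) := rfl
  have hint : interior K' = g ⁻¹' interior (TT '' K) := by
    rw [hgK]
    exact (g.preimage_interior _).symm
  have hvol : volume K' = volume (TT '' K) := measure_preimage_add_right volume (TT c) (TT '' K)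
  have hcT : Convex ℝ (TT '' K) := hc.linear_image TT.toLinearEquiv.toLinearMap
  have hkT : IsCompact (TT '' K) := TT.toHomeomorph.isCompact_image.2 hk
  obtain ⟨f, hf1, hf2⟩ := hst K' (hcT.translate_preimage_left (TT c))
    (g.isCompact_preimage.mpr hkT) (by
      obtain ⟨x, hx⟩ := hi
      refine ⟨TT x - TT c, ?_⟩
      rw [hint, Set.mem_preimage, hg, sub_add_cancel, interior_TT]
      exact ⟨x, hx, rfl⟩) (by
      intro x hx
      obtain ⟨z, hz, hzx⟩ := hx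
      refine ⟨_, hs z hz, ?_⟩
      rw [map_sub, map_add, hzx]
      show TT c + TT c - (x + TT c) = -x + TT c
      abel) (by
      intro v w h
      rw [hvol]
      apply hden
      refine ⟨h.1, fun m n hmn x hx hx' => ?_⟩
      refine h.2 m n hmn (x - TT c) ?_ ?_
      · rw [hint, Set.mem_preimage, hg, sub_add_cancel]
        exact hx
      · rw [hint, Set.mem_preimage, hg]
        rwa [show x - TT c + ((m : ℝ) • v + (n : ℝ) • w) + TT c =
          x + ((m : ℝ) • v + (n : ℝ) • w) by abel])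
  refine ⟨((TT.toLinearEquiv.trans f).trans TT.symm.toLinearEquiv).toAffineEquiv.trans
      (AffineEquiv.constVAdd ℝ E2 c), ?_, ?_⟩
  · rintro _ ⟨z, hz, rfl⟩
    have h1 : f (TT z) ∈ K' := hf1 ⟨TT z, by rw [← TT_octP]; exact ⟨z, hz, rfl⟩, rfl⟩
    obtain ⟨y, hy, hyz⟩ := h1
    have h2 : (((TT.toLinearEquiv.trans f).trans TT.symm.toLinearEquiv).toAffineEquiv.trans
      (AffineEquiv.constVAdd ℝ E2 c)) z = y := by
      apply TT.injective
      rw [hyz]
      simp [add_comm]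
    rw [h2]
    exact hy
  · intro z hz
    have h1 : TT (z - c) ∈ K' := by
      refine ⟨z, hz, ?_⟩
      show TT z = TT (z - c) + TT c
      rw [map_sub, sub_add_cancel]
    obtain ⟨_, ⟨y, hy, rfl⟩, hyz⟩ := hf2 h1
    rw [← TT_octP] at hy
    obtain ⟨x, hx, rfl⟩ := hy
    refine ⟨(1 + ε) • x, Set.smul_mem_smul_set hx, ?_⟩
    apply TT.injective
    have h2 : TT z = f ((1 + ε) • TT x) + TT c := by
      rw [hyz, map_sub, sub_add_cancel]
    rw [h2]
    simp [add_comm]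

end Pool.H59.UO
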