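import Pool.Agent.H59.UO.NmB
import Pool.Agent.H61.Rh.Gen

/-! # Bdy: from bodies to norms

`ν = gauge K` (see `Pool/Agent/H61/Rh/H1b.lean`): `gauge K z ≤ 1 ↔ z ∈ K`, `z ∈ interior K →
gauge K z < 1`.  For `Ins ν p q` the lattice with the basis `2p, 2q` is a packing lattice:
`Nm.far` (same proof as `SN.lattice_far`), and `x, x + 2(mp + nq) ∈ interior K` would give
`2 ≤ ν (2(mp + nq)) < 2`. -/

set_option autoImplicit false

namespace Pool.H59.UO

open Complex MeasureTheory Pool.H61.Rh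

private lemma Bdy_core {ν : ℂ → ℝ} (h : Nm ν) (p q : ℂ) (hp : ν p = 1) (hq : ν q = 1)
    (hr : ν (q - p) = 1) (x y : ℝ) (hx : 0 ≤ x) (hy : 0 ≤ y) :
    x ≤ ν (x * p + y * q) ∧ y ≤ ν (x * p + y * q) := by
  constructor
  · have h1 := h.tri (x * p + y * q) (-((y : ℂ) * (q - p)))
    have e : (x : ℂ) * p + y * q + -((y : ℂ) * (q - p)) = ((x + y : ℝ) : ℂ) * p := by
      push_cast
      ring
    rw [e, h.neg, h.hom, h.hom, hp, hr, abs_of_nonneg (add_nonneg hx hy), abs_of_nonneg hy] at h1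
    linarith
  · have h1 := h.tri (x * p + y * q) ((x : ℂ) * (q - p))
    have e : (x : ℂ) * p + y * q + (x : ℂ) * (q - p) = ((x + y : ℝ) : ℂ) * q := by
      push_cast
      ring
    rw [e, h.hom, h.hom, hq, hr, abs_of_nonneg (add_nonneg hx hy), abs_of_nonneg hx] at h1
    linarith

private lemma Bdy_nn {ν : ℂ → ℝ} (h : Nm ν) (p q : ℂ) (hp : ν p = 1) (hq : ν q = 1)
    (hr : ν (q - p) = 1) (i j : ℤ) (hi : 0 ≤ i) (hj : 0 ≤ j) (hij : ¬ (i = 0 ∧ j = 0)) :
    1 ≤ ν (i * p + j * q) := by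
  obtain ⟨h1, h2⟩ := Bdy_core h p q hp hq hr (i : ℝ) (j : ℝ) (by exact_mod_cast hi)
    (by exact_mod_cast hj)
  rw [ofReal_intCast, ofReal_intCast] at h1 h2
  by_cases h3 : i = 0
  · have h4 : 1 ≤ j := by
      rcases lt_or_eq_of_le hj with h5 | h5
      · exact h5
      · exact absurd ⟨h3, h5.symm⟩ hij
    have h5 : (1 : ℝ) ≤ j := by exact_mod_cast h4
    exact h5.trans h2
  · have h4 : 1 ≤ i := by
      rcases lt_or_eq_of_le hi with h5 | h5
      · exact h5
      · exact absurd h5.symm h3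
    have h5 : (1 : ℝ) ≤ i := by exact_mod_cast h4
    exact h5.trans h1

private lemma Bdy_mx {ν : ℂ → ℝ} (h : Nm ν) (p q : ℂ) (hp : ν p = 1) (hq : ν q = 1)
    (hr : ν (q - p) = 1) (k n : ℤ) (hk : 0 ≤ k) (hn : 0 ≤ n) (hkn : ¬ (k = 0 ∧ n = 0)) :
    1 ≤ ν (-(k * p) + n * q) := by
  rcases le_total k n with hc | hc
  · have h1 := Bdy_nn h (q - p) q hr hq (by rw [sub_sub_cancel]; exact hp) k (n - k) hk
      (by omega) (by omega)
    have e : (k : ℂ) * (q - p) + ((n - k : ℤ) : ℂ) * q = -(k * p) + n * q := by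
      push_cast
      ring
    rwa [e] at h1
  · have h1 := Bdy_nn h (-p) (q - p) (by rw [h.neg]; exact hp) hr
      (by rw [sub_neg_eq_add, sub_add_cancel]; exact hq) (k - n) n (by omega) hn (by omega)
    have e : ((k - n : ℤ) : ℂ) * (-p) + (n : ℂ) * (q - p) = -(k * p) + n * q := by
      push_cast
      ring
    rwa [e] at h1

theorem Nm.far {ν : ℂ → ℝ} (h : Nm ν) {p q : ℂ} (hi : Ins ν p q) (m n : ℤ)
    (hmn : ¬ (m = 0 ∧ n = 0)) : 1 ≤ ν (m * p + n * q) := by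
  obtain ⟨hp, hq, hr, -⟩ := hi
  rcases le_total 0 m with hm | hm
  · rcases le_total 0 n with hn | hn
    · exact Bdy_nn h p q hp hq hr m n hm hn hmn
    · have h1 := Bdy_mx h p q hp hq hr m (-n) hm (by omega) (by omega)
      rw [← h.neg] at h1
      have e : -(-((m : ℂ) * p) + ((-n : ℤ) : ℂ) * q) = m * p + n * q := by
        push_cast
        ring
      rwa [e] at h1
  · rcases le_total 0 n with hn | hn
    · have h1 := Bdy_mx h p q hp hq hr (-m) n (by omega) hn (by omega)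
      have e : -(((-m : ℤ) : ℂ) * p) + (n : ℂ) * q = m * p + n * q := by
        push_cast
        ring
      rwa [e] at h1
    · have h1 := Bdy_nn h p q hp hq hr (-m) (-n) (by omega) (by omega) (by omega)
      rw [← h.neg] at h1
      have e : -(((-m : ℤ) : ℂ) * p + ((-n : ℤ) : ℂ) * q) = m * p + n * q := by
        push_cast
        ring
      rwa [e] at h1

private lemma Bdy_zero_mem (K : Set ℂ) (hc : Convex ℝ K) (hi : (interior K).Nonempty)
    (hs : ∀ x ∈ K, -x ∈ K) : K ∈ nhds (0 : ℂ) := by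
  obtain ⟨x, hx⟩ := hi
  have hneg : -x ∈ interior K := by
    rw [mem_interior] at hx ⊢
    obtain ⟨t, ht, hto, hxt⟩ := hx
    refine ⟨-t, ?_, hto.neg, by simpa using hxt⟩
    intro y hy
    have h1 : -y ∈ K := ht (by simpa using hy)
    have h2 := hs _ h1
    simpa using h2
  have h0 : (0 : ℂ) ∈ interior K := by
    have h := hc.interior hx hneg (by norm_num : (0 : ℝ) ≤ 1 / 2) (by norm_num : (0 : ℝ) ≤ 1 / 2)
      (by norm_num)
    have h2 : ((1 / 2 : ℝ) • x + (1 / 2 : ℝ) • (-x)) = 0 := by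
      rw [smul_neg, add_neg_cancel]
    rwa [h2] at h
  exact mem_interior_iff_mem_nhds.mp h0

private lemma Bdy_gauge_hom (K : Set ℂ) (hs : ∀ x ∈ K, -x ∈ K) (t : ℝ) (x : ℂ) :
    gauge K (t * x) = |t| * gauge K x := by
  have hx : ((t : ℂ) * x) = t • x := by rw [real_smul]
  rw [hx]
  rcases le_total 0 t with h | h
  · rw [gauge_smul_of_nonneg h, abs_of_nonneg h, smul_eq_mul]
  · have h2 : t • x = -((-t) • x) := by rw [neg_smul, neg_neg]
    rw [h2, gauge_neg hs, gauge_smul_of_nonneg (by linarith), abs_of_nonpos h, smul_eq_mul]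

theorem nm_of_body (c : ℝ) (K : Set ℂ) (hcv : Convex ℝ K) (hk : IsCompact K)
    (hi : (interior K).Nonempty) (hs : ∀ x ∈ K, -x ∈ K)
    (hd : ∀ v w : ℂ, cr v w ≠ 0 →
      (∀ m n : ℤ, ¬ (m = 0 ∧ n = 0) → ∀ x ∈ interior K, x + (m * v + n * w) ∉ interior K) →
      (volume K).toReal / |cr v w| ≤ c) :
    ∃ ν : ℂ → ℝ, Nm ν ∧ (∀ p q, Ins ν p q → Vol ν ≤ c * (4 * cr p q)) ∧ K = {z | ν z ≤ 1} := by
  have h0 := Bdy_zero_mem K hcv hi hs
  have habs : Absorbent ℝ K := absorbent_nhds_zero h0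
  have hvb : Bornology.IsVonNBounded ℝ K := NormedSpace.isVonNBounded_of_isBounded ℝ hk.isBounded
  have hN : Nm (gauge K) := ⟨fun x hx => (gauge_pos habs hvb).2 hx, Bdy_gauge_hom K hs,
    fun x y => gauge_add_le hcv habs x y⟩
  have hK : K = {z | gauge K z ≤ 1} := by
    ext z
    rw [Set.mem_ofPred_eq, gauge_le_one_iff_mem_closure hcv h0, hk.isClosed.closure_eq]
  refine ⟨gauge K, hN, fun p q hpq => ?_, hK⟩
  have hcr : cr ((2 : ℂ) * p) ((2 : ℂ) * q) = 4 * cr p q := by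
    unfold cr
    simp only [Complex.mul_re, Complex.mul_im, Complex.re_ofNat, Complex.im_ofNat, zero_mul,
      sub_zero, add_zero]
    ring
  have hcr0 : 0 < 4 * cr p q := by
    have := hpq.cr0
    linarith
  have h1 := hd (2 * p) (2 * q) (by rw [hcr]; exact hcr0.ne') (by
    intro m n hmn x hx hx'
    have h2 := hN.far hpq m n hmn
    have h3 : gauge K x < 1 := (gauge_lt_one_iff_mem_interior hcv h0).mpr hx
    have h4 : gauge K (x + (m * (2 * p) + n * (2 * q))) < 1 :=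
      (gauge_lt_one_iff_mem_interior hcv h0).mpr hx'
    have h5 := hN.tri (x + (m * (2 * p) + n * (2 * q))) (-x)
    rw [hN.neg] at h5
    have e : x + (m * (2 * p) + n * (2 * q)) + -x = ((2 : ℝ) : ℂ) * (m * p + n * q) := by
      push_cast
      ring
    rw [e, hN.hom, abs_of_pos (by norm_num : (0 : ℝ) < 2)] at h5
    linarith)
  rw [hcr, abs_of_pos hcr0, div_le_iff₀ hcr0] at h1
  have h2 : Vol (gauge K) = (volume K).toReal := by
    unfold Vol
    rw [← hK]
  rw [h2]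
  exact h1

theorem mnl_of_body (K : Set ℂ) (hcv : Convex ℝ K) (hk : IsCompact K)
    (hi : (interior K).Nonempty) (hs : ∀ x ∈ K, -x ∈ K)
    (hd : ∀ v w : ℂ, cr v w ≠ 0 →
      (∀ m n : ℤ, ¬ (m = 0 ∧ n = 0) → ∀ x ∈ interior K, x + (m * v + n * w) ∉ interior K) →
      (volume K).toReal / |cr v w| ≤ cR) :
    ∃ ν : ℂ → ℝ, Mnl ν ∧ K = {z | ν z ≤ 1} := by
  obtain ⟨ν, h1, h2, h3⟩ := nm_of_body cR K hcv hk hi hs hd
  exact ⟨ν, ⟨h1, h2⟩, h3⟩

end Pool.H59.UO
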