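import Pool.Agent.H59.UO.Unq
import Pool.Agent.H59.UO.Bdy
import Pool.Agent.H61.Sm.M9

/-! # Aff: the disks of least lattice packing density are affine images of the smoothed octagon -/

set_option autoImplicit false

namespace Pool.H59.UO

open Complex MeasureTheory Pool.H61.Rh

private theorem Aff_r2 : (1414213 / 1000000 : ℝ) < Real.sqrt 2 := by
  rw [Real.lt_sqrt (by norm_num)]
  norm_num

theorem cR_lt : cR < 9025 / 10000 := by
  have h1 := Aff_r2
  have h3 := Real.log_two_gt_d9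
  have h32 : Real.sqrt 32 = 4 * Real.sqrt 2 := by
    rw [show (32 : ℝ) = 4 ^ 2 * 2 by norm_num, Real.sqrt_mul (by norm_num),
      Real.sqrt_sq (by norm_num)]
  have h8 : Real.sqrt 8 = 2 * Real.sqrt 2 := by
    rw [show (8 : ℝ) = 2 ^ 2 * 2 by norm_num, Real.sqrt_mul (by norm_num),
      Real.sqrt_sq (by norm_num)]
  unfold cR
  rw [h32, h8, div_lt_iff₀ (by linarith)]
  linarith

theorem cR_sm : Pool.H61.Sm.cR = cR := rfl

/-- the linear bijection `hx a b` -/
theorem hx_equiv {a b : ℂ} (h : 0 < normSq a - normSq b) :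
    ∃ L : ℂ ≃ₗ[ℝ] ℂ, ∀ z, L z = hx a b z := by
  let f : ℂ →ₗ[ℝ] ℂ :=
    { toFun := hx a b
      map_add' := fun x y => by unfold hx; rw [map_add]; ring
      map_smul' := fun t x => by
        unfold hx
        rw [Complex.real_smul, map_mul, conj_ofReal, RingHom.id_apply, Complex.real_smul]
        ring }
  have hf : Function.Injective f := by
    rw [← LinearMap.ker_eq_bot, LinearMap.ker_eq_bot']
    intro z hz
    have h1 : a * z = -(b * (starRingEnd ℂ) z) := by
      have : a * z + b * (starRingEnd ℂ) z = 0 := hz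
      linear_combination this
    have h2 : normSq a * normSq z = normSq b * normSq z := by
      have := congrArg normSq h1
      rw [normSq_neg, map_mul, map_mul, normSq_conj] at this
      exact this
    have h3 : (normSq a - normSq b) * normSq z = 0 := by linarith
    exact normSq_eq_zero.1 ((mul_eq_zero.1 h3).resolve_left h.ne')
  exact ⟨LinearEquiv.ofInjectiveEndo f hf, fun z => rfl⟩

/-- from the bodies of `ℝ × ℝ` to norms -/
theorem nm_of_pack (c : ℝ) (K : Set (ℝ × ℝ)) (hcv : Convex ℝ K) (hk : IsCompact K)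
    (hi : (interior K).Nonempty) (hs : ∀ x ∈ K, -x ∈ K)
    (hd : ∀ v w, Pool.H61.Sm.Pack K v w → (volume K).toReal / |v.1 * w.2 - v.2 * w.1| ≤ c) :
    ∃ ν : ℂ → ℝ, Nm ν ∧ (∀ p q, Ins ν p q → Vol ν ≤ c * (4 * cr p q)) ∧
      Complex.equivRealProdCLM ⁻¹' K = {z | ν z ≤ 1} := by
  set e := Complex.equivRealProdCLM with he
  have hint : interior (e ⁻¹' K) = e ⁻¹' interior K :=
    (e.toHomeomorph.preimage_interior K).symm
  have hvol : volume (e ⁻¹' K) = volume K := by
    have h1 : MeasurePreserving Complex.measurableEquivRealProd := Complex.volume_preserving_equiv_real_prod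
    have h2 := h1.measure_preimage_equiv K
    exact h2
  refine nm_of_body c (e ⁻¹' K) (hcv.linear_preimage e.toLinearEquiv.toLinearMap)
    (e.toHomeomorph.isCompact_preimage.2 hk) ?_ ?_ ?_
  · rw [hint]
    obtain ⟨x, hx⟩ := hi
    refine ⟨e.symm x, ?_⟩
    simpa using hx
  · intro x hx
    have := hs (e x) hx
    simpa using this
  · intro v w hvw hp
    have h1 : Pool.H61.Sm.Pack K (e v) (e w) := by
      refine ⟨?_, fun m n hmn x hx hx' => ?_⟩
      · simpa [cr, e] using hvw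
      · refine hp m n hmn (e.symm x) ?_ ?_
        · rw [hint]; simpa using hx
        · rw [hint]
          show e (e.symm x + (m * v + n * w)) ∈ interior K
          have h1 : e (e.symm x + (m * v + n * w)) = x + ((m : ℝ) • e v + (n : ℝ) • e w) := by
            have h2 : (m : ℂ) * v + n * w = (m : ℝ) • v + (n : ℝ) • w := by
              simp
            rw [h2, map_add, map_add, map_smul, map_smul, ContinuousLinearEquiv.apply_symm_apply]
          rw [h1]
          exact hx'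
    have h2 := hd _ _ h1
    rw [hvol]
    simpa [cr, e] using h2

theorem mnl_of_pack (K : Set (ℝ × ℝ)) (hcv : Convex ℝ K) (hk : IsCompact K)
    (hi : (interior K).Nonempty) (hs : ∀ x ∈ K, -x ∈ K)
    (hd : ∀ v w, Pool.H61.Sm.Pack K v w → (volume K).toReal / |v.1 * w.2 - v.2 * w.1| ≤ cR) :
    ∃ ν : ℂ → ℝ, Mnl ν ∧ Complex.equivRealProdCLM ⁻¹' K = {z | ν z ≤ 1} := by
  obtain ⟨ν, h1, h2, h3⟩ := nm_of_pack cR K hcv hk hi hs hd
  exact ⟨ν, ⟨h1, h2⟩, h3⟩

/-- two bodies of least density with centre `0` are linear images of each other -/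
theorem linear_of_pack {ρ : ℝ} (hC : Cals ρ) (H : RSBound cR) {K K' : Set (ℝ × ℝ)}
    (hcv : Convex ℝ K) (hk : IsCompact K) (hi : (interior K).Nonempty) (hs : ∀ x ∈ K, -x ∈ K)
    (hd : ∀ v w, Pool.H61.Sm.Pack K v w → (volume K).toReal / |v.1 * w.2 - v.2 * w.1| ≤ cR)
    (hcv' : Convex ℝ K') (hk' : IsCompact K') (hi' : (interior K').Nonempty)
    (hs' : ∀ x ∈ K', -x ∈ K')
    (hd' : ∀ v w, Pool.H61.Sm.Pack K' v w → (volume K').toReal / |v.1 * w.2 - v.2 * w.1| ≤ cR) :
    ∃ f : (ℝ × ℝ) ≃ₗ[ℝ] (ℝ × ℝ), K' = f '' K := by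
  obtain ⟨ν, h1, h2⟩ := mnl_of_pack K hcv hk hi hs hd
  obtain ⟨ν', h1', h2'⟩ := mnl_of_pack K' hcv' hk' hi' hs' hd'
  obtain ⟨α, β, h3, h4⟩ := unique hC cR_lt H h1 h1'
  obtain ⟨L, hL⟩ := hx_equiv h3
  set e := Complex.equivRealProdCLM with he
  refine ⟨(e.symm.toLinearEquiv.trans L).trans e.toLinearEquiv, ?_⟩
  have h5 : ∀ x, x ∈ K ↔ ν (e.symm x) ≤ 1 := by
    intro x
    have : e.symm x ∈ e ⁻¹' K ↔ e.symm x ∈ {z | ν z ≤ 1} := by rw [h2]
    simpa using this
  have h5' : ∀ x, x ∈ K' ↔ ν' (e.symm x) ≤ 1 := by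
    intro x
    have : e.symm x ∈ e ⁻¹' K' ↔ e.symm x ∈ {z | ν' z ≤ 1} := by rw [h2']
    simpa using this
  ext x
  rw [h5']
  constructor
  · intro hx
    refine ⟨e (L.symm (e.symm x)), ?_, ?_⟩
    · rw [h5]
      rw [← h4, ← hL]
      simpa using hx
    · simp
  · rintro ⟨y, hy, rfl⟩
    rw [h5, ← h4, ← hL] at hy
    simpa using hy

/-- a disk of least density is an affine image of the smoothed octagon -/
theorem affine_of_pack {ρ : ℝ} (hC : Cals ρ) (H : RSBound cR) {K : Set (ℝ × ℝ)}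
    (hcv : Convex ℝ K) (hk : IsCompact K) (hi : (interior K).Nonempty) {o : ℝ × ℝ}
    (hs : ∀ x ∈ K, o + o - x ∈ K)
    (hd : ∀ v w, Pool.H61.Sm.Pack K v w → (volume K).toReal / |v.1 * w.2 - v.2 * w.1| ≤ cR) :
    ∃ f : (ℝ × ℝ) ≃ₗ[ℝ] (ℝ × ℝ), K = (fun z => o + f z) '' Pool.H61.Sm.K0 := by
  let e : (ℝ × ℝ) ≃ₜ (ℝ × ℝ) := Homeomorph.addRight o
  have he : ∀ x, e x = x + o := fun x => rfl
  have hint : interior (e ⁻¹' K) = e ⁻¹' interior K := (e.preimage_interior K).symm
  have hvol : volume (e ⁻¹' K) = volume K := by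
    have : (e ⁻¹' K) = (fun x => x + o) ⁻¹' K := rfl
    rw [this]
    exact measure_preimage_add_right volume o K
  obtain ⟨f, hf⟩ := linear_of_pack (K := Pool.H61.Sm.K0) (K' := e ⁻¹' K) hC H
    Pool.H61.Sm.K0_convex Pool.H61.Sm.K0_compact
    Pool.H61.Sm.octagon_interior (fun x hx => Pool.H61.Sm.K0_neg hx)
    (fun v w h => Pool.H61.Sm.octagon_density h) (by
      have := hcv.translate_preimage_left o
      exact this) (e.isCompact_preimage.mpr hk) (by
      obtain ⟨x, hx⟩ := hi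
      refine ⟨x - o, ?_⟩
      rw [hint, Set.mem_preimage, he, sub_add_cancel]
      exact hx) (by
      intro x hx
      rw [Set.mem_preimage, he] at hx ⊢
      have := hs _ hx
      rwa [show o + o - (x + o) = -x + o by abel] at this) (by
      intro v w h
      rw [hvol]
      apply hd
      refine ⟨h.1, fun m n hmn x hx hx' => ?_⟩
      refine h.2 m n hmn (x - o) ?_ ?_
      · rw [hint, Set.mem_preimage, he, sub_add_cancel]
        exact hx
      · rw [hint, Set.mem_preimage, he]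
        rwa [show x - o + ((m : ℝ) • v + (n : ℝ) • w) + o = x + ((m : ℝ) • v + (n : ℝ) • w) by abel])
  refine ⟨f, ?_⟩
  have h1 : ∀ x, x ∈ K ↔ x - o ∈ f '' Pool.H61.Sm.K0 := by
    intro x
    rw [← hf, Set.mem_preimage, he, sub_add_cancel]
  ext x
  rw [h1]
  constructor
  · rintro ⟨y, hy, hxy⟩
    refine ⟨y, hy, ?_⟩
    show o + f y = x
    rw [hxy]
    abel
  · rintro ⟨y, hy, rfl⟩
    refine ⟨y, hy, ?_⟩
    simp

/-- the determinant of a linear map of `ℝ × ℝ` -/
theorem det_two (f : (ℝ × ℝ) →ₗ[ℝ] (ℝ × ℝ)) :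
    LinearMap.det f = (f (1, 0)).1 * (f (0, 1)).2 - (f (1, 0)).2 * (f (0, 1)).1 := by
  rw [← LinearMap.det_toMatrix (Module.Basis.finTwoProd ℝ), Matrix.det_fin_two]
  simp only [LinearMap.toMatrix_apply, Module.Basis.finTwoProd_zero, Module.Basis.finTwoProd_one]
  simp
  ring

theorem det_two_apply (f : (ℝ × ℝ) →ₗ[ℝ] (ℝ × ℝ)) (v w : ℝ × ℝ) :
    (f v).1 * (f w).2 - (f v).2 * (f w).1 = LinearMap.det f * (v.1 * w.2 - v.2 * w.1) := by
  have e : ∀ v : ℝ × ℝ, f v = v.1 • f (1, 0) + v.2 • f (0, 1) := by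
    intro v
    rw [← map_smul, ← map_smul, ← map_add]
    congr 1
    ext <;> simp
  rw [det_two, e v, e w]
  simp only [Prod.fst_add, Prod.snd_add, Prod.smul_fst, Prod.smul_snd, smul_eq_mul]
  ring

/-- the lattice packing densities of the affine images of a set -/
theorem pack_affine {S : Set (ℝ × ℝ)} (f : (ℝ × ℝ) ≃ₗ[ℝ] (ℝ × ℝ)) (o v w : ℝ × ℝ)
    (hS : ∀ v w, Pool.H61.Sm.Pack S v w → (volume S).toReal / |v.1 * w.2 - v.2 * w.1| ≤ cR)
    (h : Pool.H61.Sm.Pack ((fun z => o + f z) '' S) v w) :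
    (volume ((fun z => o + f z) '' S)).toReal / |v.1 * w.2 - v.2 * w.1| ≤ cR := by
  let F : (ℝ × ℝ) ≃ₜ (ℝ × ℝ) := f.toContinuousLinearEquiv.toHomeomorph.trans (Homeomorph.addLeft o)
  have hF : ∀ z, F z = o + f z := fun z => rfl
  have hint : interior ((fun z => o + f z) '' S) = (fun z => o + f z) '' interior S := by
    exact (F.image_interior S).symm
  have hvol : (volume ((fun z => o + f z) '' S)).toReal =
      |LinearMap.det (f : (ℝ × ℝ) →ₗ[ℝ] (ℝ × ℝ))| * (volume S).toReal := by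
    have h1 : (fun z => o + f z) '' S = (fun x => o + x) '' (f '' S) := by
      rw [Set.image_image]
    rw [h1, Set.image_add_left, measure_preimage_add]
    have h2 := Measure.addHaar_image_linearMap volume (f : (ℝ × ℝ) →ₗ[ℝ] (ℝ × ℝ)) S
    have h3 : (f : (ℝ × ℝ) →ₗ[ℝ] (ℝ × ℝ)) '' S = f '' S := rfl
    rw [← h3, h2, ENNReal.toReal_mul, ENNReal.toReal_ofReal (abs_nonneg _)]
  have hdet : LinearMap.det (f : (ℝ × ℝ) →ₗ[ℝ] (ℝ × ℝ)) ≠ 0 := by
    have := LinearEquiv.isUnit_det' f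
    exact this.ne_zero
  have hvw : v.1 * w.2 - v.2 * w.1 =
      LinearMap.det (f : (ℝ × ℝ) →ₗ[ℝ] (ℝ × ℝ)) * ((f.symm v).1 * (f.symm w).2 -
        (f.symm v).2 * (f.symm w).1) := by
    rw [← det_two_apply]
    simp
  have hP : Pool.H61.Sm.Pack S (f.symm v) (f.symm w) := by
    refine ⟨fun h0 => h.1 (by rw [hvw, h0, mul_zero]), fun m n hmn x hx hx' => ?_⟩
    refine h.2 m n hmn (o + f x) (by rw [hint]; exact ⟨x, hx, rfl⟩) ?_
    rw [hint]
    refine ⟨_, hx', ?_⟩
    simp only [map_add, map_smul, LinearEquiv.apply_symm_apply]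
    abel
  have h1 := hS _ _ hP
  rw [hvol, hvw, abs_mul, mul_div_mul_left _ _ (abs_ne_zero.2 hdet)]
  exact h1

end Pool.H59.UO
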