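import Pool.Agent.H61.Rc.N7
import Pool.Agent.H61.Rc.N8a
import Pool.Agent.H61.Rc.N8b
import Pool.Agent.H61.Re.G1

/-! # CaS: the calibration with its margin

Copy of `Pool/Agent/H61/Rc/N8c.lean` (`cal_integral`) for `μ = 0`, `ε = 0`, `N = Nc ν`, in which the
term `N²` is kept: `Dsq` is the square of the distance of the state `(y, v)` from the reference
state.  The sum of its integrals over the four arcs is at most `∫ Lam 0 / ν`; if this is `≤ 0` then
`Dsq = 0` on every arc, including the end points. -/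

set_option autoImplicit false

namespace Pool.H59.UO

open Complex MeasureTheory Pool.H61.Rh

/-! ### unit factors -/

private lemma CaS_cr_unit {u : ℂ} (hu : normSq u = 1) (x z : ℂ) : cr (u * x) (u * z) = cr x z := by
  have h1 : cr (u * x) (u * z) = normSq u * cr x z := by
    simp only [cr, mul_re, mul_im, normSq_apply]; ring
  rw [h1, hu, one_mul]

private lemma CaS_nsq_unit {u : ℂ} (hu : normSq u = 1) (x : ℂ) : normSq (u * x) = normSq x := by
  rw [map_mul, hu, one_mul]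

private lemma CaS_nsq_exp (t : ℝ) : normSq (exp (I * (t : ℂ))) = 1 := by
  rw [normSq_eq_norm_sq, mul_comm, norm_exp_ofReal_mul_I]; norm_num

private lemma CaS_exp_half : exp (I * ((Real.pi / 2 : ℝ) : ℂ)) = I := by
  rw [mul_comm, exp_mul_I, ← ofReal_cos, ← ofReal_sin, Real.cos_pi_div_two, Real.sin_pi_div_two]
  simp

private lemma CaS_tp_ne : tp ≠ 0 := by unfold tp; exact exp_ne_zero _

private lemma CaS_tp_nsq : normSq tp = 1 := by
  have h : tp = exp (I * ((-(Real.pi / 12) : ℝ) : ℂ)) := by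
    unfold tp; congr 1; push_cast; ring
  rw [h]; exact CaS_nsq_exp _

private lemma CaS_tp_norm : ‖tp‖ = 1 := by
  have h := CaS_tp_nsq
  rw [normSq_eq_norm_sq] at h
  nlinarith [norm_nonneg tp]

private lemma CaS_uu_exp : uu 1 = exp (I * ((2 * Real.pi / 3 : ℝ) : ℂ)) := by
  rw [uu_one, ze_eq_exp, ← exp_nat_mul]
  congr 1; push_cast; ring

private lemma CaS_uu_nsq : normSq (uu 1) = 1 := by
  rw [CaS_uu_exp]; exact CaS_nsq_exp _

private lemma CaS_uu_norm : ‖uu 1‖ = 1 := by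
  have h := CaS_uu_nsq
  rw [normSq_eq_norm_sq] at h
  nlinarith [norm_nonneg (uu 1)]

private lemma CaS_tp_uu : uu 1 * tp * tp = I := by
  have h : uu 1 * tp * tp = exp (I * ((Real.pi / 2 : ℝ) : ℂ)) := by
    rw [CaS_uu_exp]
    unfold tp
    rw [← exp_add, ← exp_add]
    congr 1; push_cast; ring
  rw [h, CaS_exp_half]

private lemma CaS_uu_cube : uu 1 ^ 3 = 1 := by
  rw [uu_one]
  have : (ze ^ 2) ^ 3 = (ze ^ 3) ^ 2 := by ring
  rw [this, ze_cube]; norm_num

private lemma CaS_uu_conj : uu 1 * (starRingEnd ℂ) ze ^ 2 = 1 := by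
  rw [uu_one, ← mul_pow, ze_mul_conj, one_pow]

/-! ### the coordinates -/

private lemma CaS_vf_turn (a b : ℂ) : vf (tp * a) (uu 1 * tp * b) = uu 1 * vf a b := by
  unfold vf
  rw [norm_mul, CaS_tp_norm, one_mul]
  by_cases ha : a = 0
  · subst ha; simp
  · field_simp [CaS_tp_ne]

private lemma CaS_vf_per (a b : ℂ) :
    vf (ze * a) ((starRingEnd ℂ) ze * b) = (starRingEnd ℂ) ze ^ 2 * vf a b := by
  unfold vf
  rw [norm_mul, norm_ze, one_mul]
  have hz : ze ≠ 0 := by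
    intro h0; have := norm_ze; rw [h0] at this; simp at this
  have hi : (starRingEnd ℂ) ze = ze⁻¹ :=
    eq_inv_of_mul_eq_one_left (by rw [mul_comm]; exact ze_mul_conj)
  rw [hi]
  by_cases ha : a = 0
  · subst ha; simp
  · field_simp

private lemma CaS_fs_pos {y v : ℂ} (hy : Dom y) (hv : ‖v‖ ≤ 3 / 10) : 0 < fs y v := by
  have h1 := dom_norm hy
  have h2 : |dt y v| ≤ ‖y‖ * ‖v‖ := by
    rw [dt_eq_re]
    calc |((starRingEnd ℂ) y * v).re| ≤ ‖(starRingEnd ℂ) y * v‖ := abs_re_le_norm _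
      _ = ‖y‖ * ‖v‖ := by rw [norm_mul, RCLike.norm_conj]
  have h3 : ‖y‖ * ‖v‖ ≤ 8887 / 10000 * (3 / 10) :=
    mul_le_mul h1 hv (norm_nonneg _) (by norm_num)
  have h4 : 1 ≤ Real.sqrt (1 + normSq v) := by
    rw [Real.one_le_sqrt]; linarith [normSq_nonneg v]
  unfold fs
  have h5 : |dt y v / Real.sqrt (1 + normSq v)| ≤ 1 / 2 := by
    rw [abs_div, abs_of_nonneg (Real.sqrt_nonneg _)]
    rw [div_le_iff₀ (by linarith)]
    nlinarith [abs_nonneg (dt y v)]
  linarith [(abs_le.1 h5).1]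

private lemma CaS_es {T : ℝ} {a b y : ℝ → ℂ} {φ σ : ℝ → ℝ} (h : RS T a b y)
    (c : Clk T a b y φ σ) (s : ℝ) : es (a (σ (s - Real.pi / 2))) = exp (I * (s : ℂ)) := by
  have h1 := c.polar (σ (s - Real.pi / 2))
  rw [c.ps] at h1
  have hpos : 0 < ‖a (σ (s - Real.pi / 2))‖ := by
    have := h.hn (σ (s - Real.pi / 2))
    have h2 := normSq_nonneg (b (σ (s - Real.pi / 2)))
    have h3 : 0 < normSq (a (σ (s - Real.pi / 2))) := by linarith
    exact norm_pos_iff.2 (normSq_pos.1 h3)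
  have hne : ((‖a (σ (s - Real.pi / 2))‖ : ℝ) : ℂ) ≠ 0 := by exact_mod_cast hpos.ne'
  unfold es
  rw [div_eq_iff hne]
  have h4 : exp (I * (s : ℂ)) = I * exp (I * ((s - Real.pi / 2 : ℝ) : ℂ)) := by
    have : exp (I * (s : ℂ)) =
        exp (I * ((Real.pi / 2 : ℝ) : ℂ)) * exp (I * ((s - Real.pi / 2 : ℝ) : ℂ)) := by
      rw [← exp_add]; congr 1; push_cast; ring
    rw [this, CaS_exp_half]
  rw [h4]
  calc I * a (σ (s - Real.pi / 2))
      = I * ((‖a (σ (s - Real.pi / 2))‖ : ℂ) * exp (I * ((s - Real.pi / 2 : ℝ) : ℂ))) := by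
        rw [← h1]
    _ = _ := by ring

private lemma CaS_Bc {T : ℝ} {a b y : ℝ → ℂ} {φ σ : ℝ → ℝ} (h : RS T a b y)
    (c : Clk T a b y φ σ) (s : ℝ) :
    Bc a b σ s = exp (2 * I * (s : ℂ)) *
      vf (a (σ (s - Real.pi / 2))) (b (σ (s - Real.pi / 2))) := by
  unfold Bc
  rw [Bf_eq (h.hn _), CaS_es h c, ← exp_nat_mul]
  congr 2; push_cast; ring

private lemma CaS_Bc1 {T : ℝ} {a b y : ℝ → ℂ} {φ σ : ℝ → ℝ} (h : RS T a b y)
    (c : Clk T a b y φ σ) (hb : ∀ τ, ‖b τ‖ ≤ 3 / 10) (s : ℝ) :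
    Bc1 a b y σ s = exp (2 * I * (s : ℂ)) *
      bp (y (σ (s - Real.pi / 2))) (vf (a (σ (s - Real.pi / 2))) (b (σ (s - Real.pi / 2)))) := by
  unfold Bc1
  have hn := h.hn (σ (s - Real.pi / 2))
  have hy : ‖y (σ (s - Real.pi / 2))‖ < 1 :=
    lt_of_le_of_lt (dom_norm (h.dom _)) (by norm_num)
  have hv : ‖vf (a (σ (s - Real.pi / 2))) (b (σ (s - Real.pi / 2)))‖ ≤ 3 / 10 := by
    rw [vf_norm hn]; exact hb _
  have hpos := CaS_fs_pos (h.dom (σ (s - Real.pi / 2))) hv
  rw [Bd_eq _ hn hy, fq_eq_fs _ hn, CaS_es h c, ← exp_nat_mul]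
  have hne : ((fs (y (σ (s - Real.pi / 2)))
      (vf (a (σ (s - Real.pi / 2))) (b (σ (s - Real.pi / 2)))) : ℝ) : ℂ) ≠ 0 := by
    exact_mod_cast hpos.ne'
  rw [mul_div_cancel_left₀ _ hne]
  congr 2; push_cast; ring

/-- the integrand -/
private noncomputable def CaS_F (μ : ℝ) (a b y : ℝ → ℂ) (σ : ℝ → ℝ) (Bs Bs1 : ℝ → ℂ)
    (s : ℝ) : ℝ := Lam μ s (Bc a b σ s) (Bc1 a b y σ s) (Bs s) (Bs1 s)

private lemma CaS_eq {T μ : ℝ} {a b y : ℝ → ℂ} {φ σ ms : ℝ → ℝ} {Bs Bs1 : ℝ → ℂ}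
    (h : RS T a b y) (c : Clk T a b y φ σ) (hb : ∀ τ, ‖b τ‖ ≤ 3 / 10) (r : Ref ms Bs Bs1)
    {s : ℝ} (hs : |s| ≤ Real.pi / 24) :
    Lag μ (ms s) (y (σ (s - Real.pi / 2)))
      (vf (a (σ (s - Real.pi / 2))) (b (σ (s - Real.pi / 2)))) =
      CaS_F μ a b y σ Bs Bs1 s := by
  have hm : |ms s| ≤ 1 / 4 := by
    have := r.hms.mem s hs
    linarith [m1_bounds.2]
  unfold CaS_F Lam Lag
  rw [CaS_Bc h c, CaS_Bc1 h c hb, r.eqB s hs, r.eqB1 s hs, es_oa hm, r.hms.os_ms s hs]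
  have hu : normSq (exp (2 * I * (s : ℂ))) = 1 := by
    have : exp (2 * I * (s : ℂ)) = exp (I * ((2 * s : ℝ) : ℂ)) := by
      congr 1; push_cast; ring
    rw [this]; exact CaS_nsq_exp _
  rw [← mul_sub, ← mul_sub, CaS_cr_unit hu, CaS_cr_unit hu, CaS_nsq_unit hu, CaS_nsq_unit hu]
  have h8 : exp (6 * I * (s : ℂ)) * (exp (2 * I * (s : ℂ)) *
      (vf (a (σ (s - Real.pi / 2))) (b (σ (s - Real.pi / 2))) - ov (ms s))) =
      exp (I * (s : ℂ)) ^ 8 *
      (vf (a (σ (s - Real.pi / 2))) (b (σ (s - Real.pi / 2))) - ov (ms s)) := by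
    rw [← mul_assoc, ← exp_add, ← exp_nat_mul]
    congr 2; push_cast; ring
  rw [h8]

private lemma CaS_cont {T μ : ℝ} {a b y : ℝ → ℂ} {φ σ ms : ℝ → ℝ} {Bs Bs1 : ℝ → ℂ}
    (h : RS T a b y) (c : Clk T a b y φ σ) (r : Ref ms Bs Bs1) :
    Continuous (CaS_F μ a b y σ Bs Bs1) := by
  have hsh : Continuous fun s : ℝ => s - Real.pi / 2 := by fun_prop
  have c1 : Continuous (Bc a b σ) := by
    have : Continuous fun s => Bf (a (σ s)) (b (σ s)) :=
      continuous_iff_continuousAt.2 fun s => (c.B_deriv h s).continuousAt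
    exact this.comp hsh
  have c2 : Continuous (Bc1 a b y σ) := (c.B_cont h).comp hsh
  have c3 : Continuous Bs := continuous_iff_continuousAt.2 fun s => (r.dB s).continuousAt
  have c4 : Continuous Bs1 := r.cB1
  have c5 : Continuous fun s : ℝ => exp (6 * I * (s : ℂ)) := by fun_prop
  unfold CaS_F Lam
  have k1 : Continuous fun s => cr (Bc a b σ s - Bs s) (Bs1 s) :=
    continuous_cr.comp ((c1.sub c3).prodMk c4)
  have k2 : Continuous fun s => cr (Bc a b σ s - Bs s) (Bc1 a b y σ s - Bs1 s) :=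
    continuous_cr.comp ((c1.sub c3).prodMk (c2.sub c4))
  have k3 : Continuous fun s => normSq (Bc a b σ s - Bs s) :=
    continuous_normSq.comp (c1.sub c3)
  have k4 : Continuous fun s => normSq (Bc1 a b y σ s - Bs1 s) :=
    continuous_normSq.comp (c2.sub c4)
  have k5 : Continuous fun s : ℝ => (exp (6 * I * (s : ℂ)) * (Bc a b σ s - Bs s)).re :=
    continuous_re.comp (c5.mul (c1.sub c3))
  exact ((((k1.const_mul 2).add (k3.const_mul 6)).add (k2.const_mul (1 / 2))).sub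
    (k4.const_mul (1 / 12))).add (k5.const_mul μ)

/-- the value of `W` at the beginning of the arc -/
private noncomputable def CaS_w (W : ℝ × ℂ × ℂ → ℝ) (a b y : ℝ → ℂ) (σ : ℝ → ℝ) : ℝ :=
  W (-m1, y (σ (-(Real.pi / 24) - Real.pi / 2)),
    vf (a (σ (-(Real.pi / 24) - Real.pi / 2))) (b (σ (-(Real.pi / 24) - Real.pi / 2))))

/-- the square of the distance of the state at the angle `s` from the reference state -/
noncomputable def Dsq (a b y : ℝ → ℂ) (σ ms : ℝ → ℝ) (s : ℝ) : ℝ :=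
  normSq (y (σ (s - Real.pi / 2)) - oy (ms s)) +
    normSq (vf (a (σ (s - Real.pi / 2))) (b (σ (s - Real.pi / 2))) - ov (ms s))

lemma Dsq_cont {T : ℝ} {a b y : ℝ → ℂ} {φ σ ms : ℝ → ℝ} (h : RS T a b y)
    (c : Clk T a b y φ σ) (hm : Ms ms) :
    ContinuousOn (Dsq a b y σ ms) (Set.Icc (-(Real.pi / 24)) (Real.pi / 24)) := by
  have cσ : Continuous fun s : ℝ => σ (s - Real.pi / 2) := by
    have h1 : Continuous σ := continuous_iff_continuousAt.2 fun s => (c.dsig s).continuousAt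
    exact h1.comp (by fun_prop)
  have ca : Continuous a := continuous_iff_continuousAt.2 fun τ => (h.ha τ).continuousAt
  have cb : Continuous b := continuous_iff_continuousAt.2 fun τ => (h.hb τ).continuousAt
  have cy : Continuous y := by
    obtain ⟨C, hC⟩ := h.ylip
    exact hC.continuous
  have ha0 : ∀ τ, a τ ≠ 0 := fun τ => by
    have h1 := h.hn τ
    have h2 := normSq_nonneg (b τ)
    have h3 : 0 < normSq (a τ) := by linarith
    exact normSq_pos.1 h3
  have cms : ContinuousOn ms (Set.Icc (-(Real.pi / 24)) (Real.pi / 24)) := fun s hs =>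
    (hm.hd s (abs_le.2 ⟨hs.1, hs.2⟩)).continuousAt.continuousWithinAt
  have coy : Continuous oy :=
    continuous_iff_continuousAt.2 fun m => (oy_hasDerivAt m).continuousAt
  have coa : Continuous oa :=
    continuous_iff_continuousAt.2 fun m => (oa_hasDerivAt m).continuousAt
  have cob : Continuous ob :=
    continuous_iff_continuousAt.2 fun m => (ob_hasDerivAt m).continuousAt
  have hoa0 : ∀ m, oa m ≠ 0 := fun m => by
    have h1 := oa_normSq m
    have h2 := normSq_nonneg (ob m)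
    have h3 : 0 < normSq (oa m) := by linarith
    exact normSq_pos.1 h3
  have cov : Continuous ov := by
    unfold ov vf
    exact (((continuous_ofReal.comp coa.norm).mul cob).div coa hoa0).neg
  have cv : Continuous fun s : ℝ => vf (a (σ (s - Real.pi / 2))) (b (σ (s - Real.pi / 2))) := by
    unfold vf
    exact (((continuous_ofReal.comp (ca.comp cσ).norm).mul (cb.comp cσ)).div (ca.comp cσ)
      fun s => ha0 _).neg
  unfold Dsq
  exact (continuous_normSq.comp_continuousOn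
      ((cy.comp cσ).continuousOn.sub (coy.comp_continuousOn cms))).add
    (continuous_normSq.comp_continuousOn (cv.continuousOn.sub (cov.comp_continuousOn cms)))

private lemma CaS_arc {T ν : ℝ} {a b y : ℝ → ℂ} {φ σ ms : ℝ → ℝ} {Bs Bs1 : ℝ → ℂ}
    {W : ℝ × ℂ × ℂ → ℝ} (hν : 0 ≤ ν)
    (h : RS T a b y) (c : Clk T a b y φ σ) (hb : ∀ τ, ‖b τ‖ ≤ 3 / 10) (r : Ref ms Bs Bs1)
    (w : Cal 0 0 (Nc ν) W) :
    CaS_w W (fun τ => tp * a τ) (fun τ => uu 1 * tp * b τ) (fun τ => uu 1 * y τ)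
        (fun s => σ (s + Real.pi / 12)) - CaS_w W a b y σ ≤
      (∫ s in (-(Real.pi / 24))..(Real.pi / 24), CaS_F 0 a b y σ Bs Bs1 s)
        - ν * ∫ s in (-(Real.pi / 24))..(Real.pi / 24), Dsq a b y σ ms s := by
  have hpi := Real.pi_pos
  have hle : -(Real.pi / 24) ≤ Real.pi / 24 := by linarith
  have hFc := CaS_cont (μ := 0) h c r
  have hDc := Dsq_cont h c r.hms
  have hval : ∀ s ∈ Set.Icc (-(Real.pi / 24)) (Real.pi / 24),
      Lag 0 (ms s) (y (σ (s - Real.pi / 2)))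
        (vf (a (σ (s - Real.pi / 2))) (b (σ (s - Real.pi / 2))))
        - ν * (normSq (y (σ (s - Real.pi / 2)) - oy (ms s)) +
          normSq (vf (a (σ (s - Real.pi / 2))) (b (σ (s - Real.pi / 2))) - ov (ms s))) =
        CaS_F 0 a b y σ Bs Bs1 s - ν * Dsq a b y σ ms s := by
    intro s hs
    rw [CaS_eq h c hb r (abs_le.2 ⟨hs.1, hs.2⟩)]
    rfl
  have hG : ∀ m : ℝ, |m| ≤ m1 → ∀ y : ℂ, Dom y → ∀ v : ℂ, ‖v‖ ≤ 3 / 10 → ∀ j : Fin 3,
      fderiv ℝ W (m, y, v) (fs y v / osd m, Vx y j, vt y v) ≤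
        (Lag 0 m y v - ν * (normSq (y - oy m) + normSq (v - ov m))) * fs y v := by
    intro m hm y hy v hv j
    refine le_trans (w.ineq m hm y hy v hv j) ?_
    refine mul_le_mul_of_nonneg_right ?_ (CaS_fs_pos hy hv).le
    have hN2 : Nc ν m y v ^ 2 = ν * (normSq (y - oy m) + normSq (v - ov m)) :=
      Real.sq_sqrt (mul_nonneg hν (add_nonneg (normSq_nonneg _) (normSq_nonneg _)))
    rw [hN2]
    linarith
  have hGc : ContinuousOn (fun s : ℝ => Lag 0 (ms s) (y (σ (s - Real.pi / 2)))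
      (vf (a (σ (s - Real.pi / 2))) (b (σ (s - Real.pi / 2))))
        - ν * (normSq (y (σ (s - Real.pi / 2)) - oy (ms s)) +
          normSq (vf (a (σ (s - Real.pi / 2))) (b (σ (s - Real.pi / 2))) - ov (ms s))))
      (Set.Icc (-(Real.pi / 24)) (Real.pi / 24)) :=
    (hFc.continuousOn.sub (continuousOn_const.mul hDc)).congr hval
  have key := h.arc c hb r.hms w.smooth
    (G := fun m y v => Lag 0 m y v - ν * (normSq (y - oy m) + normSq (v - ov m))) hG hGc
  have hint : (∫ s in (-(Real.pi / 24))..(Real.pi / 24),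
      (fun m y v => Lag 0 m y v - ν * (normSq (y - oy m) + normSq (v - ov m)))
        (ms s) (y (σ (s - Real.pi / 2)))
        (vf (a (σ (s - Real.pi / 2))) (b (σ (s - Real.pi / 2))))) =
      (∫ s in (-(Real.pi / 24))..(Real.pi / 24), CaS_F 0 a b y σ Bs Bs1 s)
        - ν * ∫ s in (-(Real.pi / 24))..(Real.pi / 24), Dsq a b y σ ms s := by
    have e1 : (∫ s in (-(Real.pi / 24))..(Real.pi / 24),
        (fun m y v => Lag 0 m y v - ν * (normSq (y - oy m) + normSq (v - ov m)))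
          (ms s) (y (σ (s - Real.pi / 2)))
          (vf (a (σ (s - Real.pi / 2))) (b (σ (s - Real.pi / 2))))) =
        ∫ s in (-(Real.pi / 24))..(Real.pi / 24),
          (CaS_F 0 a b y σ Bs Bs1 s - ν * Dsq a b y σ ms s) := by
      refine intervalIntegral.integral_congr fun s hs => ?_
      rw [Set.uIcc_of_le hle] at hs
      exact hval s hs
    have i1 : IntervalIntegrable (fun s => ν * Dsq a b y σ ms s) volume (-(Real.pi / 24))
        (Real.pi / 24) :=
      ContinuousOn.intervalIntegrable_of_Icc hle (continuousOn_const.mul hDc)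
    rw [e1, intervalIntegral.integral_sub (hFc.intervalIntegrable _ _) i1,
      intervalIntegral.integral_const_mul]
  rw [hint] at key
  refine le_trans (le_of_eq ?_) key
  unfold CaS_w
  have harg : -(Real.pi / 24) - Real.pi / 2 + Real.pi / 12 = Real.pi / 24 - Real.pi / 2 := by
    ring
  have hv : ‖vf (a (σ (Real.pi / 24 - Real.pi / 2))) (b (σ (Real.pi / 24 - Real.pi / 2)))‖
      ≤ 3 / 10 := by
    rw [vf_norm (h.hn _)]; exact hb _
  rw [w.junction _ _ (h.dom _) hv]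
  simp only [harg, CaS_vf_turn]

private lemma CaS_shift {μ : ℝ} {a b y : ℝ → ℂ} {σ ms : ℝ → ℝ} {Bs Bs1 : ℝ → ℂ}
    (r : Ref ms Bs Bs1) (s : ℝ) :
    CaS_F μ (fun τ => tp * a τ) (fun τ => uu 1 * tp * b τ) (fun τ => uu 1 * y τ)
        (fun s => σ (s + Real.pi / 12)) Bs Bs1 s =
      CaS_F μ a b y σ Bs Bs1 (s + Real.pi / 12) := by
  have harg : s - Real.pi / 2 + Real.pi / 12 = s + Real.pi / 12 - Real.pi / 2 := by ring
  have e1 : Bc (fun τ => tp * a τ) (fun τ => uu 1 * tp * b τ) (fun s => σ (s + Real.pi / 12)) s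
      = I * Bc a b σ (s + Real.pi / 12) := by
    unfold Bc Bf
    simp only [harg]
    rw [norm_mul, CaS_tp_norm, one_mul, ← CaS_tp_uu]
    ring
  have e2 : Bc1 (fun τ => tp * a τ) (fun τ => uu 1 * tp * b τ) (fun τ => uu 1 * y τ)
      (fun s => σ (s + Real.pi / 12)) s = I * Bc1 a b y σ (s + Real.pi / 12) := by
    unfold Bc1
    simp only [harg]
    generalize a (σ (s + Real.pi / 12 - Real.pi / 2)) = A
    generalize b (σ (s + Real.pi / 12 - Real.pi / 2)) = B
    generalize y (σ (s + Real.pi / 12 - Real.pi / 2)) = Y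
    have hq : fq (tp * A) (uu 1 * tp * B) (uu 1 * Y) = fq A B Y := by
      unfold fq
      have h1 : uu 1 * Y * (tp * A) = (uu 1 * tp) * (Y * A) := by ring
      have h2 : normSq (uu 1 * tp) = 1 := by rw [map_mul, CaS_uu_nsq, CaS_tp_nsq, one_mul]
      have h3 : dt ((uu 1 * tp) * (Y * A)) ((uu 1 * tp) * B) =
          normSq (uu 1 * tp) * dt (Y * A) B := by
        generalize uu 1 * tp = u
        generalize Y * A = Z
        simp only [dt, mul_re, mul_im, normSq_apply]; ring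
      rw [h1, h3, h2, one_mul, CaS_nsq_unit CaS_tp_nsq]
    have hd : Bd (tp * A) (uu 1 * tp * B) (uu 1 * Y) = I * Bd A B Y := by
      unfold Bd
      rw [hq, norm_mul, CaS_tp_norm, one_mul]
      nth_rw 3 [← CaS_tp_uu]
      ring
    rw [hq, hd, mul_div_assoc]
  have e3 : Bs s = I * Bs (s + Real.pi / 12) := by
    rw [r.perB, ← mul_assoc]
    have : I * -I = 1 := by rw [mul_neg, I_mul_I, neg_neg]
    rw [this, one_mul]
  have e4 : Bs1 s = I * Bs1 (s + Real.pi / 12) := by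
    rw [r.perB1, ← mul_assoc]
    have : I * -I = 1 := by rw [mul_neg, I_mul_I, neg_neg]
    rw [this, one_mul]
  have hI : normSq I = 1 := normSq_I
  have e6 : exp (6 * I * ((s + Real.pi / 12 : ℝ) : ℂ)) = exp (6 * I * (s : ℂ)) * I := by
    nth_rw 3 [← CaS_exp_half]
    rw [← exp_add]; congr 1; push_cast; ring
  unfold CaS_F Lam
  rw [e1, e2, e3, e4, ← mul_sub, ← mul_sub, CaS_cr_unit hI, CaS_cr_unit hI, CaS_nsq_unit hI,
    CaS_nsq_unit hI, e6, mul_assoc (exp (6 * I * (s : ℂ)))]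

/-- the sum of the integrals of `Dsq` over the four arcs -/
noncomputable def Dsum (a b y : ℝ → ℂ) (σ ms : ℝ → ℝ) : ℝ :=
  (∫ s in (-(Real.pi / 24))..(Real.pi / 24), Dsq a b y σ ms s) +
  (∫ s in (-(Real.pi / 24))..(Real.pi / 24), Dsq (fun τ => tp * a τ)
    (fun τ => uu 1 * tp * b τ) (fun τ => uu 1 * y τ) (fun s => σ (s + Real.pi / 12)) ms s) +
  (∫ s in (-(Real.pi / 24))..(Real.pi / 24), Dsq (fun τ => tp * (tp * a τ))
    (fun τ => uu 1 * tp * (uu 1 * tp * b τ)) (fun τ => uu 1 * (uu 1 * y τ))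
    (fun s => σ (s + Real.pi / 12 + Real.pi / 12)) ms s) +
  (∫ s in (-(Real.pi / 24))..(Real.pi / 24), Dsq (fun τ => tp * (tp * (tp * a τ)))
    (fun τ => uu 1 * tp * (uu 1 * tp * (uu 1 * tp * b τ))) (fun τ => uu 1 * (uu 1 * (uu 1 * y τ)))
    (fun s => σ (s + Real.pi / 12 + Real.pi / 12 + Real.pi / 12)) ms s)

theorem cal_integral_sq {T R ν : ℝ} {a b y : ℝ → ℂ} {φ σ ms : ℝ → ℝ} {Bs Bs1 : ℝ → ℂ}
    {W : ℝ × ℂ × ℂ → ℝ} (hν : 0 ≤ ν)
    (h : RS1 T R a b y) (c : Clk T a b y φ σ) (r : Ref ms Bs Bs1) (w : Cal 0 0 (Nc ν) W) :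
    ν * Dsum a b y σ ms ≤
      ∫ s in (0 : ℝ)..(Real.pi / 3), Lam 0 s (Bc a b σ s) (Bc1 a b y σ s) (Bs s) (Bs1 s) := by
  have hrs := h.rs
  have hb0 := h.ble
  have hn : ∀ z : ℂ, ‖uu 1 * tp * z‖ = ‖z‖ := fun z => by
    rw [norm_mul, norm_mul, CaS_uu_norm, CaS_tp_norm, one_mul, one_mul]
  have a0 := CaS_arc hν hrs c hb0 r w
  have hb1 : ∀ τ, ‖uu 1 * tp * b τ‖ ≤ 3 / 10 := fun τ => by rw [hn]; exact hb0 τ
  have a1 := CaS_arc hν hrs.turn c.turn hb1 r w
  have hb2 : ∀ τ, ‖uu 1 * tp * (uu 1 * tp * b τ)‖ ≤ 3 / 10 := fun τ => by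
    rw [hn]; exact hb1 τ
  have a2 := CaS_arc hν hrs.turn.turn c.turn.turn hb2 r w
  have hb3 : ∀ τ, ‖uu 1 * tp * (uu 1 * tp * (uu 1 * tp * b τ))‖ ≤ 3 / 10 := fun τ => by
    rw [hn]; exact hb2 τ
  have a3 := CaS_arc hν hrs.turn.turn.turn c.turn.turn.turn hb3 r w
  have t1 := fun s : ℝ => CaS_shift (μ := 0) (a := a) (b := b) (y := y) (σ := σ) r s
  have t2 := fun s : ℝ => (CaS_shift (μ := 0) (a := fun τ => tp * a τ)
    (b := fun τ => uu 1 * tp * b τ) (y := fun τ => uu 1 * y τ)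
    (σ := fun s => σ (s + Real.pi / 12)) r s).trans (t1 (s + Real.pi / 12))
  have t3 := fun s : ℝ => (CaS_shift (μ := 0) (a := fun τ => tp * (tp * a τ))
    (b := fun τ => uu 1 * tp * (uu 1 * tp * b τ)) (y := fun τ => uu 1 * (uu 1 * y τ))
    (σ := fun s => σ (s + Real.pi / 12 + Real.pi / 12)) r s).trans (t2 (s + Real.pi / 12))
  simp only [t1] at a1
  simp only [t2] at a2
  simp only [t3] at a3
  have hFc := CaS_cont (μ := 0) hrs c r
  set F := CaS_F 0 a b y σ Bs Bs1 with hF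
  -- the end of the last arc
  have hend : CaS_w W (fun τ => tp * (tp * (tp * (tp * a τ))))
      (fun τ => uu 1 * tp * (uu 1 * tp * (uu 1 * tp * (uu 1 * tp * b τ))))
      (fun τ => uu 1 * (uu 1 * (uu 1 * (uu 1 * y τ))))
      (fun s => σ (s + Real.pi / 12 + Real.pi / 12 + Real.pi / 12 + Real.pi / 12)) =
      CaS_w W a b y σ := by
    unfold CaS_w
    simp only [CaS_vf_turn]
    have harg : -(Real.pi / 24) - Real.pi / 2 + Real.pi / 12 + Real.pi / 12 + Real.pi / 12 +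
        Real.pi / 12 = -(Real.pi / 24) - Real.pi / 2 + Real.pi / 3 := by ring
    rw [harg, c.sigT, hrs.py, hrs.pa, hrs.pb, CaS_vf_per]
    have h4 : ∀ z : ℂ, uu 1 * (uu 1 * (uu 1 * (uu 1 * ((starRingEnd ℂ) ze ^ 2 * z)))) = z := by
      intro z
      calc uu 1 * (uu 1 * (uu 1 * (uu 1 * ((starRingEnd ℂ) ze ^ 2 * z))))
          = uu 1 ^ 3 * (uu 1 * (starRingEnd ℂ) ze ^ 2) * z := by ring
        _ = z := by rw [CaS_uu_cube, CaS_uu_conj, one_mul, one_mul]
    rw [h4, h4]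
  rw [hend] at a3
  -- the integrals
  have hii : ∀ x z : ℝ, IntervalIntegrable F volume x z := fun x z => hFc.intervalIntegrable x z
  have s1 : (∫ s in (-(Real.pi / 24))..(Real.pi / 24), F (s + Real.pi / 12)) =
      ∫ s in (Real.pi / 24)..(3 * (Real.pi / 24)), F s := by
    rw [intervalIntegral.integral_comp_add_right F (Real.pi / 12)]
    congr 1 <;> ring
  have s2 : (∫ s in (-(Real.pi / 24))..(Real.pi / 24), F (s + Real.pi / 12 + Real.pi / 12)) =
      ∫ s in (3 * (Real.pi / 24))..(5 * (Real.pi / 24)), F s := by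
    rw [intervalIntegral.integral_comp_add_right (fun s => F (s + Real.pi / 12)) (Real.pi / 12),
      intervalIntegral.integral_comp_add_right F (Real.pi / 12)]
    congr 1 <;> ring
  have s3' : (∫ s in (-(Real.pi / 24))..(Real.pi / 24),
      F (s + Real.pi / 12 + Real.pi / 12 + Real.pi / 12)) =
      ∫ s in (5 * (Real.pi / 24))..(7 * (Real.pi / 24)), F s := by
    rw [intervalIntegral.integral_comp_add_right
        (fun s => F (s + Real.pi / 12 + Real.pi / 12)) (Real.pi / 12),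
      intervalIntegral.integral_comp_add_right (fun s => F (s + Real.pi / 12)) (Real.pi / 12),
      intervalIntegral.integral_comp_add_right F (Real.pi / 12)]
    congr 1 <;> ring
  rw [s1] at a1
  rw [s2] at a2
  rw [s3'] at a3
  have j1 := intervalIntegral.integral_add_adjacent_intervals
    (hii (-(Real.pi / 24)) (Real.pi / 24)) (hii (Real.pi / 24) (3 * (Real.pi / 24)))
  have j2 := intervalIntegral.integral_add_adjacent_intervals
    (hii (-(Real.pi / 24)) (3 * (Real.pi / 24))) (hii (3 * (Real.pi / 24)) (5 * (Real.pi / 24)))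
  have j3 := intervalIntegral.integral_add_adjacent_intervals
    (hii (-(Real.pi / 24)) (5 * (Real.pi / 24))) (hii (5 * (Real.pi / 24)) (7 * (Real.pi / 24)))
  -- periodicity
  have hper : Function.Periodic F (Real.pi / 3) := by
    intro s
    have hB : Bs (s + Real.pi / 3) = Bs s := by
      have e : s + Real.pi / 3 = s + Real.pi / 12 + Real.pi / 12 + Real.pi / 12 + Real.pi / 12 := by
        ring
      rw [e, r.perB, r.perB, r.perB, r.perB]
      have : ∀ z : ℂ, -I * (-I * (-I * (-I * z))) = z := by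
        intro z
        calc -I * (-I * (-I * (-I * z))) = (I * I) * (I * I) * z := by ring
          _ = z := by rw [I_mul_I]; ring
      exact this _
    have hB1 : Bs1 (s + Real.pi / 3) = Bs1 s := by
      have e : s + Real.pi / 3 = s + Real.pi / 12 + Real.pi / 12 + Real.pi / 12 + Real.pi / 12 := by
        ring
      rw [e, r.perB1, r.perB1, r.perB1, r.perB1]
      have : ∀ z : ℂ, -I * (-I * (-I * (-I * z))) = z := by
        intro z
        calc -I * (-I * (-I * (-I * z))) = (I * I) * (I * I) * z := by ring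
          _ = z := by rw [I_mul_I]; ring
      exact this _
    have harg : s + Real.pi / 3 - Real.pi / 2 = s - Real.pi / 2 + Real.pi / 3 := by ring
    have hC : Bc a b σ (s + Real.pi / 3) = Bc a b σ s := by
      unfold Bc
      rw [harg]
      exact c.B_per hrs _
    have hC1 : Bc1 a b y σ (s + Real.pi / 3) = Bc1 a b y σ s := by
      unfold Bc1
      rw [harg, c.sigT, hrs.pa, hrs.pb, hrs.py]
      generalize a (σ (s - Real.pi / 2)) = A
      generalize b (σ (s - Real.pi / 2)) = B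
      generalize y (σ (s - Real.pi / 2)) = Y
      have hzc := ze_mul_conj
      have hzn : normSq ze = 1 := normSq_ze
      have hzn' : normSq ((starRingEnd ℂ) ze) = 1 := by rw [normSq_conj]; exact normSq_ze
      have hya : (starRingEnd ℂ) ze ^ 2 * Y * (ze * A) = (starRingEnd ℂ) ze * (Y * A) := by
        calc (starRingEnd ℂ) ze ^ 2 * Y * (ze * A)
            = (ze * (starRingEnd ℂ) ze) * ((starRingEnd ℂ) ze * (Y * A)) := by ring
          _ = _ := by rw [hzc, one_mul]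
      have hq : fq (ze * A) ((starRingEnd ℂ) ze * B) ((starRingEnd ℂ) ze ^ 2 * Y) = fq A B Y := by
        unfold fq
        have h3 : dt ((starRingEnd ℂ) ze * (Y * A)) ((starRingEnd ℂ) ze * B) =
            normSq ((starRingEnd ℂ) ze) * dt (Y * A) B := by
          generalize (starRingEnd ℂ) ze = u
          generalize Y * A = Z
          simp only [dt, mul_re, mul_im, normSq_apply]; ring
        rw [hya, h3, hzn', one_mul, CaS_nsq_unit hzn]
      have hd : Bd (ze * A) ((starRingEnd ℂ) ze * B) ((starRingEnd ℂ) ze ^ 2 * Y) = Bd A B Y := by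
        unfold Bd
        rw [hq, norm_mul, norm_ze, one_mul]
        have : ze * A * ((starRingEnd ℂ) ze ^ 2 * Y) = (starRingEnd ℂ) ze * (A * Y) := by
          calc ze * A * ((starRingEnd ℂ) ze ^ 2 * Y)
              = (ze * (starRingEnd ℂ) ze) * ((starRingEnd ℂ) ze * (A * Y)) := by ring
            _ = _ := by rw [hzc, one_mul]
        rw [this]
        calc I * (ze * A / (‖A‖ : ℂ)) * ((starRingEnd ℂ) ze * (A * Y) -
              ((1 - fq A B Y : ℝ) : ℂ) * ((starRingEnd ℂ) ze * B))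
            = (ze * (starRingEnd ℂ) ze) * (I * (A / (‖A‖ : ℂ)) * (A * Y -
              ((1 - fq A B Y : ℝ) : ℂ) * B)) := by ring
          _ = _ := by rw [hzc, one_mul]
      rw [hq, hd]
    have e6 : exp (6 * I * ((s + Real.pi / 3 : ℝ) : ℂ)) = exp (6 * I * (s : ℂ)) := by
      have : 6 * I * ((s + Real.pi / 3 : ℝ) : ℂ) = 6 * I * (s : ℂ) + 2 * Real.pi * I := by
        push_cast; ring
      rw [this, exp_periodic]
    simp only [hF]
    unfold CaS_F Lam
    rw [hB, hB1, hC, hC1, e6]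
  have hper2 := hper.intervalIntegral_add_eq (-(Real.pi / 24)) 0
  have e7 : -(Real.pi / 24) + Real.pi / 3 = 7 * (Real.pi / 24) := by ring
  rw [e7, zero_add] at hper2
  have goal : (∫ s in (0 : ℝ)..(Real.pi / 3), Lam 0 s (Bc a b σ s) (Bc1 a b y σ s) (Bs s)
      (Bs1 s)) = ∫ s in (0 : ℝ)..(Real.pi / 3), F s := rfl
  rw [goal, ← hper2]
  unfold Dsum
  linarith


/-- a continuous non-negative function with integral zero -/
private lemma CaS_zero {f : ℝ → ℝ} {h : ℝ} (hh : 0 < h) (hf : ContinuousOn f (Set.Icc (-h) h))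
    (h0 : ∀ x, 0 ≤ f x) (hi : ∫ x in (-h)..h, f x ≤ 0) : ∀ x ∈ Set.Icc (-h) h, f x = 0 := by
  intro x hx
  by_contra hne
  have h1 : 0 < f x := lt_of_le_of_ne (h0 x) (Ne.symm hne)
  have h2 := intervalIntegral.integral_pos (by linarith : -h < h) hf (fun y _ => h0 y)
    ⟨x, hx, h1⟩
  linarith

private lemma CaS_dsq_nonneg (a b y : ℝ → ℂ) (σ ms : ℝ → ℝ) (s : ℝ) : 0 ≤ Dsq a b y σ ms s := by
  unfold Dsq
  exact add_nonneg (normSq_nonneg _) (normSq_nonneg _)

private lemma CaS_int_nonneg (a b y : ℝ → ℂ) (σ ms : ℝ → ℝ) :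
    0 ≤ ∫ s in (-(Real.pi / 24))..(Real.pi / 24), Dsq a b y σ ms s := by
  have hpi := Real.pi_pos
  exact intervalIntegral.integral_nonneg (by linarith) fun s _ => CaS_dsq_nonneg a b y σ ms s

/-- the state on the four arcs -/
private lemma CaS_arcs {T : ℝ} {a b y : ℝ → ℂ} {φ σ ms : ℝ → ℝ} (h : RS T a b y)
    (c : Clk T a b y φ σ) (hm : Ms ms) (hD : Dsum a b y σ ms = 0) :
    ∀ s ∈ Set.Icc (-(Real.pi / 24)) (Real.pi / 24), ∀ k : ℕ, k < 4 →
      uu 1 ^ k * y (σ (s - Real.pi / 2 + k * (Real.pi / 12))) = oy (ms s) ∧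
      uu 1 ^ k * vf (a (σ (s - Real.pi / 2 + k * (Real.pi / 12))))
        (b (σ (s - Real.pi / 2 + k * (Real.pi / 12)))) = ov (ms s) := by
  have hpi := Real.pi_pos
  have hh : 0 < Real.pi / 24 := by positivity
  unfold Dsum at hD
  have n0 := CaS_int_nonneg a b y σ ms
  have n1 := CaS_int_nonneg (fun τ => tp * a τ)
    (fun τ => uu 1 * tp * b τ) (fun τ => uu 1 * y τ) (fun s => σ (s + Real.pi / 12)) ms
  have n2 := CaS_int_nonneg (fun τ => tp * (tp * a τ))
    (fun τ => uu 1 * tp * (uu 1 * tp * b τ)) (fun τ => uu 1 * (uu 1 * y τ))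
    (fun s => σ (s + Real.pi / 12 + Real.pi / 12)) ms
  have n3 := CaS_int_nonneg (fun τ => tp * (tp * (tp * a τ)))
    (fun τ => uu 1 * tp * (uu 1 * tp * (uu 1 * tp * b τ))) (fun τ => uu 1 * (uu 1 * (uu 1 * y τ)))
    (fun s => σ (s + Real.pi / 12 + Real.pi / 12 + Real.pi / 12)) ms
  have z0 := CaS_zero hh (Dsq_cont h c hm) (CaS_dsq_nonneg _ _ _ _ _) (by linarith)
  have z1 := CaS_zero hh (Dsq_cont h.turn c.turn hm) (CaS_dsq_nonneg _ _ _ _ _) (by linarith)
  have z2 := CaS_zero hh (Dsq_cont h.turn.turn c.turn.turn hm) (CaS_dsq_nonneg _ _ _ _ _)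
    (by linarith)
  have z3 := CaS_zero hh (Dsq_cont h.turn.turn.turn c.turn.turn.turn hm)
    (CaS_dsq_nonneg _ _ _ _ _) (by linarith)
  have split : ∀ (a b y : ℝ → ℂ) (σ : ℝ → ℝ) (s : ℝ), Dsq a b y σ ms s = 0 →
      y (σ (s - Real.pi / 2)) = oy (ms s) ∧
      vf (a (σ (s - Real.pi / 2))) (b (σ (s - Real.pi / 2))) = ov (ms s) := by
    intro a b y σ s h0
    unfold Dsq at h0
    have p1 := normSq_nonneg (y (σ (s - Real.pi / 2)) - oy (ms s))
    have p2 := normSq_nonneg (vf (a (σ (s - Real.pi / 2))) (b (σ (s - Real.pi / 2))) - ov (ms s))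
    have q1 : normSq (y (σ (s - Real.pi / 2)) - oy (ms s)) = 0 := by linarith
    have q2 : normSq (vf (a (σ (s - Real.pi / 2))) (b (σ (s - Real.pi / 2))) - ov (ms s)) = 0 := by
      linarith
    exact ⟨sub_eq_zero.1 (normSq_eq_zero.1 q1), sub_eq_zero.1 (normSq_eq_zero.1 q2)⟩
  intro s hs k hk
  interval_cases k
  · have e := split _ _ _ _ s (z0 s hs)
    simpa using e
  · have e := split _ _ _ _ s (z1 s hs)
    simp only [CaS_vf_turn] at e
    simpa using e
  · have e := split _ _ _ _ s (z2 s hs)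
    simp only [CaS_vf_turn] at e
    have e2 : s - Real.pi / 2 + Real.pi / 12 + Real.pi / 12 =
        s - Real.pi / 2 + ((2 : ℕ) : ℝ) * (Real.pi / 12) := by push_cast; ring
    rw [e2] at e
    rw [pow_two, mul_assoc, mul_assoc]
    exact e
  · have e := split _ _ _ _ s (z3 s hs)
    simp only [CaS_vf_turn] at e
    have e2 : s - Real.pi / 2 + Real.pi / 12 + Real.pi / 12 + Real.pi / 12 =
        s - Real.pi / 2 + ((3 : ℕ) : ℝ) * (Real.pi / 12) := by push_cast; ring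
    rw [e2] at e
    have e3 : ∀ z : ℂ, uu 1 ^ 3 * z = uu 1 * (uu 1 * (uu 1 * z)) := fun z => by ring
    rw [e3, e3]
    exact e

theorem cal_strong {T R ν : ℝ} {a b y : ℝ → ℂ} {φ σ ms : ℝ → ℝ} {Bs Bs1 : ℝ → ℂ}
    {W : ℝ × ℂ × ℂ → ℝ} (h : RS1 T R a b y) (c : Clk T a b y φ σ) (r : Ref ms Bs Bs1)
    (w : Cal 0 0 (Nc ν) W) (hν : 0 < ν)
    (h0 : ∫ s in (0 : ℝ)..(Real.pi / 3), Lam 0 s (Bc a b σ s) (Bc1 a b y σ s) (Bs s) (Bs1 s) ≤ 0)
    (k : ℕ) (hk : k < 4) (s : ℝ) (hs : |s| ≤ Real.pi / 24) :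
    uu 1 ^ k * y (σ (s + k * (Real.pi / 12) - Real.pi / 2)) = oy (ms s) ∧
    uu 1 ^ k * vf (a (σ (s + k * (Real.pi / 12) - Real.pi / 2)))
      (b (σ (s + k * (Real.pi / 12) - Real.pi / 2))) = ov (ms s) := by
  have h1 := cal_integral_sq hν.le h c r w
  have h2 : 0 ≤ Dsum a b y σ ms := by
    unfold Dsum
    exact add_nonneg (add_nonneg (add_nonneg (CaS_int_nonneg _ _ _ _ _)
      (CaS_int_nonneg _ _ _ _ _)) (CaS_int_nonneg _ _ _ _ _)) (CaS_int_nonneg _ _ _ _ _)
  have h3 : Dsum a b y σ ms = 0 := by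
    by_contra hne
    have h4 : 0 < Dsum a b y σ ms := lt_of_le_of_ne h2 (Ne.symm hne)
    have h5 := mul_pos hν h4
    linarith
  have h6 := CaS_arcs h.rs c r.hms h3 s (Set.mem_Icc.2 (abs_le.1 hs)) k hk
  have e : s + k * (Real.pi / 12) - Real.pi / 2 = s - Real.pi / 2 + k * (Real.pi / 12) := by ring
  rw [e]
  exact h6

end Pool.H59.UO
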