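import Pool.Agent.H59.UO.CaS
import Pool.Agent.H61.Rc.N12b
import Pool.Agent.H61.Rz.Fin

/-! # Tgt: a solution of least period is the reference solution

The proof of `rsBound_sharp5` (`Pool/Agent/H61/Rc/N12b.lean`) for `T = Ts`: the constants there are
strictly positive, so `R = oRs`, and `area_ineq` with `μ = 0` gives `∫ Lam 0 ≤ 0`; `cal_strong`. -/

set_option autoImplicit false

namespace Pool.H59.UO

open Complex MeasureTheory Pool.H61.Rh Pool.H47.Kc

/-- the calibrations -/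
structure Cals (ν : ℝ) : Prop where
  pos : 0 < ν
  ex : ∃ (W1 Wm Wp : ℝ × ℂ × ℂ → ℝ) (W0 : ℂ × ℂ → ℝ) (k2 κ μm μp ε : ℝ), Cal1 k2 κ W0 ∧
    κ ≤ 413 / 65536 ∧ 9 / 64 ≤ k2 ∧ Cal 0 0 (Nc ν) W1 ∧ Cal μm ε (Nc ν) Wm ∧
    Cal μp ε (Nc ν) Wp ∧ μm ≤ -(226 / 10000) ∧ 1147 / 1000 ≤ μp ∧ |ε| ≤ 1 / 1000

private lemma Tgt_Ts : 3 * Ts ≤ 312606 / 100000 := by
  rw [Ts_eq]
  have h32 : Real.sqrt 32 = 4 * Real.sqrt 2 := by
    rw [show (32 : ℝ) = 4 ^ 2 * 2 by norm_num, Real.sqrt_mul (by norm_num),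
      Real.sqrt_sq (by norm_num)]
  have h8 : Real.sqrt 8 = 2 * Real.sqrt 2 := by
    rw [show (8 : ℝ) = 2 ^ 2 * 2 by norm_num, Real.sqrt_mul (by norm_num),
      Real.sqrt_sq (by norm_num)]
  rw [h32, h8]
  have h2 := s3_lt
  have h2p := s3_pos
  have h3 := Real.log_two_gt_d9
  have h5 : (14142135 / 10000000 : ℝ) < Real.sqrt 2 := by
    rw [Real.lt_sqrt (by norm_num)]; norm_num
  have h6 : Real.sqrt 2 < (14142136 / 10000000 : ℝ) := by
    rw [Real.sqrt_lt' (by norm_num)]; norm_num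
  generalize Real.sqrt 2 = r at *
  generalize Real.log 2 = L at *
  have hD : 0 < 2 * r - 1 := by linarith
  rw [← mul_div_assoc, div_le_iff₀ hD]
  have hN : 8 - 4 * r - L ≤ 8 - 4 * (14142135 / 10000000) - 6931471803 / 10000000000 := by
    norm_num at h3 h5 ⊢
    linarith
  have h7 : 2 * s3 * (8 - 4 * r - L) ≤
      2 * s3 * (8 - 4 * (14142135 / 10000000) - 6931471803 / 10000000000) :=
    mul_le_mul_of_nonneg_left hN (by linarith)
  norm_num at h2 h5 h7 ⊢
  linarith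

/-- the estimate of the difference, for a calibration `l μ, l ε` and `oRs - R = l δ` -/
private lemma Tgt_step {T R μ ε l δ : ℝ} {a b y : ℝ → ℂ} {φ σ ms : ℝ → ℝ} {Bs Bs1 : ℝ → ℂ}
    {N : ℝ → ℂ → ℂ → ℝ} {W1 W : ℝ × ℂ × ℂ → ℝ}
    (h : RS1 T R a b y) (c : Clk T a b y φ σ) (r : Ref ms Bs Bs1)
    (h1 : Cal 0 0 N W1) (h2 : Cal μ ε N W) (hl : 0 ≤ l) (hl' : l ≤ 1) (he : oRs - R = l * δ) :
    Real.pi / 3 * (l ^ 2 * (-(μ * δ) - 6 * δ ^ 2 - ε ^ 2 / 4)) ≤ T - Ts := by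
  have w := Cal.comb h1 h2 hl hl'
  have i1 := area_ineq (μ := (1 - l) * 0 + l * μ) h c r
  have i2 := cal_integral h c r w
  rw [he] at i1
  nlinarith

private lemma Tgt_fs_turn {u : ℂ} (hu : normSq u = 1) (y v : ℂ) :
    fs (u * y) (u * v) = fs y v := by
  have h1 : dt (u * y) (u * v) = normSq u * dt y v := by
    simp only [dt, mul_re, mul_im, normSq_apply]; ring
  unfold fs
  rw [h1, map_mul, hu, one_mul, one_mul]

private lemma Tgt_uu_nsq (k : ℕ) : normSq (uu 1 ^ k) = 1 := by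
  rw [map_pow, uu_one, map_pow, normSq_ze, one_pow, one_pow]

theorem tight {ν : ℝ} (hC : Cals ν) {a b y : ℝ → ℂ} (h : RS Ts a b y) {ms : ℝ → ℝ}
    {Bs Bs1 : ℝ → ℂ} (r : Ref ms Bs Bs1) :
    ∃ (a' b' : ℝ → ℂ) (φ σ : ℝ → ℝ), RS Ts a' b' y ∧ Clk Ts a' b' y φ σ ∧
      ∀ k : ℕ, k < 4 → ∀ s : ℝ, |s| ≤ Real.pi / 24 →
        uu 1 ^ k * y (σ (s + k * (Real.pi / 12) - Real.pi / 2)) = oy (ms s) ∧
        fq (a' (σ (s + k * (Real.pi / 12) - Real.pi / 2)))
          (b' (σ (s + k * (Real.pi / 12) - Real.pi / 2)))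
          (y (σ (s + k * (Real.pi / 12) - Real.pi / 2))) = fs (oy (ms s)) (ov (ms s)) := by
  have hν := hC.pos
  obtain ⟨W1, Wm, Wp, W0, k2, κ, μm, μp, ε, h0, hκ, hk, h1, hm, hp, hμm, hμp, hε⟩ := hC.ex
  obtain ⟨T, hTT⟩ : ∃ T : ℝ, T = Ts := ⟨Ts, rfl⟩
  have hT : T ≤ Ts := hTT.le
  rw [← hTT] at h ⊢
  obtain ⟨hT1, hT2⟩ := Ts_bounds
  obtain ⟨R, a', b', hR⟩ := h.rs1 (by linarith)
  obtain ⟨φ, σ, c⟩ := hR.rs.clock (by linarith)
  have hk0 : 0 < k2 := by linarith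
  have hml := hR.mode_lower2 c hk0 h0
  have hpi := Real.pi_pos
  have hpi6 := Real.pi_gt_d20
  have hε2 : ε ^ 2 ≤ (1 / 1000) ^ 2 := sq_le_sq' (by linarith [(abs_le.1 hε).1]) (abs_le.1 hε).2
  have hTs := Tgt_Ts
  have hq : 3 * T / Real.pi - 1 ≤ -(4944 / 1000000) := by
    have : 3 * T / Real.pi ≤ 995056 / 1000000 := by
      rw [div_le_iff₀ hpi]
      norm_num at hpi6 ⊢
      linarith
    norm_num at this ⊢
    linarith
  generalize 3 * T / Real.pi - 1 = x at hml hq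
  have hxk : x + κ ≤ 13579 / 10000000 := by
    norm_num at hκ hq ⊢
    linarith
  have hdiv : (x + κ) / (9 * k2) ≤ 10730 / 10000000 := by
    rw [div_le_iff₀ (by linarith)]
    norm_num at hk hxk ⊢
    linarith
  have hRl : 254 / 10000 ≤ R := by
    by_contra hc
    push Not at hc
    have := hR.Rnn
    have h6 : R ^ 2 ≤ (254 / 10000) ^ 2 := pow_le_pow_left₀ this hc.le 2
    norm_num at h6 hdiv hq
    linarith
  have ho1 := oRs_le2
  have ho2 := oRs_ge
  have hR2 := hR.Rle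
  -- R = oRs
  have hRo : R = oRs := by
    rcases le_or_gt 0 (oRs - R) with he | he
    · have key := Tgt_step (l := (oRs - R) / (375 / 100000)) (δ := 375 / 100000) hR c r h1 hm
        (by positivity) (by rw [div_le_one (by norm_num)]; linarith) (by ring)
      have hpos : 0 < -(μm * (375 / 100000)) - 6 * (375 / 100000) ^ 2 - ε ^ 2 / 4 := by
        norm_num at hε2 ⊢
        linarith
      have h2 : ((oRs - R) / (375 / 100000)) ^ 2 = 0 := by
        have h3 : 0 ≤ ((oRs - R) / (375 / 100000)) ^ 2 := sq_nonneg _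
        by_contra hne
        have h4 : 0 < ((oRs - R) / (375 / 100000)) ^ 2 := lt_of_le_of_ne h3 (Ne.symm hne)
        have h5 : 0 < Real.pi / 3 * (((oRs - R) / (375 / 100000)) ^ 2 *
            (-(μm * (375 / 100000)) - 6 * (375 / 100000) ^ 2 - ε ^ 2 / 4)) := by positivity
        linarith
      have h3 : (oRs - R) / (375 / 100000) = 0 := by simpa using h2
      have h4 : oRs - R = 0 := by
        rw [div_eq_zero_iff] at h3
        rcases h3 with h3 | h3
        · exact h3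
        · norm_num at h3
      linarith
    · exfalso
      have key := Tgt_step (l := -(oRs - R) / (191 / 1000)) (δ := -(191 / 1000)) hR c r h1 hp
        (by have : 0 ≤ -(oRs - R) := by linarith
            positivity) (by rw [div_le_one (by norm_num)]; linarith) (by ring)
      have hpos : 0 < -(μp * -(191 / 1000)) - 6 * (-(191 / 1000)) ^ 2 - ε ^ 2 / 4 := by
        norm_num at hε2 ⊢
        linarith
      have h4 : 0 < (-(oRs - R) / (191 / 1000)) ^ 2 := by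
        have : 0 < -(oRs - R) / (191 / 1000) := div_pos (by linarith) (by norm_num)
        positivity
      have h5 : 0 < Real.pi / 3 * ((-(oRs - R) / (191 / 1000)) ^ 2 *
          (-(μp * -(191 / 1000)) - 6 * (-(191 / 1000)) ^ 2 - ε ^ 2 / 4)) := by positivity
      linarith
  subst hRo
  have hI : ∫ s in (0 : ℝ)..(Real.pi / 3), Lam 0 s (Bc a' b' σ s) (Bc1 a' b' y σ s) (Bs s)
      (Bs1 s) ≤ 0 := by
    have i1 := area_ineq (μ := 0) hR c r
    rw [sub_self] at i1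
    linarith
  refine ⟨a', b', φ, σ, hR.rs, c, fun k hk s hs => ?_⟩
  obtain ⟨e1, e2⟩ := cal_strong hR c r h1 hν hI k hk s hs
  refine ⟨e1, ?_⟩
  rw [fq_eq_fs _ (hR.rs.hn _), ← e1, ← e2, Tgt_fs_turn (Tgt_uu_nsq k)]

/-- the calibrations from the inequalities in the zones -/
theorem cals_of_zones
    (hq : ∀ t : ℝ, |t| ≤ 1 → TmIn qA t (fun i => Pool.H47.Kc.get 0 (l1 μA (m1 * ((1 + t) / 2))) i))
    (hA : ZH dA) (hB : ZH dB) : Cals (1 / 8192) := by
  have hcA := HCal_of_zones (ν := 1 / 8192) dA_junc (fun m _ _ => resx_lin dA_isL m)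
    (fun m _ _ => resu_lin dA_isL m) hA
  have hcB := HCal_of_zones (ν := 1 / 8192) dB_junc (fun m _ _ => resx_lin dB_isL m)
    (fun m _ _ => resu_lin dB_isL m) hB
  have hm1 : 0 < m1 := by have := m1_bounds.1; linarith
  have hl : ∀ μ : ℝ, μ ^ 2 ≤ 2 → ∀ m, 0 ≤ m → m ≤ m1 →
      μ ^ 2 * (normSq (lx m) + normSq (lu m)) ≤ (1 / 1000) ^ 2 * (1 / 8192) := by
    intro μ hμ m h0 h1
    have e : m1 * ((1 + (2 * (m / m1) - 1)) / 2) = m := by field_simp; ring
    have ht : |2 * (m / m1) - 1| ≤ 1 := by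
      have a1 : 0 ≤ m / m1 := div_nonneg h0 hm1.le
      have a2 : m / m1 ≤ 1 := by rw [div_le_one hm1]; exact h1
      rw [abs_le]; constructor <;> linarith
    have h := res_small ht (hq _ ht) hμ
    rw [e] at h
    exact h
  have cA := hcA.cal (ε := 1 / 1000) (by norm_num) (by norm_num)
    (hl μA (by unfold μA; norm_num))
  have cB := hcB.cal (ε := 1 / 1000) (by norm_num) (by norm_num)
    (hl μB (by unfold μB; norm_num))
  obtain ⟨W, c0⟩ := hcA.zero hcB (by norm_num) (by unfold μA; norm_num) (by unfold μB; norm_num)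
  exact ⟨by norm_num, W, _, _, _, _, _, _, _, _, coarse, le_rfl, le_rfl, c0, cA, cB,
    by unfold μA; norm_num, by unfold μB; norm_num, by rw [abs_of_pos (by norm_num)]⟩

end Pool.H59.UO
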