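import Pool.Agent.H59.UO.Df
import Pool.Agent.H59.UO.Tgt
import Pool.Agent.H61.Rz.Rein

/-! # CalZ: the calibrations exist -/

set_option autoImplicit false

namespace Pool.H59.UO

open Pool.H61.Rh

theorem cals : Cals (1 / 8192) := cals_of_zones hqA (zhA ytOk) (zhB ytOk)

theorem rsBound : RSBound cR := rsBound_cR

end Pool.H59.UO
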