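import Pool.Agent.H59.UO.Df
import Pool.Agent.H61.Rh.G6

/-! # CfI: configurations inscribed in the unit ball of a strictly convex norm

Copy of `Pool/Agent/H61/Rh/G6.lean`; the conclusion keeps the points of the boundary. -/

set_option autoImplicit false

namespace Pool.H59.UO

open Complex Finset MeasureTheory Pool.H61.Rh

private lemma CfI_hx_sub (a b x y : ℂ) : hx a b (x - y) = hx a b x - hx a b y := by
  simp only [hx, map_sub]; ring

/-- the partition of `[t₀, t₀ + π]` -/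
private noncomputable def CfI_part (N : ℕ) (σ : ℝ → ℝ) (t : ℕ → ℝ) (j : ℕ) : ℝ :=
  if j < N then t j else if j < 2 * N then σ (t (j - N)) else σ (σ (t (j - 2 * N)))

private lemma CfI_part1 {N : ℕ} (hN : 0 < N) {σ : ℝ → ℝ} {t : ℕ → ℝ} (h : t N = σ (t 0))
    {i : ℕ} (hi : i ≤ N) : CfI_part N σ t i = t i := by
  unfold CfI_part
  rcases hi.lt_or_eq with hi | hi
  · rw [if_pos hi]
  · subst hi
    rw [if_neg (lt_irrefl _), if_pos (by omega), Nat.sub_self, h]

private lemma CfI_part2 {N : ℕ} (hN : 0 < N) {σ : ℝ → ℝ} {t : ℕ → ℝ} (h : t N = σ (t 0))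
    {i : ℕ} (hi : i ≤ N) : CfI_part N σ t (N + i) = σ (t i) := by
  unfold CfI_part
  rw [if_neg (by omega)]
  rcases hi.lt_or_eq with hi | hi
  · rw [if_pos (by omega), show N + i - N = i by omega]
  · subst hi
    rw [if_neg (by omega), show i + i - 2 * i = 0 by omega, h]

private lemma CfI_part3 {N : ℕ} {σ : ℝ → ℝ} {t : ℕ → ℝ}
    (i : ℕ) : CfI_part N σ t (N + N + i) = σ (σ (t i)) := by
  unfold CfI_part
  rw [if_neg (by omega), if_neg (by omega), show N + N + i - 2 * N = i by omega]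

private lemma CfI_part_mono {N : ℕ} (hN : 0 < N) {σ : ℝ → ℝ} (hσ : Monotone σ) {t : ℕ → ℝ}
    (ht : Monotone t) (h : t N = σ (t 0)) : Monotone (CfI_part N σ t) := by
  refine monotone_nat_of_le_succ fun j => ?_
  rcases lt_or_ge j N with hj | hj
  · rw [CfI_part1 hN h hj.le, CfI_part1 hN h (by omega : j + 1 ≤ N)]
    exact ht (Nat.le_succ j)
  · rcases lt_or_ge j (N + N) with hj2 | hj2
    · obtain ⟨i, rfl⟩ := Nat.exists_eq_add_of_le hj
      rw [CfI_part2 hN h (by omega : i ≤ N), add_assoc, CfI_part2 hN h (by omega : i + 1 ≤ N)]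
      exact hσ (ht (Nat.le_succ i))
    · obtain ⟨i, rfl⟩ := Nat.exists_eq_add_of_le hj2
      rw [CfI_part3 i, add_assoc (N + N) i 1, CfI_part3 (i + 1)]
      exact hσ (hσ (ht (Nat.le_succ i)))

private lemma CfI_part_sum {N : ℕ} (hN : 0 < N) {σ : ℝ → ℝ} {t : ℕ → ℝ}
    (h : t N = σ (t 0)) (f : ℝ → ℝ → ℝ) :
    ∑ j ∈ Finset.range (N + N + N), f (CfI_part N σ t j) (CfI_part N σ t (j + 1)) =
      ∑ i ∈ Finset.range N, (f (t i) (t (i + 1)) + f (σ (t i)) (σ (t (i + 1))) +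
        f (σ (σ (t i))) (σ (σ (t (i + 1))))) := by
  rw [Finset.sum_range_add, Finset.sum_range_add, Finset.sum_add_distrib,
    Finset.sum_add_distrib]
  congr 1
  · congr 1
    · refine Finset.sum_congr rfl fun i hi => ?_
      have hi' := Finset.mem_range.mp hi
      rw [CfI_part1 hN h hi'.le, CfI_part1 hN h (by omega : i + 1 ≤ N)]
    · refine Finset.sum_congr rfl fun i hi => ?_
      have hi' := Finset.mem_range.mp hi
      rw [CfI_part2 hN h hi'.le, add_assoc, CfI_part2 hN h (by omega : i + 1 ≤ N)]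
  · refine Finset.sum_congr rfl fun i _ => ?_
    rw [CfI_part3 i, add_assoc (N + N) i 1, CfI_part3 (i + 1)]

theorem SN.core_cfg' {ν : ℂ → ℝ} (h : SN ν) :
    ∃ p q a b : ℂ, Ins ν p q ∧ hx a b p = 1 ∧ hx a b q = ze ∧
      (∀ x y, cr (hx a b x) (hx a b y) = s3 / 2 / cr p q * cr x y) ∧
      ∀ N : ℕ, 0 < N → ∃ x y : ℕ → ℂ, (∀ i, Ins ν (x i) (y i)) ∧
        Cfg N (fun i => hx a b (x i)) (fun i => hx a b (y i)) ∧
        Ws N (fun i => hx a b (x i)) (fun i => hx a b (y i)) ≤ s3 / 2 / cr p q * Vol ν := by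
  obtain ⟨σ, hσ⟩ := h.exists_nv
  obtain ⟨t0, ht0⟩ := h.exists_t0 hσ
  have hpq : 0 < cr (Gp ν t0) (Gp ν (σ t0)) := h.Gp_cr t0 (σ t0) (hσ.gt t0) (hσ.lt t0)
  obtain ⟨a, b, hp, hq, hL⟩ := exists_L (Gp ν t0) (Gp ν (σ t0)) hpq
  refine ⟨Gp ν t0, Gp ν (σ t0), a, b, ⟨h.Gp_norm t0, h.Gp_norm (σ t0), hσ.one t0, hpq⟩, hp, hq, hL, ?_⟩
  set k : ℝ := s3 / 2 / cr (Gp ν t0) (Gp ν (σ t0)) with hk
  have hk0 : 0 < k := div_pos (div_pos s3_pos two_pos) hpq
  intro N hN
  obtain ⟨t, htm, ht00, htN, hprog⟩ := h.exists_params hσ t0 a b hp hq k hk0 hL N hN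
  have hσm : Monotone σ := hσ.mono.monotone
  -- the hexagon relation
  have hr : ∀ x, hx a b (Gp ν (σ x)) - hx a b (Gp ν x) = hx a b (Gp ν (σ (σ x))) := by
    intro x
    rw [hσ.hex x, CfI_hx_sub]
  -- bounds for the parameters
  have hlo : ∀ i, t0 ≤ t i := fun i => by rw [← ht00]; exact htm (Nat.zero_le i)
  have hhi : ∀ i, i ≤ N → t i ≤ σ t0 := fun i hi => by rw [← htN]; exact htm hi
  have hcube := hσ.cube t0
  have hg1 : σ t0 ≤ σ (σ t0) := (hσ.gt (σ t0)).le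
  have hg2 : σ (σ t0) ≤ σ (σ (σ t0)) := (hσ.gt (σ (σ t0))).le
  have hslo : ∀ i, σ t0 ≤ σ (t i) := fun i => hσm (hlo i)
  have hshi : ∀ i, i ≤ N → σ (t i) ≤ σ (σ t0) := fun i hi => hσm (hhi i hi)
  have hsslo : ∀ i, σ (σ t0) ≤ σ (σ (t i)) := fun i => hσm (hslo i)
  have hsshi : ∀ i, i ≤ N → σ (σ (t i)) ≤ t0 + Real.pi := fun i hi => by
    rw [← hcube]; exact hσm (hshi i hi)
  have hg0 : t0 ≤ σ t0 := (hσ.gt t0).le
  -- chords
  have hch : ∀ s t u v : ℝ, s ≤ t → t ≤ u → u ≤ v → v ≤ s + Real.pi →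
      0 ≤ cr (hx a b (Gp ν t) - hx a b (Gp ν s)) (hx a b (Gp ν v) - hx a b (Gp ν u)) := by
    intro s t u v h1 h2 h3 h4
    rw [← CfI_hx_sub, ← CfI_hx_sub, hL]
    exact mul_nonneg hk0.le (h.chords s t u v h1 h2 h3 h4)
  have hch' : ∀ τ : ℕ → ℝ, Monotone τ → (∀ i j, i ≤ N → j ≤ N → τ j ≤ τ i + Real.pi) →
      ∀ i j, i ≤ j → j < N →
      0 ≤ cr (hx a b (Gp ν (τ (i + 1))) - hx a b (Gp ν (τ i)))
        (hx a b (Gp ν (τ (j + 1))) - hx a b (Gp ν (τ j))) := by
    intro τ hτ hb i j hij hj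
    rcases hij.lt_or_eq with hij | hij
    · exact hch _ _ _ _ (hτ (Nat.le_succ i)) (hτ hij) (hτ (Nat.le_succ j))
        (hb i (j + 1) (by omega) (by omega))
    · subst hij
      rw [cr_self]
  have hr' : ∀ i, (hx a b (Gp ν (σ (t (i + 1)))) - hx a b (Gp ν (σ (t i)))) -
      (hx a b (Gp ν (t (i + 1))) - hx a b (Gp ν (t i))) =
      hx a b (Gp ν (σ (σ (t (i + 1))))) - hx a b (Gp ν (σ (σ (t i)))) := by
    intro i
    rw [← hr, ← hr]
    ring
  refine ⟨fun i => Gp ν (t i), fun i => Gp ν (σ (t i)), fun i => ⟨h.Gp_norm _, h.Gp_norm _,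
    hσ.one _, h.Gp_cr _ _ (hσ.gt _) (hσ.lt _)⟩, ?_, ?_⟩
  · refine ⟨?_, ?_, ?_, ?_, hprog, ?_, ?_, ?_, ?_, ?_, ?_, ?_⟩
    · show hx a b (Gp ν (t 0)) = 1
      rw [ht00, hp]
    · show hx a b (Gp ν (σ (t 0))) = ze
      rw [ht00, hq]
    · show hx a b (Gp ν (t N)) = ze
      rw [htN, hq]
    · show hx a b (Gp ν (σ (t N))) = ze - 1
      rw [htN, ← hr, hq, hp]
    · -- cpp
      intro i j hij hj
      refine hch' t htm (fun i j _ hj => ?_) i j hij hj
      have := hhi j hj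
      have := hlo i
      linarith
    · -- cqq
      intro i j hij hj
      refine hch' (fun i => σ (t i)) (hσm.comp htm) (fun i j _ hj => ?_) i j hij hj
      have := hshi j hj
      have := hslo i
      show σ (t j) ≤ σ (t i) + Real.pi
      linarith
    · -- crr
      intro i j hij hj
      show 0 ≤ cr ((hx a b (Gp ν (σ (t (i + 1)))) - hx a b (Gp ν (σ (t i)))) -
        (hx a b (Gp ν (t (i + 1))) - hx a b (Gp ν (t i))))
        ((hx a b (Gp ν (σ (t (j + 1)))) - hx a b (Gp ν (σ (t j)))) -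
        (hx a b (Gp ν (t (j + 1))) - hx a b (Gp ν (t j))))
      rw [hr', hr']
      refine hch' (fun i => σ (σ (t i))) (hσm.comp (hσm.comp htm)) (fun i j _ hj => ?_) i j hij hj
      have := hsshi j hj
      have := hsslo i
      show σ (σ (t j)) ≤ σ (σ (t i)) + Real.pi
      linarith
    · -- cpq
      intro i j hi hj
      refine hch _ _ _ _ (htm (Nat.le_succ i)) ?_ (hσm (htm (Nat.le_succ j))) ?_
      · exact (hhi (i + 1) hi).trans (hslo j)
      · have := hshi (j + 1) hj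
        have := hlo i
        linarith
    · -- cpr
      intro i j hi hj
      show 0 ≤ cr (hx a b (Gp ν (t (i + 1))) - hx a b (Gp ν (t i)))
        ((hx a b (Gp ν (σ (t (j + 1)))) - hx a b (Gp ν (σ (t j)))) -
        (hx a b (Gp ν (t (j + 1))) - hx a b (Gp ν (t j))))
      rw [hr']
      refine hch _ _ _ _ (htm (Nat.le_succ i)) ?_ (hσm (hσm (htm (Nat.le_succ j)))) ?_
      · exact ((hhi (i + 1) hi).trans hg1).trans (hsslo j)
      · have := hsshi (j + 1) hj
        have := hlo i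
        linarith
    · -- cqr
      intro i j hi hj
      show 0 ≤ cr (hx a b (Gp ν (σ (t (i + 1)))) - hx a b (Gp ν (σ (t i))))
        ((hx a b (Gp ν (σ (t (j + 1)))) - hx a b (Gp ν (σ (t j)))) -
        (hx a b (Gp ν (t (j + 1))) - hx a b (Gp ν (t j))))
      rw [hr']
      refine hch _ _ _ _ (hσm (htm (Nat.le_succ i))) ?_ (hσm (hσm (htm (Nat.le_succ j)))) ?_
      · exact (hshi (i + 1) hi).trans (hsslo j)
      · have := hsshi (j + 1) hj
        have := hslo i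
        linarith
    · -- det
      intro i _
      show s3 / 2 ≤ cr (hx a b (Gp ν (t i))) (hx a b (Gp ν (σ (t i))))
      rw [hL]
      have h1 := mul_le_mul_of_nonneg_left (ht0 (t i)) hk0.le
      have h2 : k * cr (Gp ν t0) (Gp ν (σ t0)) = s3 / 2 := by
        rw [hk]; field_simp
      linarith
  · -- the area
    have htN' : t N = σ (t 0) := by rw [htN, ht00]
    have hmono := CfI_part_mono hN hσm htm htN'
    have hend : CfI_part N σ t (N + N + N) = CfI_part N σ t 0 + Real.pi := by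
      rw [CfI_part3 N, CfI_part1 hN htN' (Nat.zero_le N), htN', hσ.cube]
    have hle := h.poly_le (N + N + N) (CfI_part N σ t) hmono hend
    rw [CfI_part_sum hN htN' (fun x y => cr (Gp ν x) (Gp ν y))] at hle
    have hW : Ws N (fun i => hx a b (Gp ν (t i))) (fun i => hx a b (Gp ν (σ (t i)))) =
        k * ∑ i ∈ Finset.range N, (cr (Gp ν (t i)) (Gp ν (t (i + 1))) +
          cr (Gp ν (σ (t i))) (Gp ν (σ (t (i + 1)))) +
          cr (Gp ν (σ (σ (t i)))) (Gp ν (σ (σ (t (i + 1)))))) := by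
      unfold Ws
      rw [Finset.mul_sum]
      refine Finset.sum_congr rfl fun i _ => ?_
      rw [hr, hr, hL, hL, hL]
      ring
    rw [hW]
    exact mul_le_mul_of_nonneg_left hle hk0.le

end Pool.H59.UO
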