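import Pool.Agent.H59.UO.Cst
import Pool.Agent.H59.UO.CfI

/-! # CfL: balanced configurations inscribed in the unit ball of a minimal norm

`ν_k z = ν z + ‖z‖ / (k+1)` is strictly convex (`Nm.sn`); `SN.core_cfg'` gives `p_k, q_k, a_k, b_k`
and for every `N` sequences `x_k, y_k`.  Take limits along `Filter.hyperfilter ℕ` (everything is in
the compact set `{ν ≤ 1}`): `p_k → p`, `q_k → q`, `Ins ν p q` (`Nm.crp`), then `a_k → a`, `b_k → b`
(they are given by the linear system `hx a b p = 1`, `hx a b q = ze`: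
`a = (conj q - ze conj p) / D`, `b = (ze p - q) / D`, `D = p conj q - q conj p = -2 i cr p q`), and for fixed `N`
and every `i`: `x_k i → x i`, `y_k i → y i`, `Ins ν (x i) (y i)`.  All conditions of `Cfg` are
closed, `Ws ≤ s3/2 / cr p q * Vol ν`.  By `Mnl.const` all the determinants `cr (x i) (y i)` and
`cr p q` are `Vol ν / (4 cR)` (`0 < cR` because `Vol ν > 0`), so `cr (P i) (Q i) = s3 / 2` and
`s3/2 / cr p q * Vol ν = 2 s3 cR`. -/

set_option autoImplicit false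

namespace Pool.H59.UO

open Complex MeasureTheory Pool.H61.Rh

section

open Filter Topology

private noncomputable def CfL_e (k : ℕ) : ℝ := 1 / ((k : ℝ) + 1)

private lemma CfL_e_pos (k : ℕ) : 0 < CfL_e k := by unfold CfL_e; positivity

private lemma CfL_e_lim : Tendsto CfL_e (hyperfilter ℕ : Filter ℕ) (𝓝 0) := by
  have : Tendsto CfL_e atTop (𝓝 0) := tendsto_one_div_add_atTop_nhds_zero_nat
  exact this.mono_left Nat.hyperfilter_le_atTop

private lemma CfL_lim {ν : ℂ → ℝ} (h : Nm ν) (z : ℕ → ℂ)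
    (hz : ∀ k, ν (z k) + CfL_e k * ‖z k‖ = 1) :
    ∃ w, Tendsto z (hyperfilter ℕ : Filter ℕ) (𝓝 w) := by
  have h0 : ∀ k, ν (z k) ≤ 1 := fun k => by
    have := mul_nonneg (CfL_e_pos k).le (norm_nonneg (z k))
    linarith [hz k]
  have h1 : {z : ℂ | ν z ≤ 1} ∈ (hyperfilter ℕ).map z := by
    rw [Ultrafilter.mem_map]
    exact Filter.univ_mem' h0
  obtain ⟨w, _, hw⟩ := h.compact.ultrafilter_le_nhds' _ h1
  exact ⟨w, hw⟩

private lemma CfL_one {ν : ℂ → ℝ} (h : Nm ν) {z : ℕ → ℂ} {w : ℂ}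
    (hz : ∀ k, ν (z k) + CfL_e k * ‖z k‖ = 1)
    (hw : Tendsto z (hyperfilter ℕ : Filter ℕ) (𝓝 w)) : ν w = 1 := by
  have h1 : Tendsto (fun k => ν (z k) + CfL_e k * ‖z k‖) (hyperfilter ℕ : Filter ℕ)
      (𝓝 (ν w + 0 * ‖w‖)) :=
    ((h.continuous.tendsto w).comp hw).add (CfL_e_lim.mul hw.norm)
  have h2 : (fun k => ν (z k) + CfL_e k * ‖z k‖) = fun _ => (1 : ℝ) := funext hz
  rw [h2] at h1
  have := tendsto_nhds_unique h1 tendsto_const_nhds
  linarith

private lemma CfL_cr {z z' : ℕ → ℂ} {w w' : ℂ}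
    (hw : Tendsto z (hyperfilter ℕ : Filter ℕ) (𝓝 w))
    (hw' : Tendsto z' (hyperfilter ℕ : Filter ℕ) (𝓝 w')) :
    Tendsto (fun k => cr (z k) (z' k)) (hyperfilter ℕ : Filter ℕ) (𝓝 (cr w w')) :=
  (continuous_cr.tendsto (w, w')).comp (hw.prodMk_nhds hw')

private lemma CfL_ins {ν : ℂ → ℝ} (h : Nm ν) {z z' : ℕ → ℂ} {w w' : ℂ}
    (hz : ∀ k, Ins (fun x => ν x + CfL_e k * ‖x‖) (z k) (z' k))
    (hw : Tendsto z (hyperfilter ℕ : Filter ℕ) (𝓝 w))
    (hw' : Tendsto z' (hyperfilter ℕ : Filter ℕ) (𝓝 w')) : Ins ν w w' := by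
  have h1 := CfL_one h (fun k => (hz k).p1) hw
  have h2 := CfL_one h (fun k => (hz k).q1) hw'
  have h3 : ν (w' - w) = 1 := CfL_one h (z := fun k => z' k - z k) (fun k => (hz k).r1) (hw'.sub hw)
  have h4 : 0 ≤ cr w w' := ge_of_tendsto (CfL_cr hw hw') (Eventually.of_forall fun k => (hz k).cr0.le)
  exact ⟨h1, h2, h3, lt_of_le_of_ne h4 (h.crp h1 h2 h3).symm⟩

private lemma CfL_hx {a b z : ℕ → ℂ} {a' b' z' : ℂ}
    (ha : Tendsto a (hyperfilter ℕ : Filter ℕ) (𝓝 a'))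
    (hb : Tendsto b (hyperfilter ℕ : Filter ℕ) (𝓝 b'))
    (hz : Tendsto z (hyperfilter ℕ : Filter ℕ) (𝓝 z')) :
    Tendsto (fun k => hx (a k) (b k) (z k)) (hyperfilter ℕ : Filter ℕ) (𝓝 (hx a' b' z')) :=
  (ha.mul hz).add (hb.mul ((continuous_conj.tendsto z').comp hz))

private lemma CfL_nn {f : ℕ → ℝ} {x c : ℝ} (h : Tendsto f (hyperfilter ℕ : Filter ℕ) (𝓝 x))
    (hf : ∀ k, c ≤ f k) : c ≤ x := ge_of_tendsto h (Eventually.of_forall hf)

private lemma CfL_eq {X : Type*} [TopologicalSpace X] [T2Space X] {f : ℕ → X} {x c : X}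
    (h : Tendsto f (hyperfilter ℕ : Filter ℕ) (𝓝 x)) (hf : ∀ k, f k = c) : x = c := by
  have h2 : f = fun _ => c := funext hf
  rw [h2] at h
  exact tendsto_nhds_unique h tendsto_const_nhds

private lemma CfL_cfg {N : ℕ} {P Q : ℕ → ℕ → ℂ} {P' Q' : ℕ → ℂ}
    (hP : ∀ i, Tendsto (fun k => P k i) (hyperfilter ℕ : Filter ℕ) (𝓝 (P' i)))
    (hQ : ∀ i, Tendsto (fun k => Q k i) (hyperfilter ℕ : Filter ℕ) (𝓝 (Q' i)))
    (h : ∀ k, Cfg N (P k) (Q k)) : Cfg N P' Q' := by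
  have hp : ∀ i, Tendsto (fun k => P k (i + 1) - P k i) (hyperfilter ℕ : Filter ℕ)
    (𝓝 (P' (i + 1) - P' i)) := fun i => (hP (i + 1)).sub (hP i)
  have hq : ∀ i, Tendsto (fun k => Q k (i + 1) - Q k i) (hyperfilter ℕ : Filter ℕ)
    (𝓝 (Q' (i + 1) - Q' i)) := fun i => (hQ (i + 1)).sub (hQ i)
  have hr : ∀ i, Tendsto (fun k => (Q k (i + 1) - Q k i) - (P k (i + 1) - P k i))
    (hyperfilter ℕ : Filter ℕ) (𝓝 ((Q' (i + 1) - Q' i) - (P' (i + 1) - P' i))) :=
    fun i => (hq i).sub (hp i)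
  have hprc : Continuous fun x : ℂ × ℂ => pr x.1 x.2 := by unfold pr; fun_prop
  refine ⟨CfL_eq (hP 0) fun k => (h k).p0, CfL_eq (hQ 0) fun k => (h k).q0,
    CfL_eq (hP N) fun k => (h k).pN, CfL_eq (hQ N) fun k => (h k).qN, ?_, ?_, ?_, ?_, ?_, ?_, ?_, ?_⟩
  · intro i hi
    exact CfL_eq (f := fun k => pr (P k i) (Q k i))
      ((hprc.tendsto (P' i, Q' i)).comp ((hP i).prodMk_nhds (hQ i))) fun k => (h k).prog i hi
  · intro i j hij hj
    exact CfL_nn (CfL_cr (hp i) (hp j)) fun k => (h k).cpp i j hij hj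
  · intro i j hij hj
    exact CfL_nn (CfL_cr (hq i) (hq j)) fun k => (h k).cqq i j hij hj
  · intro i j hij hj
    exact CfL_nn (CfL_cr (hr i) (hr j)) fun k => (h k).crr i j hij hj
  · intro i j hi hj
    exact CfL_nn (CfL_cr (hp i) (hq j)) fun k => (h k).cpq i j hi hj
  · intro i j hi hj
    exact CfL_nn (CfL_cr (hp i) (hr j)) fun k => (h k).cpr i j hi hj
  · intro i j hi hj
    exact CfL_nn (CfL_cr (hq i) (hr j)) fun k => (h k).cqr i j hi hj
  · intro i hi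
    exact CfL_nn (CfL_cr (hP i) (hQ i)) fun k => (h k).det i hi

private lemma CfL_Ws {N : ℕ} {P Q : ℕ → ℕ → ℂ} {P' Q' : ℕ → ℂ}
    (hP : ∀ i, Tendsto (fun k => P k i) (hyperfilter ℕ : Filter ℕ) (𝓝 (P' i)))
    (hQ : ∀ i, Tendsto (fun k => Q k i) (hyperfilter ℕ : Filter ℕ) (𝓝 (Q' i))) :
    Tendsto (fun k => Ws N (P k) (Q k)) (hyperfilter ℕ : Filter ℕ) (𝓝 (Ws N P' Q')) := by
  unfold Ws
  refine tendsto_finsetSum _ fun i _ => ?_
  exact ((CfL_cr (hP i) (hP (i + 1))).add (CfL_cr (hQ i) (hQ (i + 1)))).add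
    (CfL_cr ((hQ i).sub (hP i)) ((hQ (i + 1)).sub (hP (i + 1))))

/-- the linear system for `a, b` -/
private lemma CfL_ab {p q a b : ℂ} (hpq : 0 < cr p q) (h1 : hx a b p = 1) (h2 : hx a b q = ze) :
    a = ((starRingEnd ℂ) q - ze * (starRingEnd ℂ) p) /
        (p * (starRingEnd ℂ) q - q * (starRingEnd ℂ) p) ∧
      b = (ze * p - q) / (p * (starRingEnd ℂ) q - q * (starRingEnd ℂ) p) := by
  have hD : p * (starRingEnd ℂ) q - q * (starRingEnd ℂ) p ≠ 0 := by
    intro h0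
    have h3 := congrArg Complex.im h0
    simp only [sub_im, mul_im, conj_re, conj_im, zero_im] at h3
    unfold cr at hpq
    linarith
  unfold hx at h1 h2
  constructor
  · rw [eq_div_iff hD]
    linear_combination (starRingEnd ℂ) q * h1 - (starRingEnd ℂ) p * h2
  · rw [eq_div_iff hD]
    linear_combination p * h2 - q * h1

private lemma CfL_D {p q : ℂ} (hpq : 0 < cr p q) :
    p * (starRingEnd ℂ) q - q * (starRingEnd ℂ) p ≠ 0 := by
  intro h0
  have h3 := congrArg Complex.im h0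
  simp only [sub_im, mul_im, conj_re, conj_im, zero_im] at h3
  unfold cr at hpq
  linarith

end

theorem Mnl.cfg (hc : cR ≤ 9025 / 10000) (H : RSBound cR) {ν : ℂ → ℝ} (h : Mnl ν) :
    ∃ a b : ℂ, 0 < normSq a - normSq b ∧ ∀ N : ℕ, 0 < N → ∃ P Q : ℕ → ℂ, Cfg N P Q ∧
      (∀ i ≤ N, cr (P i) (Q i) = s3 / 2) ∧
      (∀ i ≤ N, ∃ x y : ℂ, Ins ν x y ∧ P i = hx a b x ∧ Q i = hx a b y) ∧
      Ws N P Q ≤ 2 * s3 * cR := by
  classical
  have hk : ∀ k : ℕ, SN (fun z => ν z + CfL_e k * ‖z‖) := fun k => h.nm.sn (CfL_e_pos k)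
  choose p q a b hI hp hq hL hN using fun k => SN.core_cfg' (hk k)
  obtain ⟨p', hp'⟩ := CfL_lim h.nm p fun k => (hI k).p1
  obtain ⟨q', hq'⟩ := CfL_lim h.nm q fun k => (hI k).q1
  have hI' : Ins ν p' q' := CfL_ins h.nm hI hp' hq'
  have hcp : Filter.Tendsto (fun k => (starRingEnd ℂ) (p k)) (Filter.hyperfilter ℕ : Filter ℕ)
      (nhds ((starRingEnd ℂ) p')) := (continuous_conj.tendsto p').comp hp'
  have hcq : Filter.Tendsto (fun k => (starRingEnd ℂ) (q k)) (Filter.hyperfilter ℕ : Filter ℕ)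
      (nhds ((starRingEnd ℂ) q')) := (continuous_conj.tendsto q').comp hq'
  have hDl : Filter.Tendsto (fun k => p k * (starRingEnd ℂ) (q k) - q k * (starRingEnd ℂ) (p k))
      (Filter.hyperfilter ℕ : Filter ℕ)
      (nhds (p' * (starRingEnd ℂ) q' - q' * (starRingEnd ℂ) p')) :=
    (hp'.mul hcq).sub (hq'.mul hcp)
  obtain ⟨a', ha'⟩ : ∃ a', Filter.Tendsto a (Filter.hyperfilter ℕ : Filter ℕ) (nhds a') := by
    refine ⟨((starRingEnd ℂ) q' - ze * (starRingEnd ℂ) p') /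
      (p' * (starRingEnd ℂ) q' - q' * (starRingEnd ℂ) p'), ?_⟩
    have h1 : a = fun k => ((starRingEnd ℂ) (q k) - ze * (starRingEnd ℂ) (p k)) /
        (p k * (starRingEnd ℂ) (q k) - q k * (starRingEnd ℂ) (p k)) :=
      funext fun k => (CfL_ab (hI k).cr0 (hp k) (hq k)).1
    rw [h1]
    exact (hcq.sub (tendsto_const_nhds.mul hcp)).div hDl (CfL_D hI'.cr0)
  obtain ⟨b', hb'⟩ : ∃ b', Filter.Tendsto b (Filter.hyperfilter ℕ : Filter ℕ) (nhds b') := by
    refine ⟨(ze * p' - q') / (p' * (starRingEnd ℂ) q' - q' * (starRingEnd ℂ) p'), ?_⟩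
    have h1 : b = fun k => (ze * p k - q k) /
        (p k * (starRingEnd ℂ) (q k) - q k * (starRingEnd ℂ) (p k)) :=
      funext fun k => (CfL_ab (hI k).cr0 (hp k) (hq k)).2
    rw [h1]
    exact ((tendsto_const_nhds.mul hp').sub hq').div hDl (CfL_D hI'.cr0)
  have hP1 : hx a' b' p' = 1 := CfL_eq (CfL_hx ha' hb' hp') hp
  have hQ1 : hx a' b' q' = ze := CfL_eq (CfL_hx ha' hb' hq') hq
  have hdet : (normSq a' - normSq b') * cr p' q' = s3 / 2 := by
    rw [← cr_hx, hP1, hQ1, cr_one_ze]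
  have hdet0 : 0 < normSq a' - normSq b' := by
    have h1 : 0 < (normSq a' - normSq b') * cr p' q' := by
      rw [hdet]; exact half_pos s3_pos
    exact (mul_pos_iff_of_pos_right hI'.cr0).1 h1
  have hV := h.nm.vol_pos
  have hc1 := h.const hc H hI'
  have hcR : 0 < cR := by
    have h1 : 0 < cR * (4 * cr p' q') := by rw [hc1]; exact hV
    exact (mul_pos_iff_of_pos_right (by have := hI'.cr0; positivity)).1 h1
  refine ⟨a', b', hdet0, fun N hN0 => ?_⟩
  choose x y hxy hcfg hWs using fun k => hN k N hN0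
  have hx1 : ∀ i, ∃ w, Filter.Tendsto (fun k => x k i) (Filter.hyperfilter ℕ : Filter ℕ) (nhds w) :=
    fun i => CfL_lim h.nm (fun k => x k i) fun k => (hxy k i).p1
  have hy1 : ∀ i, ∃ w, Filter.Tendsto (fun k => y k i) (Filter.hyperfilter ℕ : Filter ℕ) (nhds w) :=
    fun i => CfL_lim h.nm (fun k => y k i) fun k => (hxy k i).q1
  choose x' hx' using hx1
  choose y' hy' using hy1
  have hI2 : ∀ i, Ins ν (x' i) (y' i) := fun i =>
    CfL_ins h.nm (z := fun k => x k i) (z' := fun k => y k i) (fun k => hxy k i) (hx' i) (hy' i)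
  have hPl : ∀ i, Filter.Tendsto (fun k => hx (a k) (b k) (x k i)) (Filter.hyperfilter ℕ : Filter ℕ)
      (nhds (hx a' b' (x' i))) := fun i => CfL_hx ha' hb' (hx' i)
  have hQl : ∀ i, Filter.Tendsto (fun k => hx (a k) (b k) (y k i)) (Filter.hyperfilter ℕ : Filter ℕ)
      (nhds (hx a' b' (y' i))) := fun i => CfL_hx ha' hb' (hy' i)
  have hCf := CfL_cfg (P := fun k i => hx (a k) (b k) (x k i))
    (Q := fun k i => hx (a k) (b k) (y k i)) hPl hQl hcfg
  have hcc : ∀ i, cr (x' i) (y' i) = cr p' q' := fun i => by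
    have h1 := h.const hc H (hI2 i)
    rw [← hc1] at h1
    have h2 := mul_left_cancel₀ hcR.ne' h1
    linarith
  refine ⟨fun i => hx a' b' (x' i), fun i => hx a' b' (y' i), hCf, fun i _ => ?_,
    fun i _ => ⟨x' i, y' i, hI2 i, rfl, rfl⟩, ?_⟩
  · show cr (hx a' b' (x' i)) (hx a' b' (y' i)) = s3 / 2
    rw [cr_hx, hcc i, hdet]
  · -- the area
    have hW := CfL_Ws (N := N) (P := fun k i => hx (a k) (b k) (x k i))
      (Q := fun k i => hx (a k) (b k) (y k i)) hPl hQl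
    have hR : Filter.Tendsto (fun k => s3 / 2 / cr (p k) (q k) * Vol ν)
        (Filter.hyperfilter ℕ : Filter ℕ) (nhds (s3 / 2 / cr p' q' * Vol ν)) :=
      (tendsto_const_nhds.div (CfL_cr hp' hq') hI'.cr0.ne').mul tendsto_const_nhds
    have hle : Ws N (fun i => hx a' b' (x' i)) (fun i => hx a' b' (y' i)) ≤
        s3 / 2 / cr p' q' * Vol ν := by
      refine le_of_tendsto_of_tendsto hW hR (Filter.Eventually.of_forall fun k => ?_)
      refine (hWs k).trans ?_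
      have h1 : Vol (fun z => ν z + CfL_e k * ‖z‖) ≤ Vol ν :=
        h.nm.vol_mono fun z => by
          have := mul_nonneg (CfL_e_pos k).le (norm_nonneg z)
          show ν z ≤ ν z + CfL_e k * ‖z‖
          linarith
      exact mul_le_mul_of_nonneg_left h1 (div_nonneg (half_pos s3_pos).le (hI k).cr0.le)
    have h3 : s3 / 2 / cr p' q' * Vol ν = 2 * s3 * cR := by
      rw [← hc1]
      have := hI'.cr0.ne'
      field_simp
      ring
    rw [h3] at hle
    exact hle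

end Pool.H59.UO
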