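import Pool.Agent.H59.UO.NmB

/-! # CrU: the determinant of an inscribed hexagon depends on its first vertex only

Suppose `cr p q < cr p q'`, `t = cr p q' / cr p q > 1`, `q' = s p + t q` (`s` real; `p, q` is a
basis).  If `s ≥ 0` put `β = 1/(t+s)`: `q = (1 - tβ)(q - p) + β q'`, the coefficients are `≥ 0` with
sum `(s+1)/(t+s) < 1`, so `ν q < 1`.  If `1 - t < s < 0` put `β = 1/t`: `q = β q' + (-s/t) p`, sum
`(1-s)/t < 1`.  If `s ≤ 1 - t < 0` put `β = 1/(1-s)`:
`q - p = (1 - βt) q + β (q' - p)`, sum `1 - (t-1) β < 1`, so `ν (q - p) < 1`. -/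

set_option autoImplicit false

namespace Pool.H59.UO

open Complex MeasureTheory Pool.H61.Rh

private lemma cru_comb {ν : ℂ → ℝ} (h : Nm ν) {u v : ℂ} (hu : ν u = 1) (hv : ν v = 1)
    {a b : ℝ} (ha : 0 ≤ a) (hb : 0 ≤ b) : ν ((a : ℂ) * u + (b : ℂ) * v) ≤ a + b := by
  refine (h.tri _ _).trans ?_
  rw [h.hom, h.hom, hu, hv, abs_of_nonneg ha, abs_of_nonneg hb, mul_one, mul_one]

private lemma cru_aux {ν : ℂ → ℝ} (h : Nm ν) {p q q' : ℂ} (h1 : Ins ν p q) (h2 : Ins ν p q') :
    cr p q' ≤ cr p q := by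
  by_contra hlt
  push Not at hlt
  have hc : 0 < cr p q := h1.cr0
  obtain ⟨t, ht⟩ : ∃ t : ℝ, t = cr p q' / cr p q := ⟨_, rfl⟩
  obtain ⟨s, hs⟩ : ∃ s : ℝ, s = cr q' q / cr p q := ⟨_, rfl⟩
  have ht1 : 1 < t := by rw [ht, one_lt_div hc]; exact hlt
  have hq' : q' = (s : ℂ) * p + (t : ℂ) * q := by
    have e1 : s * cr p q = cr q' q := by rw [hs]; field_simp
    have e2 : t * cr p q = cr p q' := by rw [ht]; field_simp
    have hne : cr p q ≠ 0 := ne_of_gt hc
    apply Complex.ext
    · apply mul_left_cancel₀ hne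
      simp only [Complex.add_re, Complex.mul_re, Complex.ofReal_re, Complex.ofReal_im, zero_mul,
        sub_zero]
      have : cr p q * (s * p.re + t * q.re) = cr q' q * p.re + cr p q' * q.re := by
        rw [← e1, ← e2]; ring
      rw [this]
      simp only [cr]
      ring
    · apply mul_left_cancel₀ hne
      simp only [Complex.add_im, Complex.mul_im, Complex.ofReal_re, Complex.ofReal_im, zero_mul,
        add_zero]
      have : cr p q * (s * p.im + t * q.im) = cr q' q * p.im + cr p q' * q.im := by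
        rw [← e1, ← e2]; ring
      rw [this]
      simp only [cr]
      ring
  rcases le_or_gt 0 s with hs0 | hs0
  · -- first case
    have hts : 0 < t + s := by linarith
    have hne : ((t + s : ℝ) : ℂ) ≠ 0 := by exact_mod_cast ne_of_gt hts
    have hid : q = ((s / (t + s) : ℝ) : ℂ) * (q - p) + ((1 / (t + s) : ℝ) : ℂ) * q' := by
      rw [hq']
      push_cast at hne ⊢
      field_simp
      ring
    have hle := cru_comb h h1.r1 h2.q1 (a := s / (t + s)) (b := 1 / (t + s)) (by positivity)
      (by positivity)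
    rw [← hid, h1.q1, ← add_div, le_div_iff₀ hts] at hle
    linarith
  · rcases lt_or_ge (1 - t) s with hs1 | hs1
    · -- second case
      have ht0 : 0 < t := by linarith
      have hne : ((t : ℝ) : ℂ) ≠ 0 := by exact_mod_cast ne_of_gt ht0
      have hid : q = ((1 / t : ℝ) : ℂ) * q' + ((-s / t : ℝ) : ℂ) * p := by
        rw [hq']
        push_cast
        field_simp
        ring
      have hle := cru_comb h h2.q1 h1.p1 (a := 1 / t) (b := -s / t) (by positivity)
        (div_nonneg (by linarith) ht0.le)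
      rw [← hid, h1.q1, ← add_div, le_div_iff₀ ht0] at hle
      linarith
    · -- third case
      have hs2 : 0 < 1 - s := by linarith
      have hne : ((1 - s : ℝ) : ℂ) ≠ 0 := by exact_mod_cast ne_of_gt hs2
      have hid : q - p = (((1 - s - t) / (1 - s) : ℝ) : ℂ) * q
          + ((1 / (1 - s) : ℝ) : ℂ) * (q' - p) := by
        rw [hq']
        push_cast at hne ⊢
        field_simp
        ring
      have hle := cru_comb h h1.q1 h2.r1 (a := (1 - s - t) / (1 - s)) (b := 1 / (1 - s))
        (div_nonneg (by linarith) hs2.le) (by positivity)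
      rw [← hid, h1.r1, ← add_div, le_div_iff₀ hs2] at hle
      linarith

theorem Nm.cr_eq {ν : ℂ → ℝ} (h : Nm ν) {p q q' : ℂ} (h1 : Ins ν p q) (h2 : Ins ν p q') :
    cr p q = cr p q' :=
  le_antisymm (cru_aux h h2 h1) (cru_aux h h1 h2)

end Pool.H59.UO
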