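import Pool.Agent.H59.UO.NmB

/-! # Sld: sliding a hexagon whose vertices are inner points of boundary segments

(1) If `ν p = 1`, `x ≠ 0`, `ν (p ± x) ≤ 1` then `x` is not parallel to `p` and
`|cr v x| ≤ |cr p x| ν v` for all `v` (otherwise `p` would be an interior point of the unit ball);
`ν (p + t x) = 1` for `|t| ≤ 1`.  (For the first part: Hahn-Banach, a functional `f` with `f p = 1`,
`|f| ≤ ν`; `f (p ± x) ≤ 1` gives `f x = 0`, so `f v = cr v x / cr p x`.)  Choose the signs with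
`cr p x > 0`, `cr q y > 0`, `cr r z > 0`, `r = q - p`.
(2) If `0 < cr p q` then `0 ≤ cr x y`: in the basis `p + q, q - p` the vector `x` has coordinates
`≥ 0, ≥ 0` (from `|cr (±q) x| ≤ cr p x`), `y` has coordinates `≤ 0, ≥ 0`.  The same for the pairs
`q, r` and `p, r` (`cr q r = cr p r = cr p q`).
(3) `x cr(y,z) + y cr(z,x) + z cr(x,y) = 0`.  If not all three are zero put `u = t cr(y,z) x`,
`w = t cr(x,z) y`, so `w - u = t cr(x,y) z`, with `t > 0` small; `cr u w = t² cr(y,z) cr(x,z) cr(x,y)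
≥ 0`.  If all are zero: `y, z` are multiples of `x`, take `u = w = t x`. -/

set_option autoImplicit false

namespace Pool.H59.UO

open Complex MeasureTheory Pool.H61.Rh

/-- support functional -/
private lemma Sld_supp {ν : ℂ → ℝ} (h : Nm ν) {p : ℂ} (hp : ν p = 1) :
    ∃ f : ℂ →ₗ[ℝ] ℝ, f p = 1 ∧ ∀ v, f v ≤ ν v := by
  have hp0 : p ≠ 0 := by
    rintro rfl
    rw [h.zero] at hp
    exact zero_ne_one hp
  obtain ⟨g, hg1, hg2⟩ := exists_extension_of_le_sublinear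
    (LinearPMap.mkSpanSingleton p (1 : ℝ) hp0) ν
    (fun c hc x => by rw [Complex.real_smul, h.hom, abs_of_pos hc]) h.tri
    (by
      rintro ⟨v, hv⟩
      obtain ⟨c, rfl⟩ := Submodule.mem_span_singleton.1 hv
      rw [LinearPMap.mkSpanSingleton'_apply]
      change c • (1 : ℝ) ≤ ν (c • p)
      rw [Complex.real_smul, h.hom, hp, smul_eq_mul, mul_one, mul_one]
      exact le_abs_self c)
  refine ⟨g, ?_, hg2⟩
  have h1 := hg1 ⟨p, Submodule.mem_span_singleton_self p⟩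
  exact h1.trans (LinearPMap.mkSpanSingleton_apply ℝ ℝ hp0 (1 : ℝ))

private lemma Sld_ge {ν : ℂ → ℝ} (h : Nm ν) {f : ℂ →ₗ[ℝ] ℝ} (hf : ∀ v, f v ≤ ν v) (v : ℂ) :
    - ν v ≤ f v := by
  have h1 := hf (-v)
  rw [map_neg, h.neg] at h1
  linarith

private lemma Sld_zero {ν : ℂ → ℝ} {f : ℂ →ₗ[ℝ] ℝ} (hf : ∀ v, f v ≤ ν v) {p x : ℂ}
    (hp : f p = 1) (h1 : ν (p + x) ≤ 1) (h2 : ν (p - x) ≤ 1) : f x = 0 := by
  have h3 := hf (p + x)
  have h4 := hf (p - x)
  rw [map_add, hp] at h3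
  rw [map_sub, hp] at h4
  linarith

private lemma Sld_one {ν : ℂ → ℝ} (h : Nm ν) {f : ℂ →ₗ[ℝ] ℝ} (hf : ∀ v, f v ≤ ν v) {p x : ℂ}
    (hp : f p = 1) (h1 : ν (p + x) ≤ 1) (h2 : ν (p - x) ≤ 1) {t : ℝ} (ht : |t| ≤ 1) :
    ν (p + t * x) = 1 := by
  have h0 := Sld_zero hf hp h1 h2
  obtain ⟨ht1, ht2⟩ := abs_le.1 ht
  apply le_antisymm
  · have h3 : p + t * x = ((((1 + t) / 2 : ℝ)) : ℂ) * (p + x) +
        ((((1 - t) / 2 : ℝ)) : ℂ) * (p - x) := by
      push_cast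
      ring
    rw [h3]
    refine (h.tri _ _).trans ?_
    rw [h.hom, h.hom, abs_of_nonneg (by linarith), abs_of_nonneg (by linarith)]
    nlinarith
  · have h3 := hf (p + t * x)
    have h4 : f ((t : ℂ) * x) = 0 := by
      rw [← Complex.real_smul, map_smul, h0, smul_zero]
    rw [map_add, hp, h4, add_zero] at h3
    exact h3

private lemma Sld_ker {f : ℂ →ₗ[ℝ] ℝ} {p x u : ℂ} (hp : f p = 1) (hx : x ≠ 0) (h1 : f x = 0)
    (h2 : f u = 0) : ∃ α : ℝ, u = α * x := by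
  have hf : ∀ v : ℂ, f v = f 1 * v.re + f I * v.im := by
    intro v
    have h3 : v = v.re • (1 : ℂ) + v.im • I := by
      rw [Complex.real_smul, Complex.real_smul, mul_one]
      exact (Complex.re_add_im v).symm
    conv_lhs => rw [h3]
    rw [map_add, map_smul, map_smul, smul_eq_mul, smul_eq_mul]
    ring
  rw [hf] at hp h1 h2
  have hN : 0 < x.re ^ 2 + x.im ^ 2 := by
    by_contra hN
    apply hx
    have h3 : x.re = 0 := by nlinarith [sq_nonneg x.re, sq_nonneg x.im]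
    have h4 : x.im = 0 := by nlinarith [sq_nonneg x.re, sq_nonneg x.im]
    exact Complex.ext h3 h4
  have hcr : x.re * u.im - x.im * u.re = 0 := by
    by_contra hne
    have ha : f 1 = 0 := by
      have : f 1 * (x.re * u.im - x.im * u.re) = 0 := by
        linear_combination u.im * h1 - x.im * h2
      exact (mul_eq_zero.1 this).resolve_right hne
    have hb : f I = 0 := by
      have : f I * (x.re * u.im - x.im * u.re) = 0 := by
        linear_combination x.re * h2 - u.re * h1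
      exact (mul_eq_zero.1 this).resolve_right hne
    rw [ha, hb] at hp
    linarith
  refine ⟨(x.re * u.re + x.im * u.im) / (x.re ^ 2 + x.im ^ 2), ?_⟩
  apply Complex.ext
  · rw [Complex.re_ofReal_mul, div_mul_eq_mul_div, eq_div_iff hN.ne']
    linear_combination (-x.im) * hcr
  · rw [Complex.im_ofReal_mul, div_mul_eq_mul_div, eq_div_iff hN.ne']
    linear_combination x.re * hcr

theorem Nm.slide {ν : ℂ → ℝ} (h : Nm ν) {p q : ℂ} (h1 : Ins ν p q)
    (hp : ∃ x, x ≠ 0 ∧ ν (p + x) ≤ 1 ∧ ν (p - x) ≤ 1)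
    (hq : ∃ x, x ≠ 0 ∧ ν (q + x) ≤ 1 ∧ ν (q - x) ≤ 1)
    (hr : ∃ x, x ≠ 0 ∧ ν (q - p + x) ≤ 1 ∧ ν (q - p - x) ≤ 1) :
    ∃ u w : ℂ, (u ≠ 0 ∨ w ≠ 0) ∧ 0 ≤ cr u w ∧ Ins ν (p + u) (q + w) ∧ Ins ν (p - u) (q - w) := by
  obtain ⟨x, hx0, hx1, hx2⟩ := hp
  obtain ⟨y, hy0, hy1, hy2⟩ := hq
  obtain ⟨z, hz0, hz1, hz2⟩ := hr
  obtain ⟨f1, f1p, f1le⟩ := Sld_supp h h1.p1
  obtain ⟨f2, f2q, f2le⟩ := Sld_supp h h1.q1
  obtain ⟨f3, f3r, f3le⟩ := Sld_supp h h1.r1
  have e1 := Sld_zero f1le f1p hx1 hx2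
  have e2 := Sld_zero f2le f2q hy1 hy2
  have e3 := Sld_zero f3le f3r hz1 hz2
  have hD := h1.cr0
  obtain ⟨s1, hs1⟩ : ∃ s, s = f1 q := ⟨_, rfl⟩
  obtain ⟨s2, hs2⟩ : ∃ s, s = f2 p := ⟨_, rfl⟩
  obtain ⟨s3, hs3⟩ : ∃ s, s = f3 q := ⟨_, rfl⟩
  have f3p : f3 p = s3 - 1 := by
    rw [map_sub] at f3r
    linarith
  have s1a : 0 ≤ s1 := by
    have := Sld_ge h f1le (q - p)
    rw [h1.r1, map_sub, f1p, ← hs1] at this
    linarith
  have s1b : s1 ≤ 1 := by
    have := f1le q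
    rw [h1.q1, ← hs1] at this
    exact this
  have s2a : 0 ≤ s2 := by
    have := f2le (q - p)
    rw [h1.r1, map_sub, f2q, ← hs2] at this
    linarith
  have s2b : s2 ≤ 1 := by
    have := f2le p
    rw [h1.p1, ← hs2] at this
    exact this
  have s3a : 0 ≤ s3 := by
    have := Sld_ge h f3le p
    rw [h1.p1, f3p] at this
    linarith
  have s3b : s3 ≤ 1 := by
    have := f3le q
    rw [h1.q1, ← hs3] at this
    exact this
  obtain ⟨A, hA⟩ : ∃ A, A = 1 - s3 * (1 - s2) := ⟨_, rfl⟩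
  obtain ⟨B, hB⟩ : ∃ B, B = s3 + s1 * (1 - s3) := ⟨_, rfl⟩
  have hA0 : 0 ≤ A := by
    rw [hA]
    nlinarith [mul_nonneg s3a s2a]
  have hB0 : 0 ≤ B := by
    rw [hB]
    nlinarith [mul_nonneg s1a (sub_nonneg.2 s3b)]
  have hAB : 0 < A + B := by
    rw [hA, hB]
    nlinarith [mul_nonneg s3a s2a, mul_nonneg s1a (sub_nonneg.2 s3b)]
  obtain ⟨u, hu⟩ : ∃ u : ℂ, u = (A : ℂ) * (q - s1 * p) := ⟨_, rfl⟩
  obtain ⟨w, hw⟩ : ∃ w : ℂ, w = (B : ℂ) * (s2 * q - p) := ⟨_, rfl⟩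
  have hreal : ∀ (f : ℂ →ₗ[ℝ] ℝ) (c : ℝ) (v : ℂ), f ((c : ℂ) * v) = c * f v := by
    intro f c v
    rw [← Complex.real_smul, map_smul, smul_eq_mul]
  have fu : f1 u = 0 := by
    rw [hu, hreal, map_sub, hreal, f1p, ← hs1]
    ring
  have fw : f2 w = 0 := by
    rw [hw, hreal, map_sub, hreal, f2q, ← hs2]
    ring
  have fwu : f3 (w - u) = 0 := by
    rw [map_sub, hu, hw, hreal, hreal, map_sub, map_sub, hreal, hreal, f3p, ← hs3, hA, hB]
    ring
  obtain ⟨α, hα⟩ := Sld_ker f1p hx0 e1 fu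
  obtain ⟨β, hβ⟩ := Sld_ker f2q hy0 e2 fw
  obtain ⟨γ, hγ⟩ := Sld_ker f3r hz0 e3 fwu
  have hcr : cr u w = A * B * ((1 - s1 * s2) * cr p q) := by
    rw [hu, hw, cr_smul_left, cr_smul_right, cr_sub_left, cr_sub_right, cr_sub_right,
      cr_smul_left, cr_smul_left, cr_smul_right, cr_smul_right, cr_self, cr_self, cr_swap q p]
    ring
  have hcr0 : 0 ≤ cr u w := by
    rw [hcr]
    have h2 : 0 ≤ 1 - s1 * s2 := by nlinarith
    exact mul_nonneg (mul_nonneg hA0 hB0) (mul_nonneg h2 hD.le)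
  obtain ⟨E, hE⟩ : ∃ E, E = cr p w + cr u q := ⟨_, rfl⟩
  obtain ⟨S, hS⟩ : ∃ S, S = 1 + |α| + |β| + |γ| + |E| / cr p q := ⟨_, rfl⟩
  have hEd : 0 ≤ |E| / cr p q := div_nonneg (abs_nonneg _) hD.le
  have hS1 : 1 ≤ S := by
    rw [hS]
    linarith [abs_nonneg α, abs_nonneg β, abs_nonneg γ]
  obtain ⟨t, ht⟩ : ∃ t, t = 1 / (2 * S) := ⟨_, rfl⟩
  have ht0 : 0 < t := by rw [ht]; positivity
  have htS : t * S = 1 / 2 := by
    rw [ht]
    field_simp
  have bnd : ∀ a : ℝ, |a| ≤ S → |t * a| ≤ 1 := by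
    intro a ha
    rw [abs_mul, abs_of_pos ht0]
    have := mul_le_mul_of_nonneg_left ha ht0.le
    linarith
  have hα1 : |t * α| ≤ 1 := bnd α (by rw [hS]; linarith [abs_nonneg β, abs_nonneg γ])
  have hβ1 : |t * β| ≤ 1 := bnd β (by rw [hS]; linarith [abs_nonneg α, abs_nonneg γ])
  have hγ1 : |t * γ| ≤ 1 := bnd γ (by rw [hS]; linarith [abs_nonneg α, abs_nonneg β])
  have hE1 : |t * E| < cr p q := by
    rw [abs_mul, abs_of_pos ht0]
    have h2 : |E| ≤ S * cr p q := by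
      have h3 : |E| / cr p q ≤ S := by
        rw [hS]
        linarith [abs_nonneg α, abs_nonneg β, abs_nonneg γ]
      exact (div_le_iff₀ hD).1 h3
    have h4 := mul_le_mul_of_nonneg_left h2 ht0.le
    have h5 : t * (S * cr p q) = 1 / 2 * cr p q := by rw [← mul_assoc, htS]
    linarith
  have hcrt : ∀ τ : ℝ, τ = t ∨ τ = -t → 0 < cr (p + (τ : ℂ) * u) (q + (τ : ℂ) * w) := by
    intro τ hτ
    have h2 : cr (p + (τ : ℂ) * u) (q + (τ : ℂ) * w) = cr p q + τ * E + τ ^ 2 * cr u w := by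
      rw [cr_add_left, cr_add_right, cr_add_right, cr_smul_left, cr_smul_left, cr_smul_right,
        cr_smul_right, hE]
      ring
    rw [h2]
    have h3 : |τ * E| < cr p q := by
      rcases hτ with rfl | rfl
      · exact hE1
      · rw [neg_mul, abs_neg]
        exact hE1
    have h4 := (abs_lt.1 h3).1
    have h5 : 0 ≤ τ ^ 2 * cr u w := mul_nonneg (sq_nonneg _) hcr0
    linarith
  have hins : ∀ τ : ℝ, τ = t ∨ τ = -t → Ins ν (p + (τ : ℂ) * u) (q + (τ : ℂ) * w) := by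
    intro τ hτ
    have habs : ∀ a : ℝ, |t * a| ≤ 1 → |τ * a| ≤ 1 := by
      intro a ha
      rcases hτ with rfl | rfl
      · exact ha
      · rw [neg_mul, abs_neg]
        exact ha
    refine ⟨?_, ?_, ?_, hcrt τ hτ⟩
    · have h2 := Sld_one h f1le f1p hx1 hx2 (habs α hα1)
      rw [hα, ← mul_assoc, ← ofReal_mul]
      exact h2
    · have h2 := Sld_one h f2le f2q hy1 hy2 (habs β hβ1)
      rw [hβ, ← mul_assoc, ← ofReal_mul]
      exact h2
    · have h2 := Sld_one h f3le f3r hz1 hz2 (habs γ hγ1)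
      have h3 : q + (τ : ℂ) * w - (p + (τ : ℂ) * u) = q - p + (τ : ℂ) * (w - u) := by ring
      rw [h3, hγ, ← mul_assoc, ← ofReal_mul]
      exact h2
  refine ⟨(t : ℂ) * u, (t : ℂ) * w, ?_, ?_, hins t (Or.inl rfl), ?_⟩
  · have htne : (t : ℂ) ≠ 0 := by exact_mod_cast ht0.ne'
    rcases hA0.lt_or_eq with hA1 | hA1
    · left
      refine mul_ne_zero htne fun h2 => ?_
      have h3 : cr p u = A * cr p q := by
        rw [hu, cr_smul_right, cr_sub_right, cr_smul_right, cr_self]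
        ring
      rw [h2, cr_zero_right] at h3
      exact (mul_pos hA1 hD).ne h3
    · right
      have hB1 : 0 < B := by linarith
      refine mul_ne_zero htne fun h2 => ?_
      have h3 : cr q w = B * cr p q := by
        rw [hw, cr_smul_right, cr_sub_right, cr_smul_right, cr_self, cr_swap q p]
        ring
      rw [h2, cr_zero_right] at h3
      exact (mul_pos hB1 hD).ne h3
  · rw [cr_smul_left, cr_smul_right]
    exact mul_nonneg ht0.le (mul_nonneg ht0.le hcr0)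
  · have h2 := hins (-t) (Or.inr rfl)
    have h3 : p + ((-t : ℝ) : ℂ) * u = p - (t : ℂ) * u := by push_cast; ring
    have h4 : q + ((-t : ℝ) : ℂ) * w = q - (t : ℂ) * w := by push_cast; ring
    rw [h3, h4] at h2
    exact h2

end Pool.H59.UO
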