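import Pool.Agent.H59.UO.NoE
import Pool.Agent.H59.UO.Sld

/-! # Cst: all hexagons inscribed in a minimal norm have the same determinant

The set `H` of the pairs `(p, q)` with `Ins ν p q` is compact (closed because `cr p q ≥ 0` and
`cr p q ≠ 0`, `Nm.crp`).  Let `M` be the maximum of `cr` on `H`, suppose `Vol ν < cR (4 M)`.
Among the elements of `H` with `cr = M` choose `(p, q)` with maximal `normSq p + normSq q`.
The three vertices of `(p, q)` satisfy `Mnl.nonext` (turn the hexagon, `Ins.rot`), `Nm.slide` gives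
`u, w`; `cr (p+u) (q+w) + cr (p-u) (q-w) = 2 M + 2 cr u w ≥ 2 M`, so both are equal to `M`, and
the sum of the two values of `normSq + normSq` is `2 (normSq p + normSq q) + 2 (normSq u + normSq w)`:
contradiction. -/

set_option autoImplicit false

namespace Pool.H59.UO

open Complex MeasureTheory Pool.H61.Rh

private lemma Cst_cr_cont : Continuous (fun z : ℂ × ℂ => cr z.1 z.2) := by
  unfold cr
  fun_prop

private lemma Cst_cr_add (p q u w : ℂ) :
    cr (p + u) (q + w) + cr (p - u) (q - w) = 2 * cr p q + 2 * cr u w := by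
  unfold cr
  simp only [add_re, add_im, sub_re, sub_im]
  ring

private lemma Cst_nsq_add (p u : ℂ) :
    normSq (p + u) + normSq (p - u) = 2 * normSq p + 2 * normSq u := by
  simp only [normSq_apply, add_re, add_im, sub_re, sub_im]
  ring

private lemma Cst_compact {ν : ℂ → ℝ} (h : Nm ν) :
    IsCompact {z : ℂ × ℂ | ν z.1 = 1 ∧ ν z.2 = 1 ∧ ν (z.2 - z.1) = 1 ∧ 0 ≤ cr z.1 z.2} := by
  have hK := h.compact.prod h.compact
  have hν := h.continuous
  refine hK.of_isClosed_subset ?_ ?_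
  · refine (isClosed_eq (hν.comp continuous_fst) continuous_const).inter
      ((isClosed_eq (hν.comp continuous_snd) continuous_const).inter
      ((isClosed_eq (hν.comp (continuous_snd.sub continuous_fst)) continuous_const).inter
      (isClosed_le continuous_const Cst_cr_cont)))
  · rintro z ⟨h1, h2, -, -⟩
    exact ⟨h1.le, h2.le⟩

private lemma Cst_ins {ν : ℂ → ℝ} (h : Nm ν) {z : ℂ × ℂ}
    (hz : z ∈ {z : ℂ × ℂ | ν z.1 = 1 ∧ ν z.2 = 1 ∧ ν (z.2 - z.1) = 1 ∧ 0 ≤ cr z.1 z.2}) :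
    Ins ν z.1 z.2 := by
  obtain ⟨h1, h2, h3, h4⟩ := hz
  exact ⟨h1, h2, h3, lt_of_le_of_ne h4 (Ne.symm (h.crp h1 h2 h3))⟩

theorem Mnl.const (hc : cR ≤ 9025 / 10000) (H : RSBound cR) {ν : ℂ → ℝ} (h : Mnl ν) {p q : ℂ}
    (h1 : Ins ν p q) : cR * (4 * cr p q) = Vol ν := by
  refine le_antisymm ?_ (h.low p q h1)
  by_contra hcon
  push Not at hcon
  have hpos : 0 < cR := by
    have h2 := h.nm.vol_pos
    have h3 := h.low p q h1
    have h4 := h1.cr0
    by_contra hn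
    push Not at hn
    nlinarith
  set S : Set (ℂ × ℂ) :=
    {z : ℂ × ℂ | ν z.1 = 1 ∧ ν z.2 = 1 ∧ ν (z.2 - z.1) = 1 ∧ 0 ≤ cr z.1 z.2} with hS
  have hmem : ∀ {a b : ℂ}, Ins ν a b → (a, b) ∈ S := fun hi => ⟨hi.p1, hi.q1, hi.r1, hi.cr0.le⟩
  obtain ⟨z0, hz0, hmax⟩ := (Cst_compact h.nm).exists_isMaxOn ⟨(p, q), hmem h1⟩
    Cst_cr_cont.continuousOn
  have hM : ∀ {a b : ℂ}, Ins ν a b → cr a b ≤ cr z0.1 z0.2 := fun hi => hmax (hmem hi)
  have hcM : Vol ν < cR * (4 * cr z0.1 z0.2) := by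
    have := hM h1
    nlinarith
  have hc2 : IsCompact (S ∩ {z : ℂ × ℂ | cr z.1 z.2 = cr z0.1 z0.2}) :=
    (Cst_compact h.nm).inter_right (isClosed_eq Cst_cr_cont continuous_const)
  have hF : Continuous (fun z : ℂ × ℂ => normSq z.1 + normSq z.2) := by fun_prop
  obtain ⟨z1, ⟨hz1, hz1'⟩, hmax1⟩ := hc2.exists_isMaxOn ⟨z0, hz0, rfl⟩ hF.continuousOn
  have hz1e : cr z1.1 z1.2 = cr z0.1 z0.2 := hz1'
  have hi := Cst_ins h.nm hz1
  obtain ⟨hi2, he2⟩ := hi.rot h.nm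
  obtain ⟨hi3, he3⟩ := hi2.rot h.nm
  have e1 := Mnl.nonext hc H h hi (by rw [hz1e]; exact hcM)
  have e2 := Mnl.nonext hc H h hi2 (by rw [he2, hz1e]; exact hcM)
  have e3 := Mnl.nonext hc H h hi3 (by rw [he3, he2, hz1e]; exact hcM)
  obtain ⟨u, w, huw, hcr, i1, i2⟩ := h.nm.slide hi e1 e2 e3
  have g1 := hM i1
  have g2 := hM i2
  have g3 := Cst_cr_add z1.1 z1.2 u w
  have f1 : cr (z1.1 + u) (z1.2 + w) = cr z0.1 z0.2 := by linarith
  have f2 : cr (z1.1 - u) (z1.2 - w) = cr z0.1 z0.2 := by linarith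
  have k1 : normSq (z1.1 + u) + normSq (z1.2 + w) ≤ normSq z1.1 + normSq z1.2 :=
    hmax1 (show (z1.1 + u, z1.2 + w) ∈ _ from ⟨hmem i1, f1⟩)
  have k2 : normSq (z1.1 - u) + normSq (z1.2 - w) ≤ normSq z1.1 + normSq z1.2 :=
    hmax1 (show (z1.1 - u, z1.2 - w) ∈ _ from ⟨hmem i2, f2⟩)
  have k3 := Cst_nsq_add z1.1 u
  have k4 := Cst_nsq_add z1.2 w
  have k5 := normSq_nonneg u
  have k6 := normSq_nonneg w
  rcases huw with hu | hw
  · have := normSq_pos.2 hu
    linarith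
  · have := normSq_pos.2 hw
    linarith

end Pool.H59.UO
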