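import Pool.Agent.H59.UO.Df
import Pool.Agent.H61.Rh.A1

/-! # DcF: the discrete closed curve of a balanced configuration, with values in a given set

Copy of `Pool/Agent/H61/Rh/B1.lean` with one more conclusion. -/

set_option autoImplicit false

namespace Pool.H59.UO

open Complex Finset Pool.H61.Rh

/-- period 6 sequence 0, 1, 1, 0, -1, -1 -/
private def DcF_b (k : ℤ) : ℤ :=
  if k % 6 = 0 then 0 else if k % 6 = 1 then 1 else if k % 6 = 2 then 1 else
  if k % 6 = 3 then 0 else -1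

private noncomputable def DcF_h (k : ℤ) (x y : ℂ) : ℂ := (DcF_b k : ℂ) * y - (DcF_b (k - 1) : ℂ) * x

private lemma DcF_cases (k : ℤ) :
    (DcF_b (k - 1) = -1 ∧ DcF_b k = 0 ∧ DcF_b (k + 1) = 1 ∧ DcF_b (k + 2) = 1 ∧ DcF_b (k + 3) = 0) ∨
    (DcF_b (k - 1) = 0 ∧ DcF_b k = 1 ∧ DcF_b (k + 1) = 1 ∧ DcF_b (k + 2) = 0 ∧ DcF_b (k + 3) = -1) ∨
    (DcF_b (k - 1) = 1 ∧ DcF_b k = 1 ∧ DcF_b (k + 1) = 0 ∧ DcF_b (k + 2) = -1 ∧ DcF_b (k + 3) = -1) ∨
    (DcF_b (k - 1) = 1 ∧ DcF_b k = 0 ∧ DcF_b (k + 1) = -1 ∧ DcF_b (k + 2) = -1 ∧ DcF_b (k + 3) = 0) ∨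
    (DcF_b (k - 1) = 0 ∧ DcF_b k = -1 ∧ DcF_b (k + 1) = -1 ∧ DcF_b (k + 2) = 0 ∧ DcF_b (k + 3) = 1) ∨
    (DcF_b (k - 1) = -1 ∧ DcF_b k = -1 ∧ DcF_b (k + 1) = 0 ∧ DcF_b (k + 2) = 1 ∧ DcF_b (k + 3) = 1) := by
  have h : k % 6 = 0 ∨ k % 6 = 1 ∨ k % 6 = 2 ∨ k % 6 = 3 ∨ k % 6 = 4 ∨ k % 6 = 5 := by omega
  rcases h with h | h | h | h | h | h
  · left
    have h1 : (k - 1) % 6 = 5 := by omega
    have h2 : (k + 1) % 6 = 1 := by omega
    have h3 : (k + 2) % 6 = 2 := by omega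
    have h4 : (k + 3) % 6 = 3 := by omega
    simp [DcF_b, h, h1, h2, h3, h4]
  · right; left
    have h1 : (k - 1) % 6 = 0 := by omega
    have h2 : (k + 1) % 6 = 2 := by omega
    have h3 : (k + 2) % 6 = 3 := by omega
    have h4 : (k + 3) % 6 = 4 := by omega
    simp [DcF_b, h, h1, h2, h3, h4]
  · right; right; left
    have h1 : (k - 1) % 6 = 1 := by omega
    have h2 : (k + 1) % 6 = 3 := by omega
    have h3 : (k + 2) % 6 = 4 := by omega
    have h4 : (k + 3) % 6 = 5 := by omega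
    simp [DcF_b, h, h1, h2, h3, h4]
  · right; right; right; left
    have h1 : (k - 1) % 6 = 2 := by omega
    have h2 : (k + 1) % 6 = 4 := by omega
    have h3 : (k + 2) % 6 = 5 := by omega
    have h4 : (k + 3) % 6 = 0 := by omega
    simp [DcF_b, h, h1, h2, h3, h4]
  · right; right; right; right; left
    have h1 : (k - 1) % 6 = 3 := by omega
    have h2 : (k + 1) % 6 = 5 := by omega
    have h3 : (k + 2) % 6 = 0 := by omega
    have h4 : (k + 3) % 6 = 1 := by omega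
    simp [DcF_b, h, h1, h2, h3, h4]
  · right; right; right; right; right
    have h1 : (k - 1) % 6 = 4 := by omega
    have h2 : (k + 1) % 6 = 0 := by omega
    have h3 : (k + 2) % 6 = 1 := by omega
    have h4 : (k + 3) % 6 = 2 := by omega
    simp [DcF_b, h, h1, h2, h3, h4]

/-- the values of `DcF_h` at `k, k+1, k+2, k+3` -/
private lemma DcF_vals (k : ℤ) :
    (∀ x y, DcF_h k x y = x ∧ DcF_h (k + 1) x y = y ∧ DcF_h (k + 2) x y = y - x ∧
      DcF_h (k + 3) x y = -x) ∨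
    (∀ x y, DcF_h k x y = y ∧ DcF_h (k + 1) x y = y - x ∧ DcF_h (k + 2) x y = -x ∧
      DcF_h (k + 3) x y = -y) ∨
    (∀ x y, DcF_h k x y = y - x ∧ DcF_h (k + 1) x y = -x ∧ DcF_h (k + 2) x y = -y ∧
      DcF_h (k + 3) x y = x - y) ∨
    (∀ x y, DcF_h k x y = -x ∧ DcF_h (k + 1) x y = -y ∧ DcF_h (k + 2) x y = x - y ∧
      DcF_h (k + 3) x y = x) ∨
    (∀ x y, DcF_h k x y = -y ∧ DcF_h (k + 1) x y = x - y ∧ DcF_h (k + 2) x y = x ∧
      DcF_h (k + 3) x y = y) ∨
    (∀ x y, DcF_h k x y = x - y ∧ DcF_h (k + 1) x y = x ∧ DcF_h (k + 2) x y = y ∧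
      DcF_h (k + 3) x y = y - x) := by
  have e1 : k + 1 - 1 = k := by ring
  have e2 : k + 2 - 1 = k + 1 := by ring
  have e3 : k + 3 - 1 = k + 2 := by ring
  rcases DcF_cases k with ⟨h1, h2, h3, h4, h5⟩ | ⟨h1, h2, h3, h4, h5⟩ | ⟨h1, h2, h3, h4, h5⟩ |
    ⟨h1, h2, h3, h4, h5⟩ | ⟨h1, h2, h3, h4, h5⟩ | ⟨h1, h2, h3, h4, h5⟩
  · left; intro x y
    simp only [DcF_h, e1, e2, e3, h1, h2, h3, h4, h5]
    push_cast
    refine ⟨?_, ?_, ?_, ?_⟩ <;> ring
  · right; left; intro x y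
    simp only [DcF_h, e1, e2, e3, h1, h2, h3, h4, h5]
    push_cast
    refine ⟨?_, ?_, ?_, ?_⟩ <;> ring
  · right; right; left; intro x y
    simp only [DcF_h, e1, e2, e3, h1, h2, h3, h4, h5]
    push_cast
    refine ⟨?_, ?_, ?_, ?_⟩ <;> ring
  · right; right; right; left; intro x y
    simp only [DcF_h, e1, e2, e3, h1, h2, h3, h4, h5]
    push_cast
    refine ⟨?_, ?_, ?_, ?_⟩ <;> ring
  · right; right; right; right; left; intro x y
    simp only [DcF_h, e1, e2, e3, h1, h2, h3, h4, h5]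
    push_cast
    refine ⟨?_, ?_, ?_, ?_⟩ <;> ring
  · right; right; right; right; right; intro x y
    simp only [DcF_h, e1, e2, e3, h1, h2, h3, h4, h5]
    push_cast
    refine ⟨?_, ?_, ?_, ?_⟩ <;> ring

private lemma DcF_sub (k : ℤ) (x y x' y' : ℂ) :
    DcF_h k x' y' - DcF_h k x y = DcF_h k (x' - x) (y' - y) := by
  simp only [DcF_h]; ring

private lemma DcF_succ (k : ℤ) (x y : ℂ) : DcF_h (k + 1) x y = DcF_h k y (y - x) := by
  rcases DcF_vals k with h | h | h | h | h | h <;>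
    rw [(h x y).2.1, (h y (y - x)).1] <;> ring

private noncomputable def DcF_g (N : ℕ) (p q : ℕ → ℂ) (m : ℤ) : ℂ :=
  DcF_h (m / N) (p (m % N).toNat) (q (m % N).toNat)

private noncomputable def DcF_W (p q : ℕ → ℂ) (i : ℕ) : ℝ :=
  cr (p i) (p (i + 1)) + cr (q i) (q (i + 1)) + cr (q i - p i) (q (i + 1) - p (i + 1))

private noncomputable def DcF_S (N : ℕ) (p q : ℕ → ℂ) (m : ℤ) : ℝ :=
  ((m / N : ℤ) : ℝ) * (Ws N p q / 3) + (∑ j ∈ Finset.range (m % N).toNat, DcF_W p q j) / 3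

private lemma DcF_dm {N : ℕ} (hN : 0 < N) (k : ℤ) (i : ℕ) (hi : i < N) :
    ((N : ℤ) * k + i) / N = k ∧ (((N : ℤ) * k + i) % N).toNat = i := by
  have hN' : (N : ℤ) ≠ 0 := by exact_mod_cast hN.ne'
  have hi' : (i : ℤ) < N := by exact_mod_cast hi
  constructor
  · rw [add_comm, Int.add_mul_ediv_left _ _ hN', Int.ediv_eq_zero_of_lt (by positivity) hi']
    simp
  · rw [add_comm, Int.add_mul_emod_self_left, Int.emod_eq_of_lt (by positivity) hi']
    simp

private lemma DcF_gval {N : ℕ} {p q : ℕ → ℂ} (hN : 0 < N) (h : Cfg N p q) (k : ℤ) (i : ℕ)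
    (hi : i ≤ N) : DcF_g N p q ((N : ℤ) * k + i) = DcF_h k (p i) (q i) := by
  rcases hi.lt_or_eq with hi | rfl
  · obtain ⟨h1, h2⟩ := DcF_dm hN k i hi
    rw [DcF_g, h1, h2]
  · have e : ((i : ℤ) * k + i) = (i : ℤ) * (k + 1) + (0 : ℕ) := by push_cast; ring
    obtain ⟨h1, h2⟩ := DcF_dm hN (k + 1) 0 hN
    rw [e, DcF_g, h1, h2, DcF_succ, h.p0, h.q0, h.pN, h.qN]

private lemma DcF_Sval {N : ℕ} {p q : ℕ → ℂ} (hN : 0 < N) (k : ℤ) (i : ℕ)
    (hi : i ≤ N) : DcF_S N p q ((N : ℤ) * k + i) =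
      (k : ℝ) * (Ws N p q / 3) + (∑ j ∈ Finset.range i, DcF_W p q j) / 3 := by
  rcases hi.lt_or_eq with hi | rfl
  · obtain ⟨h1, h2⟩ := DcF_dm hN k i hi
    rw [DcF_S, h1, h2]
  · have e : ((i : ℤ) * k + i) = (i : ℤ) * (k + 1) + (0 : ℕ) := by push_cast; ring
    obtain ⟨h1, h2⟩ := DcF_dm hN (k + 1) 0 hN
    have e2 : ∑ j ∈ Finset.range i, DcF_W p q j = Ws i p q := rfl
    rw [e, DcF_S, h1, h2, e2]
    push_cast
    simp only [Finset.range_zero, Finset.sum_empty]
    ring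

private lemma DcF_mem {N : ℕ} {p q : ℕ → ℂ} {F : Set ℂ} (hN : 0 < N)
    (hF : ∀ i ≤ N, p i ∈ F ∧ q i ∈ F ∧ q i - p i ∈ F) (hneg : ∀ z ∈ F, -z ∈ F) (m : ℤ) :
    DcF_g N p q m ∈ F := by
  have hNz : (N : ℤ) ≠ 0 := by exact_mod_cast hN.ne'
  have hi : (m % N).toNat ≤ N := by
    have h1 := Int.emod_lt_of_pos m (show (0 : ℤ) < N by exact_mod_cast hN)
    have h2 := Int.emod_nonneg m hNz
    omega
  obtain ⟨h1, h2, h3⟩ := hF _ hi
  unfold DcF_g
  rcases DcF_vals (m / N) with h | h | h | h | h | h <;> rw [(h _ _).1]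
  · exact h1
  · exact h2
  · exact h3
  · exact hneg _ h1
  · exact hneg _ h2
  · have := hneg _ h3
    rwa [neg_sub] at this

theorem dc_of_cfg' {N : ℕ} {A : ℝ} {p q : ℕ → ℂ} {F : Set ℂ} (hN : 0 < N) (h : Cfg N p q)
    (hd : ∀ i ≤ N, cr (p i) (q i) = s3 / 2) (hA : Ws N p q ≤ A)
    (hF : ∀ i ≤ N, p i ∈ F ∧ q i ∈ F ∧ q i - p i ∈ F) (hneg : ∀ z ∈ F, -z ∈ F) :
    ∃ (g : ℤ → ℂ) (S : ℤ → ℝ), DC N A g S ∧ ∀ m, g m ∈ F := by
  refine ⟨DcF_g N p q, DcF_S N p q, ?_, DcF_mem hN hF hneg⟩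
  have hNz : (N : ℤ) ≠ 0 := by exact_mod_cast hN.ne'
  -- decomposition
  have dec : ∀ m : ℤ, ∃ (k : ℤ) (i : ℕ), i < N ∧ m = (N : ℤ) * k + i := by
    intro m
    refine ⟨m / N, (m % N).toNat, ?_, ?_⟩
    · have h1 := Int.emod_lt_of_pos m (show (0 : ℤ) < N by exact_mod_cast hN)
      have h2 := Int.emod_nonneg m hNz
      omega
    · rw [Int.toNat_of_nonneg (Int.emod_nonneg m hNz)]
      exact (Int.mul_ediv_add_emod m N).symm
  have G : ∀ (k : ℤ) (i : ℕ), i ≤ N → DcF_g N p q ((N : ℤ) * k + i) = DcF_h k (p i) (q i) :=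
    fun k i hi => DcF_gval hN h k i hi
  have G1 : ∀ (k : ℤ) (i : ℕ), i < N → DcF_g N p q ((N : ℤ) * k + i + 1)
      = DcF_h k (p (i + 1)) (q (i + 1)) := by
    intro k i hi
    have := G k (i + 1) hi
    rw [← this]; congr 1; push_cast; ring
  have GN : ∀ (k : ℤ) (i : ℕ) (j : ℤ), i ≤ N → DcF_g N p q ((N : ℤ) * k + i + j * N)
      = DcF_h (k + j) (p i) (q i) := by
    intro k i j hi
    have := G (k + j) i hi
    rw [← this]; congr 1; ring
  have GN1 : ∀ (k : ℤ) (i : ℕ) (j : ℤ), i < N → DcF_g N p q ((N : ℤ) * k + i + j * N + 1)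
      = DcF_h (k + j) (p (i + 1)) (q (i + 1)) := by
    intro k i j hi
    have := G1 (k + j) i hi
    rw [← this]; congr 1; ring
  have D : ∀ (k : ℤ) (i : ℕ), i < N → DcF_g N p q ((N : ℤ) * k + i + 1) - DcF_g N p q ((N : ℤ) * k + i)
      = DcF_h k (p (i + 1) - p i) (q (i + 1) - q i) := by
    intro k i hi
    rw [G1 k i hi, G k i hi.le, DcF_sub]
  have Sv : ∀ (k : ℤ) (i : ℕ), i < N → DcF_S N p q ((N : ℤ) * k + i + 1) - DcF_S N p q ((N : ℤ) * k + i)
      = DcF_W p q i / 3 := by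
    intro k i hi
    have a := DcF_Sval (p := p) (q := q) hN k (i + 1) hi
    have b := DcF_Sval (p := p) (q := q) hN k i hi.le
    have e : ((N : ℤ) * k + i + 1) = (N : ℤ) * k + ((i + 1 : ℕ) : ℤ) := by push_cast; ring
    rw [e, a, b, Finset.sum_range_succ]
    ring
  refine ⟨?_, ?_, ?_, ?_, ?_, ?_, ?_, ?_, ?_, ?_, ?_, ?_⟩
  · -- hex
    intro m
    obtain ⟨k, i, hi, rfl⟩ := dec m
    have a := GN k i 2 hi.le
    have b := GN k i 1 hi.le
    rw [one_mul] at b
    rw [a, b, G k i hi.le]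
    rcases DcF_vals k with h | h | h | h | h | h <;>
      rw [(h _ _).1, (h _ _).2.1, (h _ _).2.2.1] <;> ring
  · -- g0
    have := G 0 0 hN.le
    simp only [mul_zero, Nat.cast_zero, add_zero] at this
    rw [this, h.p0, h.q0]
    have := DcF_vals 0
    simp [DcF_h, DcF_b]
  · -- gN
    have := G 1 0 hN.le
    simp only [mul_one, Nat.cast_zero, add_zero] at this
    rw [this, h.p0, h.q0]
    simp [DcF_h, DcF_b]
  · -- det
    intro m
    obtain ⟨k, i, hi, rfl⟩ := dec m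
    have b := GN k i 1 hi.le
    rw [one_mul] at b
    rw [b, G k i hi.le]
    have hh := hd i hi.le
    have e1 : cr (q i) (p i) = - cr (p i) (q i) := cr_swap _ _
    rcases DcF_vals k with h | h | h | h | h | h <;>
      rw [(h _ _).1, (h _ _).2.1] <;>
      (try simp only [cr_neg_left, cr_neg_right, cr_sub_left, cr_sub_right, cr_self, e1]) <;> linarith
  · -- step
    intro m
    obtain ⟨k, i, hi, rfl⟩ := dec m
    rw [D k i hi]
    obtain ⟨h1, h2, h3⟩ := h.step_le hN i hi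
    rcases DcF_vals k with h | h | h | h | h | h <;> rw [(h _ _).1]
    · exact h1
    · exact h2
    · exact h3
    · rw [norm_neg]; exact h1
    · rw [norm_neg]; exact h2
    · rw [norm_sub_rev]; exact h3
  · -- bdd
    intro m
    obtain ⟨k, i, hi, rfl⟩ := dec m
    rw [G k i hi.le]
    obtain ⟨h1, h2, h3⟩ := h.bound hN i hi.le
    rcases DcF_vals k with h | h | h | h | h | h <;> rw [(h _ _).1]
    · exact h1
    · exact h2
    · exact h3
    · rw [norm_neg]; exact h1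
    · rw [norm_neg]; exact h2
    · rw [norm_sub_rev]; exact h3
  · -- conv
    have main : ∀ m n : ℤ, m ≤ n → n ≤ m + 3 * N →
        0 ≤ cr (DcF_g N p q (m + 1) - DcF_g N p q m) (DcF_g N p q (n + 1) - DcF_g N p q n) := by
      intro m n hmn hnm
      obtain ⟨k, i, hi, rfl⟩ := dec m
      obtain ⟨l, j, hj, rfl⟩ := dec n
      have hi' : (i : ℤ) < N := by exact_mod_cast hi
      have hj' : (j : ℤ) < N := by exact_mod_cast hj
      have hi0 : (0 : ℤ) ≤ i := by positivity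
      have hj0 : (0 : ℤ) ≤ j := by positivity
      have hNp : (0 : ℤ) < N := by exact_mod_cast hN
      have kl : k ≤ l := by
        by_contra hc
        have : l + 1 ≤ k := by omega
        nlinarith
      have lk : l ≤ k + 3 := by
        by_contra hc
        have : k + 4 ≤ l := by omega
        nlinarith
      rw [D k i hi, D l j hj]
      have hs : l = k ∨ l = k + 1 ∨ l = k + 2 ∨ l = k + 3 := by omega
      have app := h.cpp
      have aqq := h.cqq
      have arr := h.crr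
      have a1 := h.cpq i j hi hj
      have a2 := h.cpq j i hj hi
      have a3 := h.cpr i j hi hj
      have a4 := h.cpr j i hj hi
      have a5 := h.cqr i j hi hj
      have a6 := h.cqr j i hj hi
      have b1 := cr_swap (p (i + 1) - p i) (q (j + 1) - q j)
      have b2 := cr_swap (p (j + 1) - p j) (q (i + 1) - q i)
      have b3 := cr_swap (p (i + 1) - p i) (p (j + 1) - p j)
      have b4 := cr_swap (q (i + 1) - q i) (q (j + 1) - q j)
      rcases hs with rfl | rfl | rfl | rfl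
      · have hij : i ≤ j := by
          have : (i : ℤ) ≤ j := by linarith
          exact_mod_cast this
        have c1 := app i j hij hj
        have c2 := aqq i j hij hj
        have c3 := arr i j hij hj
        rcases DcF_vals l with h | h | h | h | h | h <;> rw [(h _ _).1, (h _ _).1]
        · exact c1
        · exact c2
        · exact c3
        · rw [cr_neg_left, cr_neg_right, neg_neg]; exact c1
        · rw [cr_neg_left, cr_neg_right, neg_neg]; exact c2
        · simp only [cr_sub_left (_ - _) (_ - _), cr_sub_right _ (_ - _) (_ - _)] at c3 ⊢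
          linarith
      · rcases DcF_vals k with h | h | h | h | h | h <;> rw [(h _ _).1, (h _ _).2.1] <;>
          simp only [cr_neg_left, cr_neg_right, cr_sub_left (_ - _) (_ - _),
            cr_sub_right _ (_ - _) (_ - _)] at * <;> linarith
      · rcases DcF_vals k with h | h | h | h | h | h <;> rw [(h _ _).1, (h _ _).2.2.1] <;>
          simp only [cr_neg_left, cr_neg_right, cr_sub_left (_ - _) (_ - _),
            cr_sub_right _ (_ - _) (_ - _)] at * <;> linarith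
      · have hij : j ≤ i := by
          have : (j : ℤ) ≤ i := by linarith
          exact_mod_cast this
        have c1 := app j i hij hi
        have c2 := aqq j i hij hi
        have c3 := arr j i hij hi
        rcases DcF_vals k with h | h | h | h | h | h <;> rw [(h _ _).1, (h _ _).2.2.2] <;>
          simp only [cr_neg_left, cr_neg_right, cr_sub_left (_ - _) (_ - _),
            cr_sub_right _ (_ - _) (_ - _)] at * <;> linarith
    intro m n hmn hnm
    exact main m n (by exact_mod_cast hmn) (by exact_mod_cast hnm)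
  · -- rad
    intro m
    obtain ⟨k, i, hi, rfl⟩ := dec m
    rw [D k i hi, G k i hi.le, G1 k i hi]
    obtain ⟨h1, h2, h3, h4⟩ := h.rad hN i hi
    have e : q (i + 1) - p (i + 1) - (q i - p i) = q (i + 1) - q i - (p (i + 1) - p i) := by ring
    rw [e] at h3
    rcases DcF_vals k with h | h | h | h | h | h <;> rw [(h _ _).1, (h _ _).1, (h _ _).1]
    · exact h1
    · exact h2
    · exact h3
    · rw [norm_neg, cr_neg_left, cr_neg_right, neg_neg]; exact h1
    · rw [norm_neg, cr_neg_left, cr_neg_right, neg_neg]; exact h2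
    · rw [norm_sub_rev, ← neg_sub (q i) (p i), ← neg_sub (q (i + 1)) (p (i + 1)), cr_neg_left,
        cr_neg_right, neg_neg]
      exact h3
  · -- S0
    have := DcF_Sval (p := p) (q := q) hN 0 0 hN.le
    simpa using this
  · -- Sst
    intro m
    obtain ⟨k, i, hi, rfl⟩ := dec m
    rw [Sv k i hi]
    have a0 := G k i hi.le
    have b0 := G1 k i hi
    have a1 := GN k i 1 hi.le
    have b1 := GN1 k i 1 hi
    have a2 := GN k i 2 hi.le
    have b2 := GN1 k i 2 hi
    rw [one_mul] at a1 b1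
    rw [a0, b0, a1, b1, a2, b2]
    rw [DcF_W]
    rcases DcF_vals k with h | h | h | h | h | h <;>
      simp only [(h _ _).1, (h _ _).2.1, (h _ _).2.2.1, cr_neg_left, cr_neg_right, cr_sub_left,
        cr_sub_right] <;> ring
  · -- Slow
    intro m
    obtain ⟨k, i, hi, rfl⟩ := dec m
    rw [Sv k i hi]
    obtain ⟨h1, h2, h3, h4⟩ := h.rad hN i hi
    have e : (1 : ℝ) / (2 * N) = (3 / (2 * N)) / 3 := by ring
    rw [e, DcF_W]
    linarith
  · -- SN
    have := DcF_Sval (p := p) (q := q) hN 1 0 hN.le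
    simp only [mul_one, Nat.cast_zero, add_zero, Finset.range_zero, Finset.sum_empty] at this
    rw [this]
    push_cast
    linarith

end Pool.H59.UO
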