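import Pool.Agent.H61.Rh.Basic

/-! # Df: norms of the plane, inscribed hexagons, minimal norms: definitions

`Nm ν`: `ν` is a norm of the plane `ℂ` (not necessarily strictly convex).  `Ins ν p q`: the
affinely regular hexagon `p, q, q - p, -p, -q, p - q` is inscribed in the unit ball of `ν`.
`Mnl ν`: the unit ball has the least possible area with respect to its inscribed hexagons. -/

set_option autoImplicit false

namespace Pool.H59.UO

open Complex MeasureTheory Pool.H61.Rh

/-- a norm of the plane -/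
structure Nm (ν : ℂ → ℝ) : Prop where
  pos : ∀ x, x ≠ 0 → 0 < ν x
  hom : ∀ (t : ℝ) (x : ℂ), ν (t * x) = |t| * ν x
  tri : ∀ x y, ν (x + y) ≤ ν x + ν y

/-- area of the unit ball -/
noncomputable def Vol (ν : ℂ → ℝ) : ℝ := (volume {z : ℂ | ν z ≤ 1}).toReal

/-- the hexagon `p, q, q - p, ...` is inscribed in the unit ball -/
structure Ins (ν : ℂ → ℝ) (p q : ℂ) : Prop where
  p1 : ν p = 1
  q1 : ν q = 1
  r1 : ν (q - p) = 1
  cr0 : 0 < cr p q

/-- Reinhardt's constant -/
noncomputable def cR : ℝ := (8 - Real.sqrt 32 - Real.log 2) / (Real.sqrt 8 - 1)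

/-- a minimal norm -/
structure Mnl (ν : ℂ → ℝ) : Prop where
  nm : Nm ν
  low : ∀ p q, Ins ν p q → Vol ν ≤ cR * (4 * cr p q)

lemma SN.nm {ν : ℂ → ℝ} (h : SN ν) : Nm ν := ⟨h.pos, h.hom, h.tri⟩

end Pool.H59.UO
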