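import Pool.Agent.H94.DL.SymR
import Pool.Agent.H81.Oct.O11
import Pool.Agent.H66.RH.Fin

/-! # Pln: lattice packings in the Euclidean plane and in `ℝ × ℝ` -/

set_option autoImplicit false

namespace Pool.H59.UO

open MeasureTheory Pool.H94.DL

/-- the coordinates -/
noncomputable def TT : E2 ≃L[ℝ] ℝ × ℝ :=
  LL.symm.toContinuousLinearEquiv.trans Complex.equivRealProdCLM

theorem TT_apply (z : E2) : TT z = (z 0, z 1) := by
  have h : ∀ x : ℂ, LL x = !₂[x.re, x.im] := fun x => by
    ext i
    fin_cases i <;> simp [LL]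
  have h2 : z = LL ⟨z 0, z 1⟩ := by
    rw [h]
    ext i
    fin_cases i <;> simp
  have h3 : TT z = Complex.equivRealProdCLM (LL.symm z) := rfl
  rw [h3]
  conv_lhs => rw [h2, LinearIsometryEquiv.symm_apply_apply]
  rfl

theorem TT_symm (x : ℝ × ℝ) : TT.symm x = LL (Complex.equivRealProdCLM.symm x) := rfl

theorem volume_TT (K : Set E2) : volume (TT '' K) = volume K := by
  have h1 : TT '' K = Complex.equivRealProdCLM.symm ⁻¹' (LL ⁻¹' K) := by
    ext x
    constructor
    · rintro ⟨y, hy, rfl⟩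
      show LL (Complex.equivRealProdCLM.symm (TT y)) ∈ K
      rw [← TT_symm, ContinuousLinearEquiv.symm_apply_apply]
      exact hy
    · intro hx
      refine ⟨TT.symm x, hx, ContinuousLinearEquiv.apply_symm_apply _ _⟩
  have h2 : MeasurePreserving Complex.measurableEquivRealProd.symm :=
    Complex.volume_preserving_equiv_real_prod.symm
  have h3 := h2.measure_preimage_equiv (LL ⁻¹' K)
  rw [h1, ← volume_LL_preimage K]
  exact h3

theorem interior_TT (K : Set E2) : interior (TT '' K) = TT '' interior K :=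
  (TT.toHomeomorph.image_interior K).symm

theorem mem_TT {K : Set E2} {z : E2} : TT z ∈ TT '' K ↔ z ∈ K :=
  TT.injective.mem_set_image

/-- a lattice packing of `TT '' K` gives a packing of `K` -/
theorem le_density_pack {K : Set E2} (hc : Convex ℝ K) (hk : IsCompact K) {v w : ℝ × ℝ}
    (h : Pool.H61.Sm.Pack (TT '' K) v w) :
    (volume (TT '' K)).toReal / |v.1 * w.2 - v.2 * w.1| ≤ packingDensity K := by
  set e := Complex.equivRealProdCLM with he
  have hcr : cr (e.symm v) (e.symm w) = v.1 * w.2 - v.2 * w.1 := by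
    unfold cr
    rfl
  have hint : interior (LL ⁻¹' K) = LL ⁻¹' interior K :=
    (LL.toHomeomorph.preimage_interior K).symm
  have hp : ∀ m n : ℤ, ¬ (m = 0 ∧ n = 0) → ∀ x ∈ interior (LL ⁻¹' K),
      x + (m * e.symm v + n * e.symm w) ∉ interior (LL ⁻¹' K) := by
    intro m n hmn x hx hx'
    rw [hint] at hx hx'
    refine h.2 m n hmn (e x) ?_ ?_
    · rw [interior_TT]
      refine ⟨LL x, hx, ?_⟩
      show e (LL.symm (LL x)) = e x
      rw [LinearIsometryEquiv.symm_apply_apply]
    · rw [interior_TT]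
      refine ⟨_, hx', ?_⟩
      show e (LL.symm (LL _)) = _
      rw [LinearIsometryEquiv.symm_apply_apply]
      have h2 : (m : ℂ) * e.symm v + n * e.symm w = (m : ℝ) • e.symm v + (n : ℝ) • e.symm w := by
        simp
      rw [h2, map_add, map_add, map_smul, map_smul, ContinuousLinearEquiv.apply_symm_apply,
        ContinuousLinearEquiv.apply_symm_apply]
  obtain ⟨R, hR⟩ := (compact_pre hk).isBounded.subset_closedBall 0
  have hR' : ∀ z ∈ LL ⁻¹' K, ‖z‖ ≤ max R 0 := fun z hz =>
    (mem_closedBall_zero_iff.1 (hR hz)).trans (le_max_left _ _)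
  have h1 : cr (e.symm v) (e.symm w) ≠ 0 := by rw [hcr]; exact h.1
  have h2 := ltr_density h1 hR' (le_max_right _ _)
  have h3 := le_packingDensity hc (cj_packing (ltr_packing hp)) (cj_density h2)
  rw [volume_TT, ← hcr, ← volume_LL_preimage K]
  exact h3

/-- the lattice packings of `K` -/
theorem pack_TT {K : Set E2} {v w : E2} : Pool.H61.Sm.Pack (TT '' K) (TT v) (TT w) ↔
    (v 0 * w 1 - v 1 * w 0 ≠ 0 ∧ Pairwise fun a b : ℤ × ℤ =>
      Disjoint (interior ((fun x => x + (a.1 • v + a.2 • w)) '' K))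
        (interior ((fun x => x + (b.1 • v + b.2 • w)) '' K))) := by
  rw [Pool.Agent.H66.RH.pack_iff]
  have hd : (TT v).1 * (TT w).2 - (TT v).2 * (TT w).1 = v 0 * w 1 - v 1 * w 0 := by
    rw [TT_apply, TT_apply]
  rw [hd]
  have ht : ∀ a : ℤ × ℤ, Pool.Agent.H66.RH.trans (TT '' K) (TT v) (TT w) a =
      TT '' ((fun x => x + (a.1 • v + a.2 • w)) '' K) := by
    intro a
    unfold Pool.Agent.H66.RH.trans
    rw [Set.image_image, Set.image_image]
    refine Set.image_congr fun x _ => ?_
    rw [map_add, map_add, map_zsmul, map_zsmul]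
  have hP : ∀ a b : ℤ × ℤ, Disjoint (interior (Pool.Agent.H66.RH.trans (TT '' K) (TT v) (TT w) a))
      (interior (Pool.Agent.H66.RH.trans (TT '' K) (TT v) (TT w) b)) ↔
      Disjoint (interior ((fun x => x + (a.1 • v + a.2 • w)) '' K))
        (interior ((fun x => x + (b.1 • v + b.2 • w)) '' K)) := by
    intro a b
    rw [ht, ht, interior_TT, interior_TT]
    exact Set.disjoint_image_iff TT.injective
  constructor
  · rintro ⟨h1, h2⟩
    exact ⟨h1, fun a b hab => (hP a b).1 (h2 hab)⟩
  · rintro ⟨h1, h2⟩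
    exact ⟨h1, fun a b hab => (hP a b).2 (h2 hab)⟩

theorem TT_octP : TT '' Octa.octP = Pool.H61.Sm.K0 := by
  ext x
  constructor
  · rintro ⟨y, hy, rfl⟩
    rw [TT_apply]
    exact hy
  · intro hx
    refine ⟨TT.symm x, ?_, ContinuousLinearEquiv.apply_symm_apply _ _⟩
    show ((TT.symm x) 0, (TT.symm x) 1) ∈ Pool.H61.Sm.K0
    rw [← TT_apply, ContinuousLinearEquiv.apply_symm_apply]
    exact hx

end Pool.H59.UO
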