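import Pool.Agent.H59.UO.Aff
import Pool.Agent.H59.UO.Pln
import Pool.Agent.H81.Lv.Zh

/-! # Fin: the symmetric bodies of least lattice packing density are the affine images of the
smoothed octagon -/

set_option autoImplicit false

namespace Pool.H59.UO

open MeasureTheory Pool.H94.DL

theorem rsB : Pool.H61.Rh.RSBound cR :=
  Pool.H61.Rh.rs_of_zones Pool.H61.Rh.hqA (Pool.H61.Rh.zhA Pool.H61.Rh.ytOk)
    (Pool.H61.Rh.zhB Pool.H61.Rh.ytOk)

theorem cals : Cals (1 / 8192) :=
  cals_of_zones Pool.H61.Rh.hqA (Pool.H61.Rh.zhA Pool.H61.Rh.ytOk)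
    (Pool.H61.Rh.zhB Pool.H61.Rh.ytOk)

private theorem Fin_affine_iff {K : Set E2} :
    (∃ f : E2 ≃ᵃ[ℝ] E2, K = f '' Octa.octP) ↔
      ∃ (f : (ℝ × ℝ) ≃ₗ[ℝ] (ℝ × ℝ)) (o : ℝ × ℝ),
        TT '' K = (fun z => o + f z) '' Pool.H61.Sm.K0 := by
  constructor
  · rintro ⟨f, rfl⟩
    refine ⟨(TT.symm.toLinearEquiv.trans f.linear).trans TT.toLinearEquiv, TT (f 0), ?_⟩
    rw [← TT_octP, Set.image_image, Set.image_image]
    refine Set.image_congr fun x _ => ?_
    have h1 : f x = f 0 + f.linear x := by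
      have := f.map_vadd 0 x
      rw [vadd_eq_add, vadd_eq_add, add_zero] at this
      rw [this, add_comm]
    rw [h1, map_add]
    simp
  · rintro ⟨f, o, h⟩
    refine ⟨((TT.toLinearEquiv.trans f).trans TT.symm.toLinearEquiv).toAffineEquiv.trans
      (AffineEquiv.constVAdd ℝ E2 (TT.symm o)), ?_⟩
    rw [← TT_octP, Set.image_image] at h
    have h2 : K = TT.symm '' (TT '' K) := by
      rw [Set.image_image]
      simp
    rw [h2, h, Set.image_image]
    refine Set.image_congr fun x _ => ?_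
    simp

/-- the characterization of the bodies all of whose lattice packings have density at most `cR` -/
theorem minimisers {K : Set E2} (hk : IsCompact K) (hc : Convex ℝ K) (hi : (interior K).Nonempty)
    {c : E2} (hs : ∀ z ∈ K, c + c - z ∈ K) :
    (∀ v w, Pool.H61.Sm.Pack (TT '' K) v w →
      (volume (TT '' K)).toReal / |v.1 * w.2 - v.2 * w.1| ≤ cR) ↔
      ∃ f : E2 ≃ᵃ[ℝ] E2, K = f '' Octa.octP := by
  rw [Fin_affine_iff]
  constructor
  · intro h
    obtain ⟨f, hf⟩ := affine_of_pack (K := TT '' K) (o := TT c) cals rsB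
      (hc.linear_image TT.toLinearEquiv.toLinearMap)
      (TT.toHomeomorph.isCompact_image.2 hk)
      (by rw [interior_TT]; exact hi.image _)
      (by
        rintro _ ⟨z, hz, rfl⟩
        refine ⟨_, hs z hz, ?_⟩
        rw [map_sub, map_add]) h
    exact ⟨f, TT c, hf⟩
  · rintro ⟨f, o, h⟩ v w hp
    rw [h] at hp ⊢
    exact pack_affine f o v w (fun v w h => Pool.H61.Sm.octagon_density h) hp

/-- there is a lattice packing with density at least `cR` -/
theorem exists_pack {K : Set E2} (hk : IsCompact K) (hc : Convex ℝ K)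
    (hi : (interior K).Nonempty) {c : E2} (hs : ∀ z ∈ K, c + c - z ∈ K) :
    ∃ v w : ℝ × ℝ, Pool.H61.Sm.Pack (TT '' K) v w ∧
      cR ≤ (volume (TT '' K)).toReal / |v.1 * w.2 - v.2 * w.1| :=
  Pool.Agent.H66.RH.exists_lattice (c := cR) cR_lt.le Pool.H61.Sm.cR_pos rsB (TT '' K)
    (hc.linear_image TT.toLinearEquiv.toLinearMap)
    (TT.toHomeomorph.isCompact_image.2 hk)
    (by rw [interior_TT]; exact hi.image _) (TT c)
    (by
      rintro _ ⟨z, hz, rfl⟩
      refine ⟨_, hs z hz, ?_⟩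
      rw [map_sub, map_add])

end Pool.H59.UO
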