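import Pool.Agent.H59.UO.Df

/-! # NmB: elementary facts about norms of the plane

Equivalence with the Euclidean norm: `ν x ≤ |x.re| ν 1 + |x.im| ν I`; lower bound by compactness of
the unit circle.  `crp`: if `cr p q = 0` then `q = t p` or `p = 0`, `|t| = 1`, `|t - 1| = 1`,
impossible. -/

set_option autoImplicit false

namespace Pool.H59.UO

open Complex MeasureTheory Pool.H61.Rh

theorem Nm.zero {ν : ℂ → ℝ} (h : Nm ν) : ν 0 = 0 := by
  have h1 := h.hom 0 0
  simpa using h1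

theorem Nm.neg {ν : ℂ → ℝ} (h : Nm ν) (x : ℂ) : ν (-x) = ν x := by
  have h1 := h.hom (-1) x
  simpa using h1

theorem Nm.nonneg {ν : ℂ → ℝ} (h : Nm ν) (x : ℂ) : 0 ≤ ν x := by
  by_cases hx : x = 0
  · rw [hx, h.zero]
  · exact (h.pos x hx).le

private theorem NmB_up {ν : ℂ → ℝ} (h : Nm ν) (x : ℂ) : ν x ≤ (ν 1 + ν I) * ‖x‖ := by
  have h1 : ν x ≤ ν ((x.re : ℂ) * 1) + ν ((x.im : ℂ) * I) := by
    have h2 := h.tri ((x.re : ℂ) * 1) ((x.im : ℂ) * I)
    have h3 : (x.re : ℂ) * 1 + (x.im : ℂ) * I = x := by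
      rw [mul_one]
      exact Complex.re_add_im x
    rwa [h3] at h2
  rw [h.hom, h.hom] at h1
  have h4 := Complex.abs_re_le_norm x
  have h5 := Complex.abs_im_le_norm x
  have h6 := h.nonneg 1
  have h7 := h.nonneg I
  nlinarith

theorem Nm.lip {ν : ℂ → ℝ} (h : Nm ν) : ∃ C : ℝ, 0 < C ∧ ∀ x y, |ν x - ν y| ≤ C * ‖x - y‖ := by
  refine ⟨ν 1 + ν I, ?_, fun x y => ?_⟩
  · have h1 := h.pos 1 one_ne_zero
    have h2 := h.nonneg I
    linarith
  · have h1 := h.tri (x - y) y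
    have h2 := h.tri (y - x) x
    rw [sub_add_cancel] at h1 h2
    have h3 : ν (y - x) = ν (x - y) := by rw [← h.neg (x - y), neg_sub]
    have h4 := NmB_up h (x - y)
    rw [abs_le]
    constructor <;> linarith

theorem Nm.continuous {ν : ℂ → ℝ} (h : Nm ν) : Continuous ν := by
  obtain ⟨C, hC, hl⟩ := h.lip
  have h1 : LipschitzWith (Real.toNNReal C) ν := by
    refine LipschitzWith.of_dist_le_mul fun x y => ?_
    rw [Real.dist_eq, dist_eq_norm, Real.coe_toNNReal _ hC.le]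
    exact hl x y
  exact h1.continuous

theorem Nm.equiv {ν : ℂ → ℝ} (h : Nm ν) :
    ∃ c C : ℝ, 0 < c ∧ 0 < C ∧ (∀ x, c * ‖x‖ ≤ ν x) ∧ ∀ x, ν x ≤ C * ‖x‖ := by
  have hcomp : IsCompact (Metric.sphere (0 : ℂ) 1) := isCompact_sphere 0 1
  have hne : (Metric.sphere (0 : ℂ) 1).Nonempty := ⟨1, by simp⟩
  obtain ⟨z, hz, hmin⟩ := hcomp.exists_isMinOn hne h.continuous.continuousOn
  have hz1 : ‖z‖ = 1 := by simpa using hz
  have hz0 : z ≠ 0 := by
    intro h0
    rw [h0, norm_zero] at hz1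
    exact zero_ne_one hz1
  refine ⟨ν z, ν 1 + ν I, h.pos z hz0, ?_, fun x => ?_, fun x => NmB_up h x⟩
  · have h1 := h.pos 1 one_ne_zero
    have h2 := h.nonneg I
    linarith
  · by_cases hx : x = 0
    · rw [hx, norm_zero, mul_zero, h.zero]
    · have hn : 0 < ‖x‖ := norm_pos_iff.2 hx
      have h1 : ν z ≤ ν (((‖x‖⁻¹ : ℝ) : ℂ) * x) := by
        refine hmin ?_
        simp only [mem_sphere_zero_iff_norm, norm_mul, Complex.norm_real, norm_inv, norm_norm]
        exact inv_mul_cancel₀ hn.ne'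
      rw [h.hom, abs_of_pos (inv_pos.2 hn)] at h1
      have h2 : ν z * ‖x‖ ≤ ‖x‖⁻¹ * ν x * ‖x‖ := mul_le_mul_of_nonneg_right h1 hn.le
      have h3 : ‖x‖⁻¹ * ν x * ‖x‖ = ν x := by field_simp
      rwa [h3] at h2

theorem Nm.compact {ν : ℂ → ℝ} (h : Nm ν) : IsCompact {z : ℂ | ν z ≤ 1} := by
  obtain ⟨c, C, hc, -, hlow, -⟩ := h.equiv
  have h1 : IsClosed {z : ℂ | ν z ≤ 1} := isClosed_le h.continuous continuous_const
  refine Metric.isCompact_of_isClosed_isBounded h1 ?_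
  refine (Metric.isBounded_closedBall (x := (0 : ℂ)) (r := 1 / c)).subset fun z hz => ?_
  rw [mem_closedBall_zero_iff, le_div_iff₀ hc]
  have h2 := hlow z
  have h3 : ν z ≤ 1 := hz
  linarith

theorem Nm.convex {ν : ℂ → ℝ} (h : Nm ν) : Convex ℝ {z : ℂ | ν z ≤ 1} := by
  intro x hx y hy a b ha hb hab
  have hx' : ν x ≤ 1 := hx
  have hy' : ν y ≤ 1 := hy
  show ν (a • x + b • y) ≤ 1
  have h1 := h.tri (a • x) (b • y)
  have h2 : ν (a • x) = a * ν x := by
    rw [Complex.real_smul, h.hom, abs_of_nonneg ha]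
  have h3 : ν (b • y) = b * ν y := by
    rw [Complex.real_smul, h.hom, abs_of_nonneg hb]
  rw [h2, h3] at h1
  nlinarith

theorem Nm.vol_ne_top {ν : ℂ → ℝ} (h : Nm ν) : volume {z : ℂ | ν z ≤ 1} ≠ ⊤ :=
  h.compact.measure_lt_top.ne

theorem Nm.vol_pos {ν : ℂ → ℝ} (h : Nm ν) : 0 < Vol ν := by
  obtain ⟨c, C, -, hC, -, hup⟩ := h.equiv
  refine ENNReal.toReal_pos ?_ h.vol_ne_top
  have h1 : Metric.ball (0 : ℂ) (1 / C) ⊆ {z : ℂ | ν z ≤ 1} := by
    intro z hz
    rw [mem_ball_zero_iff, lt_div_iff₀ hC] at hz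
    have h2 := hup z
    show ν z ≤ 1
    linarith
  have h2 : 0 < volume (Metric.ball (0 : ℂ) (1 / C)) :=
    Metric.measure_ball_pos volume 0 (by positivity)
  exact (lt_of_lt_of_le h2 (measure_mono h1)).ne'

/-- monotonicity of the area -/
theorem Nm.vol_mono {ν ν' : ℂ → ℝ} (h : Nm ν) (hle : ∀ x, ν x ≤ ν' x) : Vol ν' ≤ Vol ν := by
  refine ENNReal.toReal_mono h.vol_ne_top (measure_mono fun z hz => ?_)
  have h1 : ν' z ≤ 1 := hz
  exact (hle z).trans h1

/-- strictly convex approximation -/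
theorem Nm.sn {ν : ℂ → ℝ} (h : Nm ν) {ε : ℝ} (hε : 0 < ε) : SN (fun z => ν z + ε * ‖z‖) where
  pos x hx := by
    have h1 := h.pos x hx
    have h2 : 0 ≤ ε * ‖x‖ := by positivity
    show 0 < ν x + ε * ‖x‖
    linarith
  hom t x := by
    show ν (t * x) + ε * ‖(t : ℂ) * x‖ = |t| * (ν x + ε * ‖x‖)
    rw [h.hom, norm_mul, Complex.norm_real, Real.norm_eq_abs]
    ring
  tri x y := by
    show ν (x + y) + ε * ‖x + y‖ ≤ ν x + ε * ‖x‖ + (ν y + ε * ‖y‖)
    have h1 := h.tri x y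
    have h2 := mul_le_mul_of_nonneg_left (norm_add_le x y) hε.le
    linarith
  strict x y hxy := by
    show ν (x + y) + ε * ‖x + y‖ < ν x + ε * ‖x‖ + (ν y + ε * ‖y‖)
    have h1 := h.tri x y
    have h2 : ‖x + y‖ < ‖x‖ + ‖y‖ := by
      have h3 : ¬ SameRay ℝ x y := by
        intro hs
        apply hxy
        rcases hs with h0 | h0 | ⟨r₁, r₂, h₁, h₂, h0⟩
        · rw [h0]
          simp [cr]
        · rw [h0]
          simp [cr]
        · have e1 := congrArg Complex.re h0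
          have e2 := congrArg Complex.im h0
          simp only [Complex.real_smul, Complex.mul_re, Complex.mul_im, Complex.ofReal_re,
            Complex.ofReal_im, zero_mul, sub_zero, add_zero] at e1 e2
          have e3 : r₁ * (x.re * y.im - x.im * y.re) = 0 := by linear_combination y.im * e1 - y.re * e2
          rcases mul_eq_zero.1 e3 with h5 | h5
          · exact absurd h5 h₁.ne'
          · exact h5
      exact lt_of_le_of_ne (norm_add_le x y) fun h4 => h3 (sameRay_iff_norm_add.2 h4)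
    have h3 := mul_lt_mul_of_pos_left h2 hε
    linarith

/-- the unit ball cut by a strip -/
theorem Nm.cut {ν : ℂ → ℝ} (h : Nm ν) (l : ℂ →L[ℝ] ℝ) : Nm (fun z => max (ν z) |l z|) where
  pos x hx := lt_of_lt_of_le (h.pos x hx) (le_max_left _ _)
  hom t x := by
    show max (ν (t * x)) |l (t * x)| = |t| * max (ν x) |l x|
    have h1 : (t : ℂ) * x = t • x := (Complex.real_smul).symm
    have h2 : |l ((t : ℂ) * x)| = |t| * |l x| := by
      rw [h1, map_smul, smul_eq_mul, abs_mul]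
    rw [h2, h.hom, mul_max_of_nonneg _ _ (abs_nonneg t)]
  tri x y := by
    show max (ν (x + y)) |l (x + y)| ≤ max (ν x) |l x| + max (ν y) |l y|
    refine max_le ?_ ?_
    · exact (h.tri x y).trans (add_le_add (le_max_left _ _) (le_max_left _ _))
    · rw [map_add]
      exact (abs_add_le _ _).trans (add_le_add (le_max_right _ _) (le_max_right _ _))

/-- the points of a hexagon are not parallel -/
theorem Nm.crp {ν : ℂ → ℝ} (h : Nm ν) {p q : ℂ} (hp : ν p = 1) (hq : ν q = 1)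
    (hr : ν (q - p) = 1) : cr p q ≠ 0 := by
  intro h0
  have hp0 : p ≠ 0 := by
    intro h1
    rw [h1, h.zero] at hp
    exact zero_ne_one hp
  have hpp : p.re * p.re + p.im * p.im ≠ 0 := by
    intro h1
    apply hp0
    have h2 : p.re = 0 := by nlinarith [mul_self_nonneg p.re, mul_self_nonneg p.im]
    have h3 : p.im = 0 := by nlinarith [mul_self_nonneg p.re, mul_self_nonneg p.im]
    exact Complex.ext h2 h3
  unfold cr at h0
  obtain ⟨t, ht⟩ : ∃ t : ℝ, q = t * p := by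
    refine ⟨(q.re * p.re + q.im * p.im) / (p.re * p.re + p.im * p.im), ?_⟩
    apply Complex.ext
    · simp only [Complex.mul_re, Complex.ofReal_re, Complex.ofReal_im, zero_mul, sub_zero]
      rw [div_mul_eq_mul_div, eq_div_iff hpp]
      linear_combination (-p.im) * h0
    · simp only [Complex.mul_im, Complex.ofReal_re, Complex.ofReal_im, zero_mul, add_zero]
      rw [div_mul_eq_mul_div, eq_div_iff hpp]
      linear_combination p.re * h0
  rw [ht, h.hom, hp, mul_one] at hq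
  have h1 : (t : ℂ) * p - p = ((t - 1 : ℝ) : ℂ) * p := by
    push_cast
    ring
  rw [ht, h1, h.hom, hp, mul_one] at hr
  rcases abs_eq (zero_le_one) |>.1 hq with h2 | h2
  · rw [h2] at hr
    norm_num at hr
  · rw [h2] at hr
    norm_num at hr

/-- the hexagon turned by one vertex -/
theorem Ins.rot {ν : ℂ → ℝ} (h : Nm ν) {p q : ℂ} (hi : Ins ν p q) :
    Ins ν q (q - p) ∧ cr q (q - p) = cr p q := by
  have h1 : cr q (q - p) = cr p q := by
    unfold cr
    rw [Complex.sub_re, Complex.sub_im]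
    ring
  refine ⟨⟨hi.q1, hi.r1, ?_, ?_⟩, h1⟩
  · have h2 : q - p - q = -p := by ring
    rw [h2, h.neg, hi.p1]
  · rw [h1]
    exact hi.cr0

/-- the opposite hexagon -/
theorem Ins.neg {ν : ℂ → ℝ} (h : Nm ν) {p q : ℂ} (hi : Ins ν p q) :
    Ins ν (-p) (-q) ∧ cr (-p) (-q) = cr p q := by
  have h1 : cr (-p) (-q) = cr p q := by
    unfold cr
    simp only [Complex.neg_re, Complex.neg_im]
    ring
  refine ⟨⟨?_, ?_, ?_, ?_⟩, h1⟩
  · rw [h.neg, hi.p1]
  · rw [h.neg, hi.q1]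
  · have h2 : -q - -p = -(q - p) := by ring
    rw [h2, h.neg, hi.r1]
  · rw [h1]
    exact hi.cr0

end Pool.H59.UO
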