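import Pool.Agent.H59.UO.NmB

/-! # Slc: thin slices at an extreme point

`K = {ν ≤ 1}` is compact and convex, `p` is an extreme point of `K` (the midpoint form of the
hypothesis: if `p` is in the open segment `x y`, `x, y ∈ K`, then a small `d` parallel to `x - y`
has `p ± d ∈ K`, so `d = 0`).  `S = K \ ball p ε` is compact, `C = convexHull ℝ S` is compact
(finite dimension) and `p ∉ C` (`extremePoints_convexHull_subset`).  Separate strictly
(`geometric_hahn_banach_point_closed` ...): `f p > s > f x` for `x ∈ C`.  If `ε ≤ 1/C₀` the point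
`0` is in `C`, so `s > 0` (one may assume `ε` small; or: if `s ≤ 0` then `C` is ... simply shrink
`ε`).  `l = f / s`. -/

set_option autoImplicit false

namespace Pool.H59.UO

open Complex MeasureTheory Pool.H61.Rh

private theorem Slc_compact_hull {Z : Set ℂ} (hZ : IsCompact Z) : IsCompact (convexHull ℝ Z) := by
  classical
  rcases Z.eq_empty_or_nonempty with h0 | ⟨z0, hz0⟩
  · rw [h0, convexHull_empty]
    exact isCompact_empty
  set Φ : (Fin 3 → ℝ) × (Fin 3 → ℂ) → ℂ := fun p => ∑ i, p.1 i • p.2 i with hΦ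
  have hc : Continuous Φ := by
    rw [hΦ]
    fun_prop
  have hK : IsCompact (stdSimplex ℝ (Fin 3) ×ˢ Set.pi Set.univ (fun _ : Fin 3 => Z)) :=
    (isCompact_stdSimplex ℝ (Fin 3)).prod (isCompact_univ_pi fun _ => hZ)
  have himg : convexHull ℝ Z = Φ '' (stdSimplex ℝ (Fin 3) ×ˢ Set.pi Set.univ
      (fun _ : Fin 3 => Z)) := by
    apply Set.Subset.antisymm
    · intro x hx
      obtain ⟨ι, hι, z, w, h1, h2, h3, h4, h5⟩ := eq_pos_convex_span_of_mem_convexHull hx
      have hcard : Fintype.card ι ≤ 3 := by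
        have := h2.card_le_finrank_succ
        have h6 : Module.finrank ℝ (vectorSpan ℝ (Set.range z)) ≤ 2 := by
          have := Submodule.finrank_le (vectorSpan ℝ (Set.range z))
          rwa [Complex.finrank_real_complex] at this
        omega
      obtain ⟨e⟩ := Function.Embedding.nonempty_of_card_le (α := ι) (β := Fin 3)
        (by rw [Fintype.card_fin]; exact hcard)
      refine ⟨(Function.extend e w 0, Function.extend e z (fun _ => z0)), ⟨⟨?_, ?_⟩, ?_⟩, ?_⟩
      · intro k
        by_cases hk : ∃ i, e i = k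
        · obtain ⟨i, rfl⟩ := hk
          change 0 ≤ Function.extend e w 0 (e i)
          rw [e.injective.extend_apply]
          exact (h3 i).le
        · change 0 ≤ Function.extend e w 0 k
          rw [Function.extend_apply' _ _ _ hk]
          exact le_rfl
      · change ∑ k, Function.extend e w 0 k = 1
        rw [← h4]
        symm
        refine Fintype.sum_of_injective e e.injective _ _ ?_ ?_
        · intro k hk
          rw [Function.extend_apply' _ _ _ (by simpa using hk)]
          rfl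
        · intro i
          rw [e.injective.extend_apply]
      · intro k _
        change Function.extend e z (fun _ => z0) k ∈ Z
        by_cases hk : ∃ i, e i = k
        · obtain ⟨i, rfl⟩ := hk
          rw [e.injective.extend_apply]
          exact h1 ⟨i, rfl⟩
        · rw [Function.extend_apply' _ _ _ hk]
          exact hz0
      · change ∑ k, Function.extend e w 0 k • Function.extend e z (fun _ => z0) k = x
        rw [← h5]
        symm
        refine Fintype.sum_of_injective e e.injective _ _ ?_ ?_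
        · intro k hk
          rw [Function.extend_apply' _ _ _ (by simpa using hk)]
          simp
        · intro i
          rw [e.injective.extend_apply, e.injective.extend_apply]
    · rintro _ ⟨⟨w, z⟩, ⟨hw, hz⟩, rfl⟩
      exact (convex_convexHull ℝ Z).sum_mem (fun i _ => hw.1 i) hw.2
        (fun i _ => subset_convexHull ℝ Z (hz i (Set.mem_univ i)))
  rw [himg]
  exact hK.image hc

/-- `p` is an extreme point of the unit ball -/
private theorem Slc_ext {ν : ℂ → ℝ} (h : Nm ν) {p : ℂ} (hp : ν p = 1)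
    (hex : ∀ x, ν (p + x) ≤ 1 → ν (p - x) ≤ 1 → x = 0) :
    p ∈ ({z : ℂ | ν z ≤ 1}).extremePoints ℝ := by
  rw [mem_extremePoints_iff_left]
  refine ⟨le_of_eq hp, fun x₁ hx₁ x₂ hx₂ hseg => ?_⟩
  obtain ⟨a, b, ha, hb, hab, hpe⟩ := hseg
  have hc := h.convex
  obtain ⟨t, ht, hta, htb⟩ : ∃ t : ℝ, 0 < t ∧ t ≤ a ∧ t ≤ b :=
    ⟨min a b, lt_min ha hb, min_le_left _ _, min_le_right _ _⟩
  have h1 : ν (p + t • (x₁ - x₂)) ≤ 1 := by
    have h2 := hc hx₁ hx₂ (show 0 ≤ a + t by linarith) (show 0 ≤ b - t by linarith)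
      (by linarith)
    have e : (a + t) • x₁ + (b - t) • x₂ = p + t • (x₁ - x₂) := by
      rw [← hpe]
      module
    rw [e] at h2
    exact h2
  have h3 : ν (p - t • (x₁ - x₂)) ≤ 1 := by
    have h2 := hc hx₁ hx₂ (show 0 ≤ a - t by linarith) (show 0 ≤ b + t by linarith)
      (by linarith)
    have e : (a - t) • x₁ + (b + t) • x₂ = p - t • (x₁ - x₂) := by
      rw [← hpe]
      module
    rw [e] at h2
    exact h2
  have h4 := hex _ h1 h3
  have h5 : x₁ - x₂ = 0 := by
    rcases smul_eq_zero.1 h4 with h6 | h6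
    · exact absurd h6 ht.ne'
    · exact h6
  have h6 : x₂ = x₁ := (sub_eq_zero.1 h5).symm
  rw [← hpe, h6, ← add_smul, hab, one_smul]

theorem Nm.slice {ν : ℂ → ℝ} (h : Nm ν) {p : ℂ} (hp : ν p = 1)
    (hex : ∀ x, ν (p + x) ≤ 1 → ν (p - x) ≤ 1 → x = 0) {ε : ℝ} (hε : 0 < ε) :
    ∃ l : ℂ →L[ℝ] ℝ, 1 < l p ∧ ∀ x, ν x ≤ 1 → 1 ≤ l x → ‖x - p‖ < ε := by
  have hp0 : p ≠ 0 := by
    rintro rfl
    rw [h.zero] at hp
    exact zero_ne_one hp
  have hpn : 0 < ‖p‖ := norm_pos_iff.2 hp0
  obtain ⟨δ, hδ, hδε, hδp⟩ : ∃ δ : ℝ, 0 < δ ∧ δ ≤ ε ∧ δ ≤ ‖p‖ :=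
    ⟨min ε ‖p‖, lt_min hε hpn, min_le_left _ _, min_le_right _ _⟩
  set K : Set ℂ := {z : ℂ | ν z ≤ 1} with hK
  set S : Set ℂ := K \ Metric.ball p δ with hS
  have hSc : IsCompact S := h.compact.diff Metric.isOpen_ball
  have hCc : IsCompact (convexHull ℝ S) := Slc_compact_hull hSc
  have h0S : (0 : ℂ) ∈ S := by
    refine ⟨?_, ?_⟩
    · show ν 0 ≤ 1
      rw [h.zero]
      exact zero_le_one
    · rw [Metric.mem_ball, dist_eq_norm, zero_sub, norm_neg]
      exact not_lt.2 hδp
  have hpC : p ∉ convexHull ℝ S := by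
    intro hpC
    have h1 := Slc_ext h hp hex
    have h2 : convexHull ℝ S ⊆ K := convexHull_min Set.sdiff_subset h.convex
    have h3 := inter_extremePoints_subset_extremePoints_of_subset (𝕜 := ℝ) h2 ⟨hpC, h1⟩
    have h4 := extremePoints_convexHull_subset h3
    exact h4.2 (Metric.mem_ball_self hδ)
  obtain ⟨f, u, hfu, hup⟩ := geometric_hahn_banach_closed_point (convex_convexHull ℝ S)
    hCc.isClosed hpC
  have hu : 0 < u := by
    have := hfu 0 (subset_convexHull ℝ S h0S)
    rwa [map_zero] at this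
  refine ⟨u⁻¹ • f, ?_, fun x hx hlx => ?_⟩
  · show 1 < u⁻¹ * f p
    rw [← div_eq_inv_mul, one_lt_div hu]
    exact hup
  · have h1 : 1 ≤ u⁻¹ * f x := hlx
    rw [← div_eq_inv_mul, one_le_div hu] at h1
    have h2 : x ∉ S := fun hxS => absurd (hfu x (subset_convexHull ℝ S hxS)) (not_lt.2 h1)
    have h3 : x ∈ Metric.ball p δ := by
      by_contra h4
      exact h2 ⟨hx, h4⟩
    rw [Metric.mem_ball, dist_eq_norm] at h3
    exact lt_of_lt_of_le h3 hδε

/-- a slice has positive area -/
theorem Nm.cut_vol {ν : ℂ → ℝ} (h : Nm ν) {p : ℂ} (hp : ν p = 1) {l : ℂ →L[ℝ] ℝ}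
    (hl : 1 < l p) : Vol (fun z => max (ν z) |l z|) < Vol ν := by
  set K : Set ℂ := {z : ℂ | ν z ≤ 1} with hK
  set K' : Set ℂ := {z : ℂ | max (ν z) |l z| ≤ 1} with hK'
  set U : Set ℂ := {z : ℂ | ν z < 1} ∩ {z : ℂ | 1 < l z} with hU
  have hsub : K' ∪ U ⊆ K := by
    rintro z (hz | hz)
    · have hz2 : max (ν z) |l z| ≤ 1 := hz
      exact (le_max_left _ _).trans hz2
    · have hz2 : ν z < 1 := hz.1
      exact le_of_lt hz2
  have hdisj : Disjoint K' U := by
    rw [Set.disjoint_left]
    intro z hz hz'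
    have hz2 : max (ν z) |l z| ≤ 1 := hz
    have h1 : |l z| ≤ 1 := (le_max_right _ _).trans hz2
    have h2 : 1 < l z := hz'.2
    have h3 := le_abs_self (l z)
    linarith
  have hUo : IsOpen U :=
    (isOpen_lt h.continuous continuous_const).inter (isOpen_lt continuous_const l.continuous)
  have hUne : U.Nonempty := by
    have hlp : 0 < l p := by linarith
    obtain ⟨t, ht1, ht2⟩ : ∃ t : ℝ, 1 / l p < t ∧ t < 1 :=
      exists_between ((div_lt_one hlp).2 hl)
    have ht0 : 0 < t := lt_trans (by positivity) ht1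
    refine ⟨(t : ℂ) * p, ?_, ?_⟩
    · show ν ((t : ℂ) * p) < 1
      rw [h.hom, hp, abs_of_pos ht0, mul_one]
      exact ht2
    · show 1 < l ((t : ℂ) * p)
      rw [← Complex.real_smul, map_smul, smul_eq_mul]
      rwa [div_lt_iff₀ hlp] at ht1
  have hUpos : 0 < volume U := hUo.measure_pos volume hUne
  have hfin : volume K ≠ ⊤ := h.vol_ne_top
  have hfin' : volume K' ≠ ⊤ :=
    ne_top_of_le_ne_top hfin (measure_mono (Set.subset_union_left.trans hsub))
  have hlt : volume K' < volume K :=
    calc volume K' < volume K' + volume U := ENNReal.lt_add_right hfin' hUpos.ne'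
      _ = volume (K' ∪ U) := (measure_union hdisj hUo.measurableSet).symm
      _ ≤ volume K := measure_mono hsub
  unfold Vol
  exact (ENNReal.toReal_lt_toReal hfin' hfin).2 hlt

end Pool.H59.UO
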