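import Pool.Agent.H59.UO.Exs
import Pool.Agent.H59.UO.CrU
import Pool.Agent.H59.UO.Slc

/-! # NoE: a vertex of a hexagon which is too large is not an extreme point

Suppose not: `hex` of `Nm.slice` holds at `p`.  For `n` take the slice `l_n` with `ε = 1/(n+1)`,
`ν_n = max ν |l_n|` (`Nm.cut`), `Vol ν_n < Vol ν` (`Nm.cut_vol`), `(p_n, q_n)` inscribed in `ν_n`
with `cR (4 cr p_n q_n) ≤ Vol ν_n < Vol ν` (`Nm.exists_ins`).  If the three points `p_n, q_n,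
q_n - p_n` had `ν = 1`, `Mnl.low` would be violated.  So one of them, `x`, has `ν x < 1`,
`|l_n x| = 1`, hence `‖x - p‖ < 1/(n+1)` or `‖-x - p‖ < 1/(n+1)`.  Turn the hexagon (`Ins.rot`,
`Ins.neg`, for the norm `ν_n`) so that `‖p_n - p‖ < 1/(n+1)`.  Every `x` with `ν_n x = 1` has
`|ν x - 1| ≤ C/(n+1)` (`Nm.lip`: either `ν x = 1` or `x` is close to `±p`).  Limit of a subsequence:
`p_n → p`, `q_n → q'`, `ν q' = ν (q' - p) = 1`, `0 ≤ cr p q'`, so `Ins ν p q'` (`Nm.crp`),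
`cR (4 cr p q') ≤ Vol ν`, but `cr p q' = cr p q` (`Nm.cr_eq`). -/

set_option autoImplicit false

namespace Pool.H59.UO

open Complex MeasureTheory Pool.H61.Rh

/-- a point of the cut unit circle lies on the old one or is close to `±p` -/
private lemma NoE_near {ν : ℂ → ℝ} (h : Nm ν) {p : ℂ} {l : ℂ →L[ℝ] ℝ} {ε : ℝ}
    (hl : ∀ x, ν x ≤ 1 → 1 ≤ l x → ‖x - p‖ < ε) {x : ℂ} (hx : max (ν x) |l x| = 1) :
    ν x = 1 ∨ ‖x - p‖ < ε ∨ ‖-x - p‖ < ε := by
  have h1 : ν x ≤ 1 := hx ▸ le_max_left _ _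
  rcases h1.eq_or_lt with h2 | h2
  · exact Or.inl h2
  have h3 : |l x| = 1 := by
    rcases max_choice (ν x) |l x| with h4 | h4
    · rw [h4] at hx; exact absurd hx h2.ne
    · rw [h4] at hx; exact hx
  rcases abs_eq (zero_le_one' ℝ) |>.1 h3 with h4 | h4
  · exact Or.inr (Or.inl (hl x h1 h4.ge))
  · refine Or.inr (Or.inr (hl (-x) (by rw [h.neg]; exact h1) ?_))
    rw [map_neg, h4, neg_neg]

/-- the hexagon of one slice, turned -/
private lemma NoE_step (hc : cR ≤ 9025 / 10000) (H : RSBound cR) {ν : ℂ → ℝ} (h : Mnl ν) {p : ℂ}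
    (hp : ν p = 1) (hex : ∀ x, ν (p + x) ≤ 1 → ν (p - x) ≤ 1 → x = 0) {C : ℝ} (hC : 0 < C)
    (hlip : ∀ x y, |ν x - ν y| ≤ C * ‖x - y‖) {ε : ℝ} (hε : 0 < ε) :
    ∃ P Q : ℂ, ‖P - p‖ < ε ∧ ν Q ≤ 1 ∧ |ν Q - 1| ≤ C * ε ∧ |ν (Q - P) - 1| ≤ C * ε ∧
      0 < cr P Q ∧ cR * (4 * cr P Q) ≤ Vol ν := by
  obtain ⟨l, hl1, hl2⟩ := h.nm.slice hp hex hε
  have hN := h.nm.cut l
  have hV := h.nm.cut_vol hp hl1
  obtain ⟨a, b, hab, hv⟩ := hN.exists_ins hc H
  -- the estimate for all points of the cut circle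
  have hest : ∀ x, max (ν x) |l x| = 1 → |ν x - 1| ≤ C * ε := by
    intro x hx
    have hCe : 0 ≤ C * ε := by positivity
    rcases NoE_near h.nm hl2 hx with h3 | h3 | h3
    · rw [h3, sub_self, abs_zero]; exact hCe
    · rw [← hp]
      exact (hlip x p).trans (mul_le_mul_of_nonneg_left h3.le hC.le)
    · rw [← hp, ← h.nm.neg x]
      exact (hlip (-x) p).trans (mul_le_mul_of_nonneg_left h3.le hC.le)
  -- it is enough to find a turned hexagon
  suffices hs : ∃ P Q : ℂ, Ins (fun z => max (ν z) |l z|) P Q ∧ cr P Q = cr a b ∧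
      (‖P - p‖ < ε ∨ ‖-P - p‖ < ε) by
    obtain ⟨P, Q, hPQ, hcr, hn⟩ := hs
    have hfin : ∀ P Q : ℂ, Ins (fun z => max (ν z) |l z|) P Q → cr P Q = cr a b →
        ‖P - p‖ < ε → ∃ P Q : ℂ, ‖P - p‖ < ε ∧ ν Q ≤ 1 ∧ |ν Q - 1| ≤ C * ε ∧
          |ν (Q - P) - 1| ≤ C * ε ∧ 0 < cr P Q ∧ cR * (4 * cr P Q) ≤ Vol ν := by
      intro P Q hi hcr hn
      refine ⟨P, Q, hn, ?_, hest _ hi.q1, hest _ hi.r1, hi.cr0, ?_⟩
      · exact (le_max_left (ν Q) |l Q|).trans_eq hi.q1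
      · rw [hcr]; exact hv.trans hV.le
    rcases hn with hn | hn
    · exact hfin P Q hPQ hcr hn
    · obtain ⟨h3, h4⟩ := Ins.neg hN hPQ
      exact hfin (-P) (-Q) h3 (h4.trans hcr) hn
  obtain ⟨hr1, hr2⟩ := Ins.rot hN hab
  obtain ⟨hs1, hs2⟩ := Ins.rot hN hr1
  rcases NoE_near h.nm hl2 hab.p1 with h3 | h3
  · rcases NoE_near h.nm hl2 hab.q1 with h4 | h4
    · rcases NoE_near h.nm hl2 hab.r1 with h5 | h5
      · exact absurd (h.low a b ⟨h3, h4, h5, hab.cr0⟩) (not_le.2 (hv.trans_lt hV))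
      · exact ⟨b - a, b - a - b, hs1, hs2.trans hr2, h5⟩
    · exact ⟨b, b - a, hr1, hr2, h4⟩
  · exact ⟨a, b, hab, rfl, h3⟩

theorem Mnl.nonext (hc : cR ≤ 9025 / 10000) (H : RSBound cR) {ν : ℂ → ℝ} (h : Mnl ν) {p q : ℂ}
    (h1 : Ins ν p q) (h2 : Vol ν < cR * (4 * cr p q)) :
    ∃ x, x ≠ 0 ∧ ν (p + x) ≤ 1 ∧ ν (p - x) ≤ 1 := by
  by_contra hcon
  push Not at hcon
  have hex : ∀ x, ν (p + x) ≤ 1 → ν (p - x) ≤ 1 → x = 0 := by
    intro x hx1 hx2
    by_contra h3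
    exact absurd hx2 (not_le.2 (hcon x h3 hx1))
  obtain ⟨C, hC, hlip⟩ := h.nm.lip
  have hstep := fun n : ℕ => NoE_step hc H h h1.p1 hex hC hlip
    (ε := 1 / ((n : ℝ) + 1)) (by positivity)
  choose P Q hP hQ1 hQ hR hcr hV using hstep
  have hcont := h.nm.continuous
  obtain ⟨q', -, φ, hφ, hlim⟩ := h.nm.compact.tendsto_subseq (x := Q) hQ1
  have hz : Filter.Tendsto (fun n : ℕ => 1 / ((n : ℝ) + 1)) Filter.atTop (nhds 0) :=
    tendsto_one_div_add_atTop_nhds_zero_nat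
  have hPl : Filter.Tendsto P Filter.atTop (nhds p) := by
    rw [tendsto_iff_norm_sub_tendsto_zero]
    exact squeeze_zero (fun n => norm_nonneg _) (fun n => (hP n).le) hz
  have hPl' := hPl.comp hφ.tendsto_atTop
  have hCz : Filter.Tendsto (fun n : ℕ => C * (1 / ((n : ℝ) + 1))) Filter.atTop (nhds 0) := by
    simpa using hz.const_mul C
  have hone : ∀ u : ℕ → ℝ, (∀ n, |u n - 1| ≤ C * (1 / ((n : ℝ) + 1))) →
      Filter.Tendsto u Filter.atTop (nhds 1) := by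
    intro u hu
    rw [tendsto_iff_norm_sub_tendsto_zero]
    exact squeeze_zero (fun n => norm_nonneg _) hu hCz
  have e1 : ν q' = 1 := by
    refine tendsto_nhds_unique ((hcont.tendsto q').comp hlim) ?_
    exact (hone (fun n => ν (Q n)) hQ).comp hφ.tendsto_atTop
  have e2 : ν (q' - p) = 1 := by
    refine tendsto_nhds_unique ((hcont.tendsto (q' - p)).comp (hlim.sub hPl')) ?_
    exact (hone (fun n => ν (Q n - P n)) hR).comp hφ.tendsto_atTop
  have hcl : Filter.Tendsto (fun n => cr (P (φ n)) (Q (φ n))) Filter.atTop (nhds (cr p q')) := by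
    unfold cr
    have a1 := (Complex.continuous_re.tendsto _).comp hPl'
    have a2 := (Complex.continuous_im.tendsto _).comp hPl'
    have a3 := (Complex.continuous_re.tendsto _).comp hlim
    have a4 := (Complex.continuous_im.tendsto _).comp hlim
    exact (a1.mul a4).sub (a2.mul a3)
  have e3 : 0 ≤ cr p q' := ge_of_tendsto' hcl fun n => (hcr _).le
  have e4 : 0 < cr p q' := lt_of_le_of_ne e3 (Ne.symm (h.nm.crp h1.p1 e1 e2))
  have e5 : cR * (4 * cr p q') ≤ Vol ν :=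
    le_of_tendsto' ((hcl.const_mul 4).const_mul cR) fun n => hV _
  rw [h.nm.cr_eq ⟨h1.p1, e1, e2, e4⟩ h1] at e5
  exact absurd e5 (not_le.2 h2)

end Pool.H59.UO
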