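import Pool.Agent.H59.UO.Df

/-! # Ode: two frames with the same coefficient differ by a constant linear map

`a1 τ = a' (τ + d)`, `b1 τ = b' (τ + d)` and `a, b` solve `a' = i (a - conj y b)`,
`b' = i (y a - b)` with the same `y`.  `α = a1 conj a - b1 conj b` and `β = b1 a - a1 b` have
derivative `0`, and `a1 = α a + β conj b`, `b1 = α b + β conj a` because `|a|² - |b|² = 1`;
`|α|² - |β|² = (|a1|² - |b1|²)(|a|² - |b|²) = 1`. -/

set_option autoImplicit false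

namespace Pool.H59.UO

open Complex MeasureTheory Pool.H61.Rh

/-- two solutions of the linear system with the same coefficient -/
theorem ode_pair {a1 b1 a2 b2 y : ℝ → ℂ}
    (ha1 : ∀ τ, HasDerivAt a1 (I * (a1 τ - (starRingEnd ℂ) (y τ) * b1 τ)) τ)
    (hb1 : ∀ τ, HasDerivAt b1 (I * (y τ * a1 τ - b1 τ)) τ)
    (hn1 : ∀ τ, normSq (a1 τ) - normSq (b1 τ) = 1)
    (ha2 : ∀ τ, HasDerivAt a2 (I * (a2 τ - (starRingEnd ℂ) (y τ) * b2 τ)) τ)
    (hb2 : ∀ τ, HasDerivAt b2 (I * (y τ * a2 τ - b2 τ)) τ)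
    (hn2 : ∀ τ, normSq (a2 τ) - normSq (b2 τ) = 1) :
    ∃ α β : ℂ, normSq α - normSq β = 1 ∧
      ∀ τ, a2 τ = α * a1 τ + β * (starRingEnd ℂ) (b1 τ) ∧
        b2 τ = α * b1 τ + β * (starRingEnd ℂ) (a1 τ) := by
  have hca : ∀ τ, HasDerivAt (fun τ => (starRingEnd ℂ) (a1 τ))
      ((starRingEnd ℂ) (I * (a1 τ - (starRingEnd ℂ) (y τ) * b1 τ))) τ := fun τ => (ha1 τ).star
  have hcb : ∀ τ, HasDerivAt (fun τ => (starRingEnd ℂ) (b1 τ))
      ((starRingEnd ℂ) (I * (y τ * a1 τ - b1 τ))) τ := fun τ => (hb1 τ).star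
  have hα : ∀ τ, HasDerivAt (fun τ => a2 τ * (starRingEnd ℂ) (a1 τ) -
      b2 τ * (starRingEnd ℂ) (b1 τ)) 0 τ := by
    intro τ
    have e := ((ha2 τ).mul (hca τ)).sub ((hb2 τ).mul (hcb τ))
    refine e.congr_deriv ?_
    simp only [map_mul, map_sub, conj_I, Complex.conj_conj]
    ring
  have hβ : ∀ τ, HasDerivAt (fun τ => b2 τ * a1 τ - a2 τ * b1 τ) 0 τ := by
    intro τ
    have e := ((hb2 τ).mul (ha1 τ)).sub ((ha2 τ).mul (hb1 τ))
    refine e.congr_deriv ?_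
    ring
  have cα : ∀ τ τ', a2 τ * (starRingEnd ℂ) (a1 τ) - b2 τ * (starRingEnd ℂ) (b1 τ) =
      a2 τ' * (starRingEnd ℂ) (a1 τ') - b2 τ' * (starRingEnd ℂ) (b1 τ') :=
    is_const_of_deriv_eq_zero (fun s => (hα s).differentiableAt) (fun s => (hα s).deriv)
  have cβ : ∀ τ τ', b2 τ * a1 τ - a2 τ * b1 τ = b2 τ' * a1 τ' - a2 τ' * b1 τ' :=
    is_const_of_deriv_eq_zero (fun s => (hβ s).differentiableAt) (fun s => (hβ s).deriv)
  have hw1 : ∀ τ, a1 τ * (starRingEnd ℂ) (a1 τ) - b1 τ * (starRingEnd ℂ) (b1 τ) = 1 := by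
    intro τ
    rw [mul_conj, mul_conj, ← ofReal_sub, hn1, ofReal_one]
  refine ⟨a2 0 * (starRingEnd ℂ) (a1 0) - b2 0 * (starRingEnd ℂ) (b1 0),
    b2 0 * a1 0 - a2 0 * b1 0, ?_, fun τ => ?_⟩
  · have h1 := hn1 0
    have h2 := hn2 0
    have h3 : normSq (a2 0 * (starRingEnd ℂ) (a1 0) - b2 0 * (starRingEnd ℂ) (b1 0)) -
        normSq (b2 0 * a1 0 - a2 0 * b1 0) =
        (normSq (a2 0) - normSq (b2 0)) * (normSq (a1 0) - normSq (b1 0)) := by
      generalize a1 0 = A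
      generalize b1 0 = B
      generalize a2 0 = C
      generalize b2 0 = D
      simp only [normSq_apply, sub_re, sub_im, mul_re, mul_im, conj_re, conj_im]
      ring
    rw [h3, h1, h2, one_mul]
  · rw [cα 0 τ, cβ 0 τ]
    have h1 := hw1 τ
    constructor
    · linear_combination -(a2 τ) * h1
    · linear_combination -(b2 τ) * h1

theorem ode {T T' d : ℝ} {a b y a' b' y' : ℝ → ℂ} (h : RS T a b y) (h' : RS T' a' b' y')
    (hy : ∀ τ, y' (τ + d) = y τ) :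
    ∃ α β : ℂ, normSq α - normSq β = 1 ∧
      ∀ τ, a' (τ + d) + b' (τ + d) = hx α β (a τ + b τ) := by
  obtain ⟨α, β, hn, hab⟩ := ode_pair (a2 := fun τ => a' (τ + d)) (b2 := fun τ => b' (τ + d))
    h.ha h.hb h.hn (fun τ => by rw [← hy]; exact (h'.ha (τ + d)).comp_add_const τ d)
    (fun τ => by rw [← hy]; exact (h'.hb (τ + d)).comp_add_const τ d) (fun τ => h'.hn _)
  refine ⟨α, β, hn, fun τ => ?_⟩
  rw [(hab τ).1, (hab τ).2]
  unfold hx
  rw [map_add]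
  ring

end Pool.H59.UO
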