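import Pool.Agent.H59.UO.Df
import Pool.Agent.H61.Rh.B2b

/-! # PcF: the limit curve, with values in a given closed set

Copy of `Pool/Agent/H61/Rh/B3.lean` with one more conclusion. -/

set_option autoImplicit false

namespace Pool.H59.UO

open Complex Finset Pool.H61.Rh

/-- the floor -/
private noncomputable def PcF_fl (k : ℕ) (u : ℝ) : ℤ := ⌊u * ((k : ℝ) + 1)⌋

private lemma PcF_fl_mono (k : ℕ) {u v : ℝ} (h : u ≤ v) : PcF_fl k u ≤ PcF_fl k v :=
  Int.floor_le_floor (mul_le_mul_of_nonneg_right h (by positivity))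

private lemma PcF_fl_add (k : ℕ) (u : ℝ) (j : ℕ) :
    PcF_fl k (u + j) = PcF_fl k u + j * ((k + 1 : ℕ) : ℤ) := by
  unfold PcF_fl
  have : (u + j) * ((k : ℝ) + 1) = u * ((k : ℝ) + 1) + (((j * ((k + 1 : ℕ) : ℤ) : ℤ)) : ℝ) := by
    push_cast
    ring
  rw [this, Int.floor_add_intCast]

private lemma PcF_fl1 (k : ℕ) (u : ℝ) : PcF_fl k (u + 1) = PcF_fl k u + ((k + 1 : ℕ) : ℤ) := by
  have := PcF_fl_add k u 1
  simpa using this

private lemma PcF_fl2 (k : ℕ) (u : ℝ) : PcF_fl k (u + 2) = PcF_fl k u + 2 * ((k + 1 : ℕ) : ℤ) := by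
  have := PcF_fl_add k u 2
  simpa using this

private lemma PcF_fl3 (k : ℕ) (u : ℝ) : PcF_fl k (u + 3) = PcF_fl k u + 3 * ((k + 1 : ℕ) : ℤ) := by
  have := PcF_fl_add k u 3
  simpa using this

private lemma PcF_fl_zero (k : ℕ) : PcF_fl k 0 = 0 := by simp [PcF_fl]

private lemma PcF_fl_one (k : ℕ) : PcF_fl k 1 = ((k + 1 : ℕ) : ℤ) := by
  have := PcF_fl1 k 0
  rw [PcF_fl_zero, zero_add, zero_add] at this
  exact this

private lemma PcF_inv : Filter.Tendsto (fun k : ℕ => 1 / ((k : ℝ) + 1))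
    (Filter.hyperfilter ℕ : Filter ℕ) (nhds 0) :=
  tendsto_one_div_add_atTop_nhds_zero_nat.mono_left Nat.hyperfilter_le_atTop

private lemma PcF_fl_lim (u : ℝ) : Filter.Tendsto (fun k : ℕ => (PcF_fl k u : ℝ) / ((k : ℝ) + 1))
    (Filter.hyperfilter ℕ : Filter ℕ) (nhds u) := by
  have h1 : Filter.Tendsto (fun k : ℕ => u - 1 / ((k : ℝ) + 1))
      (Filter.hyperfilter ℕ : Filter ℕ) (nhds u) := by
    have := (tendsto_const_nhds (x := u)).sub PcF_inv
    simpa using this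
  refine tendsto_of_tendsto_of_tendsto_of_le_of_le h1 tendsto_const_nhds ?_ ?_
  · intro k
    have hk : (0 : ℝ) < (k : ℝ) + 1 := by positivity
    have h2 := Int.sub_one_lt_floor (u * ((k : ℝ) + 1))
    show u - 1 / ((k : ℝ) + 1) ≤ (PcF_fl k u : ℝ) / ((k : ℝ) + 1)
    rw [le_div_iff₀ hk, sub_mul, one_div, inv_mul_cancel₀ hk.ne']
    exact h2.le
  · intro k
    have hk : (0 : ℝ) < (k : ℝ) + 1 := by positivity
    show (PcF_fl k u : ℝ) / ((k : ℝ) + 1) ≤ u
    rw [div_le_iff₀ hk]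
    exact Int.floor_le _

private lemma PcF_diff_lim (u v : ℝ) :
    Filter.Tendsto (fun k : ℕ => ((PcF_fl k v : ℝ) - PcF_fl k u) / ((k + 1 : ℕ) : ℝ))
    (Filter.hyperfilter ℕ : Filter ℕ) (nhds (v - u)) := by
  have := (PcF_fl_lim v).sub (PcF_fl_lim u)
  refine this.congr fun k => ?_
  push_cast
  rw [sub_div]

private lemma PcF_lim {E : Type*} [NormedAddCommGroup E] [ProperSpace E] (f : ℕ → E) (C : ℝ)
    (hf : ∀ k, ‖f k‖ ≤ C) :
    ∃ x, Filter.Tendsto f (Filter.hyperfilter ℕ : Filter ℕ) (nhds x) := by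
  have hc := isCompact_closedBall (0 : E) C
  obtain ⟨x, -, hx⟩ := hc.ultrafilter_le_nhds ((Filter.hyperfilter ℕ).map f) (by
    rw [Filter.le_principal_iff]
    show f ⁻¹' Metric.closedBall (0 : E) C ∈ (Filter.hyperfilter ℕ : Filter ℕ)
    refine Filter.mem_of_superset Filter.univ_mem ?_
    intro k _
    simpa using hf k)
  exact ⟨x, hx⟩

private lemma PcF_cr {f g : ℕ → ℂ} {x y : ℂ} {l : Filter ℕ} (hf : Filter.Tendsto f l (nhds x))
    (hg : Filter.Tendsto g l (nhds y)) :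
    Filter.Tendsto (fun k => cr (f k) (g k)) l (nhds (cr x y)) :=
  (continuous_cr.tendsto (x, y)).comp (hf.prodMk_nhds hg)

theorem exists_PC' (A : ℝ) {F : Set ℂ} (hF : IsClosed F)
    (h : ∀ k : ℕ, ∃ (g : ℤ → ℂ) (S : ℤ → ℝ), DC (k + 1) (A + 72 / ((k : ℝ) + 1)) g S ∧
      ∀ m, g m ∈ F) :
    ∃ (γ : ℝ → ℂ) (S : ℝ → ℝ), PC A γ S ∧ ∀ u, γ u ∈ F := by
  choose g S hDF using h
  have hD := fun k => (hDF k).1
  have hγe : ∀ u : ℝ, ∃ x, Filter.Tendsto (fun k => g k (PcF_fl k u))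
      (Filter.hyperfilter ℕ : Filter ℕ) (nhds x) :=
    fun u => PcF_lim _ 7 fun k => (hD k).bdd _
  have hSb : ∀ (u : ℝ) (k : ℕ), ‖S k (PcF_fl k u)‖ ≤ 50 * (|u| + 1) := by
    intro u k
    have hk : (0 : ℝ) < ((k + 1 : ℕ) : ℝ) := by positivity
    have hk1 : (1 : ℝ) ≤ ((k + 1 : ℕ) : ℝ) := by push_cast; linarith [(Nat.cast_nonneg k : (0 : ℝ) ≤ k)]
    have f1 : (PcF_fl k u : ℝ) ≤ u * ((k + 1 : ℕ) : ℝ) := by
      push_cast
      exact Int.floor_le _
    have f2 : u * ((k + 1 : ℕ) : ℝ) - 1 ≤ (PcF_fl k u : ℝ) := by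
      push_cast
      exact (Int.sub_one_lt_floor _).le
    rw [Real.norm_eq_abs]
    rcases le_total 0 (PcF_fl k u) with h0 | h0
    · have e1 := (hD k).Slow' (Nat.succ_pos k) 0 _ h0
      have e2 := (hD k).Sup' (Nat.succ_pos k) 0 _ h0
      rw [(hD k).S0] at e1 e2
      have h0' : (0 : ℝ) ≤ (PcF_fl k u : ℝ) := by exact_mod_cast h0
      have e3 : ((PcF_fl k u : ℝ) - (0 : ℤ)) / ((k + 1 : ℕ) : ℝ) ≤ |u| := by
        rw [div_le_iff₀ hk]
        push_cast at f1 ⊢
        have := mul_le_mul_of_nonneg_right (le_abs_self u) (by positivity : (0 : ℝ) ≤ (k : ℝ) + 1)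
        linarith
      have e4 : 0 ≤ ((PcF_fl k u : ℝ) - (0 : ℤ)) / ((k + 1 : ℕ) : ℝ) := by
        apply div_nonneg _ hk.le
        push_cast
        linarith
      rw [abs_le]
      constructor
      · have := abs_nonneg u
        linarith
      · linarith
    · have e1 := (hD k).Slow' (Nat.succ_pos k) _ 0 h0
      have e2 := (hD k).Sup' (Nat.succ_pos k) _ 0 h0
      rw [(hD k).S0] at e1 e2
      have h0' : (PcF_fl k u : ℝ) ≤ 0 := by exact_mod_cast h0
      have e3 : (((0 : ℤ) : ℝ) - (PcF_fl k u : ℝ)) / ((k + 1 : ℕ) : ℝ) ≤ |u| + 1 := by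
        rw [div_le_iff₀ hk]
        push_cast at f2 ⊢
        have := mul_le_mul_of_nonneg_right (neg_abs_le u) (by positivity : (0 : ℝ) ≤ (k : ℝ) + 1)
        have hk0 : (0 : ℝ) ≤ k := Nat.cast_nonneg k
        nlinarith
      have e4 : 0 ≤ (((0 : ℤ) : ℝ) - (PcF_fl k u : ℝ)) / ((k + 1 : ℕ) : ℝ) := by
        apply div_nonneg _ hk.le
        push_cast
        linarith
      rw [abs_le]
      constructor
      · linarith
      · have := abs_nonneg u
        linarith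
  have hSe : ∀ u : ℝ, ∃ x, Filter.Tendsto (fun k => S k (PcF_fl k u))
      (Filter.hyperfilter ℕ : Filter ℕ) (nhds x) :=
    fun u => PcF_lim _ _ (hSb u)
  choose γ hγ using hγe
  choose σ hσ using hSe
  have hσ1 : ∀ k, S k (PcF_fl k 1) = S k ((k + 1 : ℕ) : ℤ) := fun k => by rw [PcF_fl_one]
  refine ⟨γ, σ, ?_, fun u => hF.mem_of_tendsto (hγ u)
    (Filter.Eventually.of_forall fun k => (hDF k).2 _)⟩
  constructor
  · -- hex
    intro u
    refine tendsto_nhds_unique (hγ (u + 2)) (((hγ (u + 1)).sub (hγ u)).congr fun k => ?_)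
    rw [PcF_fl2, PcF_fl1]
    exact ((hD k).hex _).symm
  · -- g0
    refine tendsto_nhds_unique (hγ 0) (tendsto_const_nhds.congr fun k => ?_)
    rw [PcF_fl_zero]
    exact ((hD k).g0).symm
  · -- g1
    refine tendsto_nhds_unique (hγ 1) (tendsto_const_nhds.congr fun k => ?_)
    rw [PcF_fl_one]
    exact ((hD k).gN).symm
  · -- det
    intro u
    refine tendsto_nhds_unique (PcF_cr (hγ u) (hγ (u + 1))) (tendsto_const_nhds.congr fun k => ?_)
    rw [PcF_fl1]
    exact ((hD k).det _).symm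
  · -- lip
    intro u v
    have h1 : Filter.Tendsto (fun k => ‖g k (PcF_fl k u) - g k (PcF_fl k v)‖)
        (Filter.hyperfilter ℕ : Filter ℕ) (nhds ‖γ u - γ v‖) := ((hγ u).sub (hγ v)).norm
    have h2 := ((PcF_diff_lim v u).abs).const_mul 6
    refine le_of_tendsto_of_tendsto' h1 h2 fun k => ?_
    have h3 := (hD k).dist (PcF_fl k u) (PcF_fl k v)
    have hk : (0 : ℝ) < ((k + 1 : ℕ) : ℝ) := by positivity
    refine h3.trans (le_of_eq ?_)
    rw [abs_div, abs_of_pos hk]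
    ring
  · -- conv
    intro s t u v hst htu huv hvs
    refine ge_of_tendsto' (PcF_cr ((hγ t).sub (hγ s)) ((hγ v).sub (hγ u))) fun k => ?_
    apply (hD k).conv4 _ _ _ _ (PcF_fl_mono k hst) (PcF_fl_mono k htu) (PcF_fl_mono k huv)
    have := PcF_fl_mono k hvs
    rw [PcF_fl3] at this
    exact this
  · -- supp
    intro u
    choose n hn1 hn2 hn3 using fun k => (hD k).supp (Nat.succ_pos k) (PcF_fl k u)
    obtain ⟨x, hx⟩ := PcF_lim n 4 hn1
    refine ⟨x, le_of_tendsto' hx.norm hn1, ?_, fun v => ?_⟩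
    · exact tendsto_nhds_unique (PcF_cr hx (hγ u))
        (tendsto_const_nhds.congr fun k => (hn2 k).symm)
    · exact le_of_tendsto' (PcF_cr hx (hγ v)).abs fun k => hn3 k _
  · -- poly
    intro n t ht htn
    have h1 : Filter.Tendsto (fun k => ∑ i ∈ Finset.range n,
        cr (g k (PcF_fl k (t i))) (g k (PcF_fl k (t (i + 1)))))
        (Filter.hyperfilter ℕ : Filter ℕ)
        (nhds (∑ i ∈ Finset.range n, cr (γ (t i)) (γ (t (i + 1))))) :=
      tendsto_finsetSum _ fun i _ => PcF_cr (hγ (t i)) (hγ (t (i + 1)))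
    refine le_of_tendsto_of_tendsto' h1 ((hσ 1).const_mul 3) fun k => ?_
    rw [hσ1]
    refine (hD k).poly (Nat.succ_pos k) n (fun i => PcF_fl k (t i))
      (fun i j hij => PcF_fl_mono k (ht hij)) ?_
    show PcF_fl k (t n) = PcF_fl k (t 0) + 3 * ((k + 1 : ℕ) : ℤ)
    rw [htn, PcF_fl3]
  · -- S0
    refine tendsto_nhds_unique (hσ 0) (tendsto_const_nhds.congr fun k => ?_)
    rw [PcF_fl_zero]
    exact ((hD k).S0).symm
  · -- Sper
    intro u
    refine tendsto_nhds_unique (hσ (u + 1)) (((hσ u).add (hσ 1)).congr fun k => ?_)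
    rw [PcF_fl1, hσ1]
    exact ((hD k).Sper _).symm
  · -- SA
    have h1 : Filter.Tendsto (fun k : ℕ => A + 72 / ((k : ℝ) + 1))
        (Filter.hyperfilter ℕ : Filter ℕ) (nhds A) := by
      have := (tendsto_const_nhds (x := A)).add (PcF_inv.const_mul 72)
      rw [mul_zero, add_zero] at this
      refine this.congr fun k => ?_
      rw [mul_one_div]
    refine le_of_tendsto_of_tendsto' ((hσ 1).const_mul 3) h1 fun k => ?_
    rw [hσ1]
    exact (hD k).SN
  · -- Slow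
    intro u v huv
    refine le_of_tendsto_of_tendsto' ((PcF_diff_lim u v).const_mul (1 / 2))
      ((hσ v).sub (hσ u)) fun k => ?_
    exact (hD k).Slow' (Nat.succ_pos k) _ _ (PcF_fl_mono k huv)
  · -- Sup
    intro u v huv
    refine le_of_tendsto_of_tendsto' ((hσ v).sub (hσ u))
      ((PcF_diff_lim u v).const_mul 50) fun k => ?_
    exact (hD k).Sup' (Nat.succ_pos k) _ _ (PcF_fl_mono k huv)
  · -- area
    intro u v huv
    have h1 := (((PcF_cr (hγ u) (hγ v)).add (PcF_cr (hγ (u + 1)) (hγ (v + 1)))).add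
      (PcF_cr (hγ (u + 2)) (hγ (v + 2)))).sub (((hσ v).sub (hσ u)).const_mul 3)
    refine le_of_tendsto_of_tendsto' h1.abs (((PcF_diff_lim u v).pow 2).const_mul 108) fun k => ?_
    have h2 := (hD k).area (Nat.succ_pos k) _ _ (PcF_fl_mono k huv)
    rw [← PcF_fl1, ← PcF_fl1, ← PcF_fl2, ← PcF_fl2] at h2
    exact h2

end Pool.H59.UO
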