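import Pool.Agent.H59.UO.AfS

/-!
# The centrally symmetric planar convex bodies of least packing density

Let `C = (8 - √32 - log 2) / (√8 - 1) = 0.902414…`.  A centrally symmetric convex body of the
Euclidean plane has the least possible lattice packing density `C` if and only if it is an affine
image of Reinhardt's smoothed octagon, and a centrally symmetric convex body whose packing density
(congruent copies) is at most `C` is an affine image of the smoothed octagon.  If one of the two
densities is near `C`, then the body is near an affine image of the smoothed octagon.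
-/

set_option autoImplicit false

namespace Pool.H59.UO.ResU

open MeasureTheory Filter Topology Metric
open scoped Pointwise

/-- The Euclidean plane. -/
abbrev Plane : Type := EuclideanSpace ℝ (Fin 2)

/-- `K` is a convex body. -/
def IsBody (K : Set Plane) : Prop := IsCompact K ∧ Convex ℝ K ∧ (interior K).Nonempty

/-- `K` is centrally symmetric, with some centre `c`. -/
def IsSymmetric (K : Set Plane) : Prop := ∃ c : Plane, ∀ z ∈ K, c + c - z ∈ K

/-- The images `e i '' K` of `K` under the isometries `e i` have pairwise disjoint interiors. -/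
def IsPacking {ι : Type} (K : Set Plane) (e : ι → Plane ≃ᵢ Plane) : Prop :=
  Pairwise fun i j => Disjoint (interior (e i '' K)) (interior (e j '' K))

/-- The family of the images `e i '' K` has the density `d`: the sum of the areas of the sets
`e i '' K ∩ B_r`, divided by `π r ^ 2`, has the limit `d` as `r → ∞`. -/
def HasDensity {ι : Type} (K : Set Plane) (e : ι → Plane ≃ᵢ Plane) (d : ℝ) : Prop :=
  Tendsto (fun r : ℝ => (∑' i, volume (e i '' K ∩ closedBall 0 r)).toReal / (Real.pi * r ^ 2))
    atTop (𝓝 d)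

/-- The packing density of `K`: the supremum of the densities of all packings by congruent copies
of `K` whose density exists. -/
noncomputable def delta (K : Set Plane) : ℝ :=
  sSup {d | ∃ (ι : Type) (e : ι → Plane ≃ᵢ Plane), IsPacking K e ∧ HasDensity K e d}

/-- `v, w` is a basis of the plane, and the translates of `K` by the vectors of the lattice with this
basis are a packing: distinct translates have disjoint interiors. -/
def IsLatticePacking (K : Set Plane) (v w : Plane) : Prop :=
  v 0 * w 1 - v 1 * w 0 ≠ 0 ∧ Pairwise fun a b : ℤ × ℤ =>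
    Disjoint (interior ((fun x => x + (a.1 • v + a.2 • w)) '' K))
      (interior ((fun x => x + (b.1 • v + b.2 • w)) '' K))

/-- The lattice packing density of `K`: the supremum of the densities `|K| / |det (v, w)|` of its
lattice packings. -/
noncomputable def deltaL (K : Set Plane) : ℝ :=
  sSup {d | ∃ v w : Plane, IsLatticePacking K v w ∧
    d = (volume K).toReal / |v 0 * w 1 - v 1 * w 0|}

/-- Reinhardt's constant, `0.902414…`, the least packing density and the least lattice packing
density of a centrally symmetric convex body of the plane. -/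
noncomputable def C : ℝ := (8 - Real.sqrt 32 - Real.log 2) / (Real.sqrt 8 - 1)

/-- The rotation by `45` degrees. -/
noncomputable def turn (z : ℝ × ℝ) : ℝ × ℝ :=
  (Real.sqrt 2 / 2 * (z.1 - z.2), Real.sqrt 2 / 2 * (z.1 + z.2))

/-- Reinhardt's smoothed octagon with inradius `1`.  Let `u = 1 - (√2 / 2) (x - y)` and
`v = 1 - y`; the lines `u = 0` and `v = 0` are sides of the regular octagon with inradius `1`,
between them there are the sides `x = 1` and `(√2 / 2) (x + y) = 1`.  The hyperbola `u v = √2 / 4`
touches these two sides at `u = 1 / 2` and at `u = √2 / 2`, and `u / t + 2 √2 t v = 2` is its tangent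
at `u = t`.  The smoothed octagon is the intersection of the half planes of these tangents with
`1 / 2 ≤ t ≤ √2 / 2` and of their images under the rotations by the multiples of `45` degrees: the
regular octagon whose corners are cut by arcs of hyperbolas. -/
def smoothedOctagon : Set Plane :=
  {z | ∀ (k : ℕ) (t : ℝ), 1 / 2 ≤ t → t ≤ Real.sqrt 2 / 2 →
    2 ≤ (1 - Real.sqrt 2 / 2 * ((turn^[k] (z 0, z 1)).1 - (turn^[k] (z 0, z 1)).2)) / t +
      2 * Real.sqrt 2 * t * (1 - (turn^[k] (z 0, z 1)).2)}

/-- `K` is the image of the smoothed octagon under an affine bijection of the plane. -/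
def IsAffineOctagon (K : Set Plane) : Prop :=
  ∃ f : Plane ≃ᵃ[ℝ] Plane, K = f '' smoothedOctagon

private theorem result_aux (K : Set Plane) (hK : IsBody K) (hs : IsSymmetric K) :
    C ≤ deltaL K ∧ (∀ x : ℝ, (∀ v w, Pool.H61.Sm.Pack (Pool.H59.UO.TT '' K) v w →
      (volume (Pool.H59.UO.TT '' K)).toReal / |v.1 * w.2 - v.2 * w.1| ≤ x) ↔ deltaL K ≤ x) ∧
    ∀ x : ℝ, delta K ≤ x → deltaL K ≤ x := by
  obtain ⟨hk, hc, hi⟩ := hK
  obtain ⟨c, hs⟩ := hs
  have hdelta : delta K = Pool.H94.DL.packingDensity K := rfl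
  obtain ⟨v₀, w₀, h₀, h₁⟩ := Pool.H59.UO.exists_pack hk hc hi hs
  have hdet : ∀ v w : Plane, (Pool.H59.UO.TT v).1 * (Pool.H59.UO.TT w).2 -
      (Pool.H59.UO.TT v).2 * (Pool.H59.UO.TT w).1 = v 0 * w 1 - v 1 * w 0 := by
    intro v w
    rw [Pool.H59.UO.TT_apply, Pool.H59.UO.TT_apply]
  have hset : ∀ d : ℝ, (∃ v w : Plane, IsLatticePacking K v w ∧
      d = (volume K).toReal / |v 0 * w 1 - v 1 * w 0|) ↔
      ∃ v w : ℝ × ℝ, Pool.H61.Sm.Pack (Pool.H59.UO.TT '' K) v w ∧
        d = (volume (Pool.H59.UO.TT '' K)).toReal / |v.1 * w.2 - v.2 * w.1| := by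
    intro d
    rw [Pool.H59.UO.volume_TT]
    constructor
    · rintro ⟨v, w, h1, h2⟩
      exact ⟨Pool.H59.UO.TT v, Pool.H59.UO.TT w, Pool.H59.UO.pack_TT.2 h1, by rw [hdet]; exact h2⟩
    · rintro ⟨v, w, h1, h2⟩
      refine ⟨Pool.H59.UO.TT.symm v, Pool.H59.UO.TT.symm w, ?_, ?_⟩
      · refine Pool.H59.UO.pack_TT.1 ?_
        rw [ContinuousLinearEquiv.apply_symm_apply, ContinuousLinearEquiv.apply_symm_apply]
        exact h1
      · rw [← hdet, ContinuousLinearEquiv.apply_symm_apply, ContinuousLinearEquiv.apply_symm_apply]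
        exact h2
  have hcT : Convex ℝ (Pool.H59.UO.TT '' K) :=
    hc.linear_image Pool.H59.UO.TT.toLinearEquiv.toLinearMap
  have hkT : IsCompact (Pool.H59.UO.TT '' K) :=
    Pool.H59.UO.TT.toHomeomorph.isCompact_image.2 hk
  have hbdd : BddAbove {d | ∃ v w : Plane, IsLatticePacking K v w ∧
      d = (volume K).toReal / |v 0 * w 1 - v 1 * w 0|} := by
    refine ⟨1, fun d hd => ?_⟩
    obtain ⟨v, w, h1, rfl⟩ := (hset d).1 hd
    exact Pool.H61.Sm.density_le_one hcT hkT h1
  have hiff : ∀ x : ℝ, (∀ v w, Pool.H61.Sm.Pack (Pool.H59.UO.TT '' K) v w →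
      (volume (Pool.H59.UO.TT '' K)).toReal / |v.1 * w.2 - v.2 * w.1| ≤ x) ↔ deltaL K ≤ x := by
    intro x
    constructor
    · intro h
      refine csSup_le ⟨_, (hset _).2 ⟨v₀, w₀, h₀, rfl⟩⟩ fun d hd => ?_
      obtain ⟨v, w, h1, rfl⟩ := (hset d).1 hd
      exact h v w h1
    · intro h v w hp
      exact (le_csSup hbdd ((hset _).2 ⟨v, w, hp, rfl⟩)).trans h
  refine ⟨h₁.trans (le_csSup hbdd ((hset _).2 ⟨v₀, w₀, h₀, rfl⟩)), hiff, fun x hx => ?_⟩
  refine (hiff x).1 fun v w hp => ?_
  have h1 := Pool.H59.UO.le_density_pack hc hk hp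
  rw [← hdelta] at h1
  exact h1.trans hx

/-- Let `K` be a centrally symmetric convex body of the Euclidean plane.  Its lattice packing density
is the least possible one, `C`, if and only if `K` is an affine image of the smoothed octagon `S`; and
if the packing density of `K` (congruent copies) is at most `C`, then `K` is an affine image
of `S`.  Moreover this is stable: for every `ε > 0` there is `d > 0` such that `f(S) ⊆ K ⊆ f((1+ε)S)`
for some affine bijection `f` whenever one of the two densities of `K` is at most `C + d`. -/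
theorem result :
    (∀ K : Set Plane, IsBody K → IsSymmetric K →
      (deltaL K = C ↔ IsAffineOctagon K) ∧ (delta K ≤ C → IsAffineOctagon K)) ∧
    ∀ ε : ℝ, 0 < ε → ∃ d : ℝ, 0 < d ∧ ∀ K : Set Plane, IsBody K → IsSymmetric K →
      (deltaL K ≤ C + d ∨ delta K ≤ C + d) →
      ∃ f : Plane ≃ᵃ[ℝ] Plane, f '' smoothedOctagon ⊆ K ∧ K ⊆ f '' ((1 + ε) • smoothedOctagon) := by
  constructor
  · intro K hK hs
    obtain ⟨h1, h2, h3⟩ := result_aux K hK hs
    obtain ⟨hk, hc, hi⟩ := hK
    obtain ⟨c, hs⟩ := hs
    have hmin := Pool.H59.UO.minimisers hk hc hi hs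
    refine ⟨⟨fun h => hmin.1 ((h2 C).2 h.le), fun h => le_antisymm ((h2 C).1 (hmin.2 h)) h1⟩,
      fun h => hmin.1 ((h2 C).2 (h3 C h))⟩
  · intro ε he
    obtain ⟨d, hd, hst⟩ := Pool.H59.UO.stab_plane he
    refine ⟨d, hd, fun K hK hs h => ?_⟩
    obtain ⟨-, h2, h3⟩ := result_aux K hK hs
    obtain ⟨hk, hc, hi⟩ := hK
    exact hst K hk hc hi hs ((h2 (C + d)).2 (h.elim id (h3 (C + d))))

end Pool.H59.UO.ResU
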