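import Pool.Agent.H59.UO.Tgt

/-! # Shf: two solutions of least period differ by a shift of the time

Let `σ, σ'` be the clocks of the two solutions (`tight`, `exists_ref`).  `y (σ x) = y' (σ' x)` and
the two derivatives are equal at every `x` of the four arcs, and so everywhere (period `π/3`,
`Clk.sigT`, `RS.py`); so `σ' - σ` is constant, and `σ` is surjective (`Clk.sp`). -/

set_option autoImplicit false

namespace Pool.H59.UO

open Complex MeasureTheory Pool.H61.Rh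

private lemma Shf_uu_ne : uu 1 ≠ 0 := by
  rw [uu_one]
  intro h0
  have h1 : ze = 0 := by simpa using h0
  have := norm_ze
  rw [h1] at this
  simp at this

private lemma Shf_fq_per (A B Y : ℂ) :
    fq (ze * A) ((starRingEnd ℂ) ze * B) ((starRingEnd ℂ) ze ^ 2 * Y) = fq A B Y := by
  have hzc := ze_mul_conj
  have hzn : normSq ze = 1 := normSq_ze
  have hzn' : normSq ((starRingEnd ℂ) ze) = 1 := by rw [normSq_conj]; exact normSq_ze
  have hya : (starRingEnd ℂ) ze ^ 2 * Y * (ze * A) = (starRingEnd ℂ) ze * (Y * A) := by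
    calc (starRingEnd ℂ) ze ^ 2 * Y * (ze * A)
        = (ze * (starRingEnd ℂ) ze) * ((starRingEnd ℂ) ze * (Y * A)) := by ring
      _ = _ := by rw [hzc, one_mul]
  unfold fq
  have h3 : dt ((starRingEnd ℂ) ze * (Y * A)) ((starRingEnd ℂ) ze * B) =
      normSq ((starRingEnd ℂ) ze) * dt (Y * A) B := by
    generalize (starRingEnd ℂ) ze = u
    generalize Y * A = Z
    simp only [dt, mul_re, mul_im, normSq_apply]; ring
  rw [hya, h3, hzn', one_mul, map_mul, hzn, one_mul]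

/-- two minimal solutions have the same state at the same angle -/
private lemma Shf_state {T : ℝ} {a1 b1 y1 a2 b2 y2 : ℝ → ℂ} {φ1 σ1 φ2 σ2 ms : ℝ → ℝ}
    (h1 : RS T a1 b1 y1) (c1 : Clk T a1 b1 y1 φ1 σ1) (h2 : RS T a2 b2 y2)
    (c2 : Clk T a2 b2 y2 φ2 σ2)
    (d1 : ∀ k : ℕ, k < 4 → ∀ s : ℝ, |s| ≤ Real.pi / 24 →
        uu 1 ^ k * y1 (σ1 (s + k * (Real.pi / 12) - Real.pi / 2)) = oy (ms s) ∧
        fq (a1 (σ1 (s + k * (Real.pi / 12) - Real.pi / 2)))
          (b1 (σ1 (s + k * (Real.pi / 12) - Real.pi / 2)))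
          (y1 (σ1 (s + k * (Real.pi / 12) - Real.pi / 2))) = fs (oy (ms s)) (ov (ms s)))
    (d2 : ∀ k : ℕ, k < 4 → ∀ s : ℝ, |s| ≤ Real.pi / 24 →
        uu 1 ^ k * y2 (σ2 (s + k * (Real.pi / 12) - Real.pi / 2)) = oy (ms s) ∧
        fq (a2 (σ2 (s + k * (Real.pi / 12) - Real.pi / 2)))
          (b2 (σ2 (s + k * (Real.pi / 12) - Real.pi / 2)))
          (y2 (σ2 (s + k * (Real.pi / 12) - Real.pi / 2))) = fs (oy (ms s)) (ov (ms s)))
    (s : ℝ) :
    y1 (σ1 s) = y2 (σ2 s) ∧ fq (a1 (σ1 s)) (b1 (σ1 s)) (y1 (σ1 s)) =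
      fq (a2 (σ2 s)) (b2 (σ2 s)) (y2 (σ2 s)) := by
  have hpi := Real.pi_pos
  set P : ℝ → Prop := fun s => y1 (σ1 s) = y2 (σ2 s) ∧
    fq (a1 (σ1 s)) (b1 (σ1 s)) (y1 (σ1 s)) = fq (a2 (σ2 s)) (b2 (σ2 s)) (y2 (σ2 s)) with hP
  have hz : (starRingEnd ℂ) ze ^ 2 ≠ 0 := by
    intro h0
    have h1 : (starRingEnd ℂ) ze = 0 := by simpa using h0
    have := ze_mul_conj
    rw [h1, mul_zero] at this
    exact zero_ne_one this
  have hper : Function.Periodic P (Real.pi / 3) := by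
    intro s
    simp only [hP]
    rw [c1.sigT, c2.sigT, h1.py, h2.py, h1.pa, h2.pa, h1.pb, h2.pb, Shf_fq_per, Shf_fq_per]
    apply propext
    constructor
    · rintro ⟨e1, e2⟩
      exact ⟨mul_left_cancel₀ hz e1, e2⟩
    · rintro ⟨e1, e2⟩
      rw [e1]
      exact ⟨rfl, e1 ▸ e2⟩
  show P s
  obtain ⟨t, ht, hst⟩ := hper.exists_mem_Ico (by positivity : 0 < Real.pi / 3) s
    (-(Real.pi / 24) - Real.pi / 2)
  rw [hst]
  -- the arc of `t`
  have arc : ∀ k : ℕ, k < 4 → -(Real.pi / 24) ≤ t + Real.pi / 2 - k * (Real.pi / 12) →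
      t + Real.pi / 2 - k * (Real.pi / 12) ≤ Real.pi / 24 → P t := by
    intro k hk l1 l2
    have e1 := d1 k hk _ (abs_le.2 ⟨l1, l2⟩)
    have e2 := d2 k hk _ (abs_le.2 ⟨l1, l2⟩)
    have e3 : t + Real.pi / 2 - k * (Real.pi / 12) + k * (Real.pi / 12) - Real.pi / 2 = t := by ring
    rw [e3] at e1 e2
    have hu : uu 1 ^ k ≠ 0 := pow_ne_zero _ Shf_uu_ne
    exact ⟨mul_left_cancel₀ hu (e1.1.trans e2.1.symm), e1.2.trans e2.2.symm⟩
  have t1 := ht.1
  have t2 := ht.2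
  rcases le_or_gt t (Real.pi / 24 - Real.pi / 2) with q0 | q0
  · exact arc 0 (by norm_num) (by push_cast; linarith) (by push_cast; linarith)
  rcases le_or_gt t (3 * (Real.pi / 24) - Real.pi / 2) with q1 | q1
  · exact arc 1 (by norm_num) (by push_cast; linarith) (by push_cast; linarith)
  rcases le_or_gt t (5 * (Real.pi / 24) - Real.pi / 2) with q2 | q2
  · exact arc 2 (by norm_num) (by push_cast; linarith) (by push_cast; linarith)
  · exact arc 3 (by norm_num) (by push_cast; linarith) (by push_cast; linarith)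

theorem shift {ν : ℝ} (hC : Cals ν) {a b y a' b' y' : ℝ → ℂ} (h : RS Ts a b y)
    (h' : RS Ts a' b' y') : ∃ d : ℝ, ∀ τ, y' (τ + d) = y τ := by
  obtain ⟨ms, Bs, Bs1, r⟩ := exists_ref
  obtain ⟨A1, B1, φ1, σ1, g1, c1, d1⟩ := tight hC h r
  obtain ⟨A2, B2, φ2, σ2, g2, c2, d2⟩ := tight hC h' r
  have st := Shf_state g1 c1 g2 c2 d1 d2
  have hd : ∀ s, HasDerivAt (fun s => σ2 s - σ1 s) 0 s := by
    intro s
    have e := (c2.dsig s).sub (c1.dsig s)
    rw [(st s).2, sub_self] at e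
    exact e
  have hc : ∀ s s', σ2 s - σ1 s = σ2 s' - σ1 s' :=
    is_const_of_deriv_eq_zero (fun s => (hd s).differentiableAt) (fun s => (hd s).deriv)
  refine ⟨σ2 0 - σ1 0, fun τ => ?_⟩
  have e1 := hc (φ1 τ) 0
  have e2 := (st (φ1 τ)).1
  rw [c1.sp] at e1 e2
  rw [← e1, e2]
  congr 1
  ring

end Pool.H59.UO
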