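import Pool.Agent.H59.UO.CfL
import Pool.Agent.H59.UO.DcF
import Pool.Agent.H59.UO.PcF
import Pool.Agent.H59.UO.AcF
import Pool.Agent.H61.Rc.R5

/-! # Sys: the differential system of a minimal norm

`F = {z | ∃ x, ν x = 1 ∧ z = hx a b x}` is closed (`hx a b` is a homeomorphism, or: `F` is the image
of a compact set) and symmetric.  `Mnl.cfg`, `dc_of_cfg'` (with `q i - p i = hx a b (y - x)`,
`Ins.r1`), `exists_PC'` with `A = 2 s3 cR`, `exists_AC'`, `AC.rs'` (`3 T ≤ 2 s3 cR < 2 s3 · .9025`),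
`RSBound cR` gives `3 T = 2 s3 cR = 3 Ts` (`Ts_eq`).  Directions: `AC.dir`. -/

set_option autoImplicit false

namespace Pool.H59.UO

open Complex MeasureTheory Pool.H61.Rh

private lemma Sys_hx_sub (a b x y : ℂ) : hx a b (x - y) = hx a b x - hx a b y := by
  unfold hx
  rw [map_sub]
  ring

private lemma Sys_hx_neg (a b x : ℂ) : hx a b (-x) = -hx a b x := by
  unfold hx
  rw [map_neg]
  ring

private lemma Sys_closed {ν : ℂ → ℝ} (h : Nm ν) (a b : ℂ) :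
    IsClosed {z : ℂ | ∃ x, ν x = 1 ∧ z = hx a b x} := by
  have h1 : IsCompact {x : ℂ | ν x = 1} :=
    h.compact.of_isClosed_subset (isClosed_eq h.continuous continuous_const)
      (fun x hx => le_of_eq hx)
  have hcont : Continuous (hx a b) := by
    unfold hx
    exact (continuous_const.mul continuous_id).add (continuous_const.mul Complex.continuous_conj)
  have h2 : {z : ℂ | ∃ x, ν x = 1 ∧ z = hx a b x} = hx a b '' {x : ℂ | ν x = 1} := by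
    ext z
    constructor
    · rintro ⟨x, hx1, hx2⟩
      exact ⟨x, hx1, hx2.symm⟩
    · rintro ⟨x, hx1, hx2⟩
      exact ⟨x, hx1, hx2.symm⟩
  rw [h2]
  exact (h1.image hcont).isClosed

theorem Mnl.sys (hc : cR < 9025 / 10000) (H : RSBound cR) {ν : ℂ → ℝ} (h : Mnl ν) :
    ∃ (a b : ℂ) (A B y : ℝ → ℂ), 0 < normSq a - normSq b ∧ RS Ts A B y ∧
      (∀ τ, ∃ x, ν x = 1 ∧ A τ + B τ = hx a b x) ∧
      ∀ v : ℂ, v ≠ 0 → ∃ (τ t : ℝ), A τ + B τ = t * v := by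
  obtain ⟨a, b, hab, hcfg⟩ := h.cfg hc.le H
  have hFc := Sys_closed h.nm a b
  have hneg : ∀ z ∈ {z : ℂ | ∃ x, ν x = 1 ∧ z = hx a b x},
      -z ∈ {z : ℂ | ∃ x, ν x = 1 ∧ z = hx a b x} := by
    rintro z ⟨x, hx1, hx2⟩
    exact ⟨-x, by rw [h.nm.neg, hx1], by rw [hx2, Sys_hx_neg]⟩
  have hdc : ∀ k : ℕ, ∃ (g : ℤ → ℂ) (S : ℤ → ℝ),
      DC (k + 1) (2 * s3 * cR + 72 / ((k : ℝ) + 1)) g S ∧
      ∀ m, g m ∈ {z : ℂ | ∃ x, ν x = 1 ∧ z = hx a b x} := by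
    intro k
    obtain ⟨P, Q, hC, hd, hI, hW⟩ := hcfg (k + 1) (Nat.succ_pos k)
    refine dc_of_cfg' (Nat.succ_pos k) hC hd ?_ ?_ hneg
    · have hk : (0 : ℝ) ≤ 72 / ((k : ℝ) + 1) := by positivity
      linarith
    · intro i hi
      obtain ⟨x, y, hxy, hp, hq⟩ := hI i hi
      exact ⟨⟨x, hxy.p1, hp⟩, ⟨y, hxy.q1, hq⟩, ⟨y - x, hxy.r1, by rw [hp, hq, Sys_hx_sub]⟩⟩
  obtain ⟨γ, S, hPC, hγF⟩ := exists_PC' (2 * s3 * cR) hFc hdc
  obtain ⟨T, γ', hAC, hTA, hγF'⟩ := exists_AC' hPC hγF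
  have hs := s3_pos
  have hT1 : 3 * T < 2 * s3 * (9025 / 10000) := by
    have : 2 * s3 * cR < 2 * s3 * (9025 / 10000) := by
      apply mul_lt_mul_of_pos_left hc
      linarith
    linarith
  obtain ⟨A, B, y, hRS, hB0, hAB⟩ := AC.rs' hAC hT1
  have hT2 := H T A B y hRS hB0
  have hT3 : T = Ts := by
    have h3 : 3 * Ts = 2 * s3 * cR := Ts_eq
    linarith
  rw [hT3] at hRS
  refine ⟨a, b, A, B, y, hab, hRS, fun τ => ?_, fun v hv => ?_⟩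
  · obtain ⟨x, hx1, hx2⟩ := hγF' τ
    exact ⟨x, hx1, by rw [hAB, hx2]⟩
  · obtain ⟨t, lam, -, hl⟩ := hAC.dir v hv
    exact ⟨t, lam, by rw [hAB, hl]⟩

end Pool.H59.UO
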