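import Pool.Agent.H59.UO.Sys
import Pool.Agent.H59.UO.Shf
import Pool.Agent.H59.UO.Ode

/-! # Unq: two minimal norms are linearly equivalent

`Mnl.sys` for `ν` (`L = hx a b`) and `ν'` (`L' = hx a' b'`), `shift`, `ode` (`M = hx α₀ β₀`).  For
every `τ`: `L' x' = (A' + B') (τ + d) = M (A + B) τ = M (L x)` with `ν x = 1 = ν' x'`, so
`ν' (Φ x) = ν x` for `Φ = L'⁻¹ M L`.  Given `v ≠ 0` there are `τ, t` with
`L x = (A + B) τ = t (L v)`, so `x = t v`, `t ≠ 0`, and `ν' (Φ v) = ν v`.  The inverse of `hx a b` is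
`hx (conj a / D) (-b / D)`, `D = normSq a - normSq b`; a composition of such maps is such a map, and
the determinants multiply. -/

set_option autoImplicit false

namespace Pool.H59.UO

open Complex MeasureTheory Pool.H61.Rh

private lemma Unq_comp (a b c d z : ℂ) :
    hx a b (hx c d z) = hx (a * c + b * (starRingEnd ℂ) d) (a * d + b * (starRingEnd ℂ) c) z := by
  unfold hx
  simp only [map_add, map_mul, Complex.conj_conj]
  ring

private lemma Unq_det (a b c d : ℂ) :
    normSq (a * c + b * (starRingEnd ℂ) d) - normSq (a * d + b * (starRingEnd ℂ) c) =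
      (normSq a - normSq b) * (normSq c - normSq d) := by
  simp only [Complex.normSq_apply, Complex.add_re, Complex.add_im, Complex.mul_re,
    Complex.mul_im, Complex.conj_re, Complex.conj_im]
  ring

private lemma Unq_ex (a b c d : ℂ) (h : 0 < normSq a - normSq b) (h2 : 0 < normSq c - normSq d) :
    ∃ α β : ℂ, 0 < normSq α - normSq β ∧ ∀ z, hx α β z = hx a b (hx c d z) :=
  ⟨a * c + b * (starRingEnd ℂ) d, a * d + b * (starRingEnd ℂ) c,
    by rw [Unq_det]; exact mul_pos h h2, fun z => (Unq_comp a b c d z).symm⟩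

private lemma Unq_inv (a b z : ℂ) (h : 0 < normSq a - normSq b) :
    hx ((starRingEnd ℂ) a / ((normSq a - normSq b : ℝ) : ℂ))
      (-b / ((normSq a - normSq b : ℝ) : ℂ)) (hx a b z) = z := by
  have hD : ((normSq a - normSq b : ℝ) : ℂ) ≠ 0 := by
    exact_mod_cast h.ne'
  have h1 : ((normSq a - normSq b : ℝ) : ℂ) = a * (starRingEnd ℂ) a - b * (starRingEnd ℂ) b := by
    rw [Complex.mul_conj, Complex.mul_conj]
    push_cast
    ring
  unfold hx
  simp only [map_add, map_mul, Complex.conj_conj]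
  rw [div_mul_eq_mul_div, div_mul_eq_mul_div, ← add_div, div_eq_iff hD, h1]
  ring

private lemma Unq_inv_det (a b : ℂ) (h : 0 < normSq a - normSq b) :
    0 < normSq ((starRingEnd ℂ) a / ((normSq a - normSq b : ℝ) : ℂ)) -
      normSq (-b / ((normSq a - normSq b : ℝ) : ℂ)) := by
  rw [Complex.normSq_div, Complex.normSq_div, Complex.normSq_conj, Complex.normSq_neg,
    ← sub_div]
  apply div_pos h
  rw [Complex.normSq_ofReal]
  positivity

private lemma Unq_smul (a b z : ℂ) (t : ℝ) : hx a b (t * z) = t * hx a b z := by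
  unfold hx
  simp only [map_mul, Complex.conj_ofReal]
  ring

theorem unique {ρ : ℝ} (hC : Cals ρ) (hc : cR < 9025 / 10000) (H : RSBound cR) {ν ν' : ℂ → ℝ}
    (h : Mnl ν) (h' : Mnl ν') :
    ∃ α β : ℂ, 0 < normSq α - normSq β ∧ ∀ z, ν' (hx α β z) = ν z := by
  obtain ⟨a, b, A, B, y, hD, hR, hx1, hdir⟩ := h.sys hc H
  obtain ⟨a', b', A', B', y', hD', hR', hx1', -⟩ := h'.sys hc H
  obtain ⟨d, hd⟩ := shift hC hR hR'
  obtain ⟨α0, β0, h0, hode⟩ := ode hR hR' hd
  obtain ⟨c, e, hce⟩ : ∃ c e : ℂ, c = (starRingEnd ℂ) a' / ((normSq a' - normSq b' : ℝ) : ℂ) ∧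
      e = -b' / ((normSq a' - normSq b' : ℝ) : ℂ) := ⟨_, _, rfl, rfl⟩
  have hinv : ∀ z, hx c e (hx a' b' z) = z := by
    intro z
    rw [hce.1, hce.2]
    exact Unq_inv a' b' z hD'
  have hinvD : 0 < normSq c - normSq e := by
    rw [hce.1, hce.2]
    exact Unq_inv_det a' b' hD'
  have hphi : ∃ α β : ℂ, 0 < normSq α - normSq β ∧
      ∀ z, hx α β z = hx c e (hx α0 β0 (hx a b z)) := by
    obtain ⟨u, v, huv, h2⟩ := Unq_ex α0 β0 a b (by rw [h0]; exact one_pos) hD
    obtain ⟨α, β, h3, h4⟩ := Unq_ex c e u v hinvD huv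
    exact ⟨α, β, h3, fun z => by rw [h4, h2]⟩
  obtain ⟨α, β, hαβ, hphi⟩ := hphi
  refine ⟨α, β, hαβ, fun z => ?_⟩
  by_cases hz : z = 0
  · subst hz
    have h1 : ∀ μ : ℂ → ℝ, Nm μ → μ 0 = 0 := by
      intro μ hμ
      have := hμ.hom 0 0
      simpa using this
    have h2 : hx α β 0 = 0 := by
      unfold hx
      simp
    rw [h2, h1 ν' h'.nm, h1 ν h.nm]
  · have hLz : hx a b z ≠ 0 := by
      intro h1
      have h2 := Unq_inv a b z hD
      rw [h1] at h2
      apply hz
      rw [← h2]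
      unfold hx
      simp
    obtain ⟨τ, t, ht⟩ := hdir (hx a b z) hLz
    obtain ⟨x, hx1, hx2⟩ := hx1 τ
    obtain ⟨x', hx1', hx2'⟩ := hx1' (τ + d)
    have hxt : x = t * z := by
      have h1 : hx a b x = hx a b (t * z) := by
        rw [← hx2, ht, Unq_smul]
      have h2 := congrArg (hx ((starRingEnd ℂ) a / ((normSq a - normSq b : ℝ) : ℂ))
        (-b / ((normSq a - normSq b : ℝ) : ℂ))) h1
      rwa [Unq_inv a b _ hD, Unq_inv a b _ hD] at h2
    have hPx : hx α β x = x' := by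
      rw [hphi, ← hx2, ← hode τ, hx2', hinv]
    have ht0 : t ≠ 0 := by
      rintro rfl
      rw [hxt] at hx1
      have := h.nm.hom 0 z
      rw [hx1] at this
      simp at this
    have h3 : ν' (hx α β x) = ν x := by
      rw [hPx, hx1', hx1]
    rw [hxt, Unq_smul, h'.nm.hom, h.nm.hom] at h3
    exact mul_left_cancel₀ (abs_ne_zero.mpr ht0) h3

end Pool.H59.UO
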